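import Mathlib

/-!
Basic theory of ℤ-graded modules over a ℤ-graded ring, in terms of component maps.
-/

set_option autoImplicit false

namespace Pool.Agent.Helper22.Grad

open Function

/-- A decomposition of an additive group into ℤ-indexed components, given by projections. -/
structure Dec (M : Type*) [AddCommGroup M] where
  c : ℤ → M →+ M
  fin : ∀ m, {i | c i m ≠ 0}.Finite
  sum : ∀ m, ∑ᶠ i, c i m = m
  orth : ∀ i j m, i ≠ j → c i (c j m) = 0

namespace Dec

variable {M : Type*} [AddCommGroup M] (D : Dec M)

theorem support_finite (m : M) : (Function.support fun i => D.c i m).Finite := D.fin m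

theorem induction {P : M → Prop} (h0 : P 0) (hadd : ∀ x y, P x → P y → P (x + y))
    (hhom : ∀ i m, P (D.c i m)) (m : M) : P m := by
  rw [← D.sum m]
  exact finsum_induction P h0 (fun {x y} hx hy => hadd x y hx hy) (fun i => hhom i m)

theorem map_finsum' {N : Type*} [AddCommGroup N] (f : M →+ N) (m : M) :
    f m = ∑ᶠ i, f (D.c i m) := by
  conv_lhs => rw [← D.sum m]
  exact f.map_finsum (D.support_finite m)

theorem idem (i : ℤ) (m : M) : D.c i (D.c i m) = D.c i m := by
  have h := D.map_finsum' (D.c i) m
  rw [finsum_eq_single _ i] at h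
  · exact h.symm
  · intro j hj
    exact D.orth i j m (Ne.symm hj)

/-- a submodule-like set is homogeneous -/
theorem sum_finset (m : M) (s : Finset ℤ) (hs : ∀ i, i ∉ s → D.c i m = 0) :
    ∑ i ∈ s, D.c i m = m := by
  conv_rhs => rw [← D.sum m]
  symm
  apply finsum_eq_sum_of_support_subset
  intro i hi
  by_contra h
  exact hi (hs i h)

theorem ext_c {m m' : M} (h : ∀ i, D.c i m = D.c i m') : m = m' := by
  rw [← D.sum m, ← D.sum m']
  exact finsum_congr h

end Dec

/-- A ℤ-graded ring. -/
structure RGr (S : Type*) [Ring S] extends Dec S where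
  mul : ∀ i j s t, c (i + j) (c i s * c j t) = c i s * c j t
  one : c 0 1 = 1

/-- A ℤ-graded (left) module over a graded ring. -/
structure Gr {S : Type*} [Ring S] (𝒮 : RGr S) (M : Type*) [AddCommGroup M] [Module S M]
    extends Dec M where
  smul : ∀ i j s m, c (i + j) (𝒮.c i s • c j m) = 𝒮.c i s • c j m

namespace Gr

variable {S : Type*} [Ring S] {𝒮 : RGr S} {M : Type*} [AddCommGroup M] [Module S M]
  (g : Gr 𝒮 M)

theorem c_smul_hom (k i : ℤ) (s : S) (m : M) :
    g.c k (𝒮.c i s • m) = 𝒮.c i s • g.c (k - i) m := by
  induction m using g.toDec.induction with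
  | h0 => simp
  | hadd x y hx hy => rw [smul_add, map_add, hx, hy, map_add, smul_add]
  | hhom j m =>
    by_cases h : k = i + j
    · subst h
      rw [g.smul, show i + j - i = j by ring, g.idem]
    · rw [← g.smul, g.orth _ _ _ h, g.orth _ _ _ (by omega), smul_zero]

theorem c_smul_of_hom (k j : ℤ) (s : S) (m : M) :
    g.c k (s • g.c j m) = 𝒮.c (k - j) s • g.c j m := by
  induction s using 𝒮.toDec.induction with
  | h0 => simp
  | hadd x y hx hy => rw [add_smul, map_add, hx, hy, map_add, add_smul]
  | hhom i s =>
    rw [g.c_smul_hom]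
    by_cases h : k - i = j
    · rw [h, g.idem, show k - j = i by omega, 𝒮.idem]
    · rw [g.orth _ _ _ h, 𝒮.orth _ _ _ (by omega), smul_zero, zero_smul]

/-- homogeneous submodules -/
def Hmg (g : Gr 𝒮 M) (N : Submodule S M) : Prop := ∀ i, ∀ m ∈ N, g.c i m ∈ N

/-- homogeneous maps of degree `d` -/
def HomD {N : Type*} [AddCommGroup N] [Module S N] (g : Gr 𝒮 M) (h : Gr 𝒮 N) (d : ℤ)
    (f : M →ₗ[S] N) : Prop := ∀ i m, f (g.c i m) = h.c (i + d) (f m)

/-- induced grading on a homogeneous submodule -/
def sub {N : Submodule S M} (hN : g.Hmg N) : Gr 𝒮 N where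
  c i := ((g.c i).comp N.subtype.toAddMonoidHom).codRestrict N.toAddSubgroup
    (fun m => hN i m m.2)
  fin m := by
    refine (g.fin (m : M)).subset ?_
    intro i hi
    intro h
    apply hi
    exact Subtype.ext h
  sum m := by
    apply Subtype.ext
    have := (N.subtype.toAddMonoidHom).map_finsum (f := fun i =>
      (((g.c i).comp N.subtype.toAddMonoidHom).codRestrict N.toAddSubgroup
    (fun m => hN i m m.2)) m) ?_
    · change N.subtype.toAddMonoidHom _ = _
      rw [this]
      exact g.sum m
    · refine (g.fin (m : M)).subset ?_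
      intro i hi
      intro h
      apply hi
      exact Subtype.ext h
  orth i j m h := by
    apply Subtype.ext
    exact g.orth i j m h
  smul i j s m := by
    apply Subtype.ext
    exact g.smul i j s m

@[simp] theorem sub_c {N : Submodule S M} (hN : g.Hmg N) (i : ℤ) (m : N) :
    (((g.sub hN).c i m : N) : M) = g.c i m := rfl

/-- induced grading on a quotient by a homogeneous submodule -/
def quot {N : Submodule S M} (hN : g.Hmg N) : Gr 𝒮 (M ⧸ N) where
  c i := QuotientAddGroup.map N.toAddSubgroup N.toAddSubgroup (g.c i) (fun m hm => hN i m hm)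
  fin m := by
    induction m using Submodule.Quotient.induction_on with | _ m =>
    refine (g.fin (m : M)).subset ?_
    intro i hi
    intro h
    apply hi
    change Submodule.Quotient.mk (g.c i m) = 0
    rw [h]; rfl
  sum m := by
    induction m using Submodule.Quotient.induction_on with | _ m =>
    change ∑ᶠ i, N.mkQ.toAddMonoidHom (g.c i m) = N.mkQ m
    rw [← (N.mkQ.toAddMonoidHom).map_finsum (g.support_finite m), g.sum]
    rfl
  orth i j m h := by
    induction m using Submodule.Quotient.induction_on with | _ m =>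
    change Submodule.Quotient.mk (g.c i (g.c j m)) = 0
    rw [g.orth _ _ _ h]; rfl
  smul i j s m := by
    induction m using Submodule.Quotient.induction_on with | _ m =>
    change Submodule.Quotient.mk (g.c (i + j) (𝒮.c i s • g.c j m)) =
      𝒮.c i s • (Submodule.Quotient.mk (g.c j m) : M ⧸ N)
    rw [g.smul]; rfl

@[simp] theorem quot_c {N : Submodule S M} (hN : g.Hmg N) (i : ℤ) (m : M) :
    (g.quot hN).c i (Submodule.Quotient.mk m) = Submodule.Quotient.mk (g.c i m) := rfl

end Gr

end Pool.Agent.Helper22.Grad
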