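import Pool.Agent.Helper22.GradLocal

/-!
Decomposition of graded modules into graded-indecomposables.
-/

set_option autoImplicit false

namespace Pool.Agent.Helper22.Grad

open Function

universe v u

variable {S : Type v} [Ring S] {𝒮 : RGr S}

/-- `M` is a finite direct sum of graded-indecomposable modules (weak form: identity is a sum of
degree zero maps factoring through graded-indecomposables of finite length). -/
def Good {M : Type u} [AddCommGroup M] [Module S M] (g : Gr 𝒮 M) : Prop :=
  ∃ (κ : Type) (_ : Fintype κ) (V : κ → Obj.{v, u} 𝒮) (ι : ∀ a, (V a).X →ₗ[S] M)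
    (p : ∀ a, M →ₗ[S] (V a).X),
    (∀ a, (V a).gr.HomD g 0 (ι a)) ∧ (∀ a, g.HomD (V a).gr 0 (p a)) ∧
    (∀ m, ∑ a, ι a (p a m) = m) ∧ (∀ a, (V a).gr.Indec) ∧
    (∀ a, IsArtinian S (V a).X ∧ IsNoetherian S (V a).X)

theorem good_of_length (n : ℕ) : ∀ (M : Type u) [AddCommGroup M] [Module S M] [IsArtinian S M]
    [IsNoetherian S M] (g : Gr 𝒮 M), Module.length S M ≤ n → Good g := by
  induction n with
  | zero =>
    intro M _ _ _ _ g hM
    have h0 : Module.length S M = 0 := by simpa using hM
    rw [Module.length_eq_zero_iff] at h0
    refine ⟨Empty, inferInstance, fun a => a.elim, fun a => a.elim, fun a => a.elim,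
      fun a => a.elim, fun a => a.elim, fun m => Subsingleton.elim _ _, fun a => a.elim,
      fun a => a.elim⟩
  | succ n ih =>
    intro M _ _ _ _ g hM
    rcases subsingleton_or_nontrivial M with h0 | hnt
    · refine ⟨Empty, inferInstance, fun a => a.elim, fun a => a.elim, fun a => a.elim,
        fun a => a.elim, fun a => a.elim, fun m => Subsingleton.elim _ _, fun a => a.elim,
        fun a => a.elim⟩
    by_cases hind : g.Indec
    · refine ⟨Unit, inferInstance, fun _ => ⟨M, g⟩, fun _ => LinearMap.id, fun _ => LinearMap.id,
        fun _ i m => by simp, fun _ i m => by simp, fun m => by simp, fun _ => hind,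
        fun _ => ⟨inferInstance, inferInstance⟩⟩
    · unfold Gr.Indec at hind
      push Not at hind
      obtain ⟨A, B, hA, hB, hAB, hA0, hB0⟩ := hind hnt
      have hAtop : A ≠ ⊤ := by
        rintro rfl
        exact hB0 (by simpa using hAB.inf_eq_bot)
      have hBtop : B ≠ ⊤ := by
        rintro rfl
        exact hA0 (by simpa using hAB.inf_eq_bot)
      have hlA : Module.length S A ≤ n := by
        have := (Submodule.length_lt hAtop).trans_le hM
        push_cast at this
        exact (ENat.lt_add_one_iff (by simp)).mp this
      have hlB : Module.length S B ≤ n := by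
        have := (Submodule.length_lt hBtop).trans_le hM
        push_cast at this
        exact (ENat.lt_add_one_iff (by simp)).mp this
      obtain ⟨κ₁, _, V₁, ι₁, p₁, h11, h12, h13, h14, h15⟩ := ih A (g.sub hA) hlA
      obtain ⟨κ₂, _, V₂, ι₂, p₂, h21, h22, h23, h24, h25⟩ := ih B (g.sub hB) hlB
      let qA := A.projectionOnto B hAB
      let qB := B.projectionOnto A hAB.symm
      have hq : ∀ m, (qA m : M) + qB m = m := by
        intro m
        have := Submodule.projection_add_projection_eq_self hAB m
        exact this
      have hqA : g.HomD (g.sub hA) 0 qA := by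
        intro i m
        have h1 : qA (g.c i m) = qA (g.c i (qA m)) + qA (g.c i (qB m)) := by
          rw [← map_add, ← map_add, hq]
        have h2 : qA (g.c i (qB m)) = 0 := by
          apply Submodule.projectionOnto_apply_of_mem_right
          exact hB i _ (qB m).2
        have h3 : qA (g.c i (qA m)) = ⟨g.c i (qA m), hA i _ (qA m).2⟩ :=
          Submodule.projectionOnto_apply_of_mem_left hAB (hA i _ (qA m).2)
        rw [h1, h2, h3, add_zero, add_zero]
        rfl
      have hqB : g.HomD (g.sub hB) 0 qB := by
        intro i m
        have h1 : qB (g.c i m) = qB (g.c i (qA m)) + qB (g.c i (qB m)) := by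
          rw [← map_add, ← map_add, hq]
        have h2 : qB (g.c i (qA m)) = 0 := by
          apply Submodule.projectionOnto_apply_of_mem_right
          exact hA i _ (qA m).2
        have h3 : qB (g.c i (qB m)) = ⟨g.c i (qB m), hB i _ (qB m).2⟩ :=
          Submodule.projectionOnto_apply_of_mem_left hAB.symm (hB i _ (qB m).2)
        rw [h1, h2, h3, zero_add, add_zero]
        rfl
      refine ⟨κ₁ ⊕ κ₂, inferInstance, Sum.elim V₁ V₂,
        fun a => match a with
          | Sum.inl a => A.subtype ∘ₗ ι₁ a
          | Sum.inr a => B.subtype ∘ₗ ι₂ a,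
        fun a => match a with
          | Sum.inl a => p₁ a ∘ₗ qA
          | Sum.inr a => p₂ a ∘ₗ qB, ?_, ?_, ?_, ?_, ?_⟩
      · rintro (a | a) i m
        · exact congrArg Subtype.val (h11 a i m)
        · exact congrArg Subtype.val (h21 a i m)
      · rintro (a | a) i m
        · have := hqA i m
          change p₁ a (qA (g.c i m)) = _
          rw [this, h12, add_zero, add_zero]
          rfl
        · have := hqB i m
          change p₂ a (qB (g.c i m)) = _
          rw [this, h22, add_zero, add_zero]
          rfl
      · intro m
        rw [Fintype.sum_sum_type]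
        conv_rhs => rw [← hq m, ← h13 (qA m), ← h23 (qB m)]
        rw [AddSubmonoidClass.coe_finsetSum, AddSubmonoidClass.coe_finsetSum]
        rfl
      · rintro (a | a)
        · exact h14 a
        · exact h24 a
      · rintro (a | a)
        · exact h15 a
        · exact h25 a

theorem good_of_finiteLength (M : Type u) [AddCommGroup M] [Module S M] [IsArtinian S M]
    [IsNoetherian S M] (g : Gr 𝒮 M) : Good g := by
  apply good_of_length (Module.length S M).toNat M g
  rw [ENat.natCast_toNat Module.length_ne_top]

end Pool.Agent.Helper22.Grad
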