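import Pool.Agent.Helper22.GradBasic

/-!
Finite length graded modules over a graded artinian ring have finite support.
-/

set_option autoImplicit false

namespace Pool.Agent.Helper22.Grad

open Function

variable {S : Type*} [Ring S] {𝒮 : RGr S} {M : Type*} [AddCommGroup M] [Module S M]

namespace Gr

theorem homD_sub_c {N : Type*} [AddCommGroup N] [Module S N] {g : Gr 𝒮 M} {h : Gr 𝒮 N} {d : ℤ}
    {f : M →ₗ[S] N} (hf : g.HomD h d f) (k : ℤ) (m : M) : h.c k (f m) = f (g.c (k - d) m) := by
  rw [hf, sub_add_cancel]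

theorem homD_pow {g : Gr 𝒮 M} {d : ℤ} {f : M →ₗ[S] M} (hf : g.HomD g d f) (n : ℕ) :
    g.HomD g (n * d) (f ^ n) := by
  induction n with
  | zero => intro i m; simp
  | succ n ih =>
    intro i m
    rw [pow_succ', Module.End.mul_apply, Module.End.mul_apply, ih, hf]
    congr 2
    push_cast
    ring

theorem exists_shift_zero (g : Gr 𝒮 M) {d : ℤ} (hd : d ≠ 0) (m : M) (i : ℤ) :
    ∃ n : ℕ, g.c (i + n * d) m = 0 := by
  by_contra h
  push Not at h
  have : Set.Infinite {i | g.c i m ≠ 0} := by
    refine Set.infinite_of_injective_forall_mem (f := fun n : ℕ => i + n * d) ?_ h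
    intro a b hab
    simp only [add_right_inj, mul_eq_mul_right_iff, Nat.cast_inj, hd, or_false] at hab
    exact hab
  exact this (g.fin m)

theorem subsingleton_of_surj_shift [IsArtinian S M] [IsNoetherian S M] (g : Gr 𝒮 M) (d : ℤ)
    (hd : d ≠ 0) (φ : M →ₗ[S] M) (hφ : g.HomD g d φ) (hs : Surjective φ) : Subsingleton M := by
  -- `1 - φ` is injective
  have hinj : Injective (LinearMap.id - φ : M →ₗ[S] M) := by
    rw [injective_iff_map_eq_zero]
    intro m hm
    have hm' : φ m = m := by
      simp only [LinearMap.sub_apply, LinearMap.id_coe, id_eq, sub_eq_zero] at hm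
      exact hm.symm
    apply g.ext_c
    intro i
    rw [map_zero]
    obtain ⟨n, hn⟩ := g.exists_shift_zero (neg_ne_zero.mpr hd) m i
    have key : ∀ n : ℕ, g.c i m = (φ ^ n) (g.c (i + n * (-d)) m) := by
      intro n
      have h1 := homD_pow hφ n (i + n * (-d)) m
      have h2 : (φ ^ n) m = m := by
        induction n with
        | zero => simp
        | succ n ih => rw [pow_succ, Module.End.mul_apply, hm', ih]
                       exact homD_pow hφ n _ _
      rw [h1, h2]
      congr 1
      congr 1
      ring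
    rw [key n, hn, map_zero]
  have hsurj : Surjective (LinearMap.id - φ : M →ₗ[S] M) :=
    IsArtinian.surjective_of_injective_endomorphism _ hinj
  have hloc : ∀ m : M, ∃ n : ℕ, (φ ^ n) m = 0 := by
    intro m
    induction m using g.toDec.induction with
    | h0 => exact ⟨0, map_zero _⟩
    | hadd x y hx hy =>
      obtain ⟨a, ha⟩ := hx
      obtain ⟨b, hb⟩ := hy
      refine ⟨a + b, ?_⟩
      rw [map_add]
      have h1 : (φ ^ (a + b)) x = 0 := by
        rw [add_comm, pow_add, Module.End.mul_apply, ha, map_zero]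
      have h2 : (φ ^ (a + b)) y = 0 := by
        rw [pow_add, Module.End.mul_apply, hb, map_zero]
      rw [h1, h2, add_zero]
    | hhom i m =>
      obtain ⟨y, hy⟩ := hsurj (g.c i m)
      simp only [LinearMap.sub_apply, LinearMap.id_coe, id_eq] at hy
      have hrec : ∀ k, k ≠ i → g.c k y = φ (g.c (k - d) y) := by
        intro k hk
        have h1 : g.c k (y - φ y) = 0 := by rw [hy, g.orth _ _ _ hk]
        rw [map_sub, homD_sub_c hφ, sub_eq_zero] at h1
        exact h1
      have hi : g.c i y = g.c i m + φ (g.c (i - d) y) := by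
        have h1 : g.c i (y - φ y) = g.c i m := by rw [hy, g.idem]
        rw [map_sub, homD_sub_c hφ, sub_eq_iff_eq_add] at h1
        exact h1
      -- lower part vanishes
      have hlow : ∀ n : ℕ, g.c (i - d) y = (φ ^ n) (g.c ((i - d) + n * (-d)) y) := by
        intro n
        induction n with
        | zero => simp
        | succ n ih =>
          rw [ih, hrec, pow_succ, Module.End.mul_apply]
          · congr 4
            push_cast; ring
          · intro h
            have : ((n : ℤ) + 1) * d = 0 := by linarith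
            rcases mul_eq_zero.mp this with h1 | h1
            · omega
            · exact hd h1
      have h0 : g.c (i - d) y = 0 := by
        obtain ⟨n, hn⟩ := g.exists_shift_zero (neg_ne_zero.mpr hd) y (i - d)
        rw [hlow n, hn, map_zero]
      rw [h0, map_zero, add_zero] at hi
      have hup : ∀ n : ℕ, g.c (i + n * d) y = (φ ^ n) (g.c i m) := by
        intro n
        induction n with
        | zero => simpa using hi
        | succ n ih =>
          rw [hrec, pow_succ', Module.End.mul_apply, ← ih]
          · congr 3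
            push_cast; ring
          · intro h
            have : ((n : ℤ) + 1) * d = 0 := by push_cast at h; linarith
            rcases mul_eq_zero.mp this with h1 | h1
            · omega
            · exact hd h1
      obtain ⟨n, hn⟩ := g.exists_shift_zero hd y i
      exact ⟨n, by rw [← hup n, hn]⟩
  -- `φ` is nilpotent
  have hmono : ∃ n : ℕ, ∀ k, n ≤ k → LinearMap.ker (φ ^ n) = LinearMap.ker (φ ^ k) := by
    obtain ⟨n, hn⟩ := monotone_stabilizes_iff_noetherian.mpr ‹IsNoetherian S M›
      ⟨fun n => LinearMap.ker (φ ^ n), by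
        intro a b hab x hx
        rw [LinearMap.mem_ker] at hx ⊢
        obtain ⟨c, rfl⟩ := Nat.exists_eq_add_of_le hab
        rw [add_comm, pow_add, Module.End.mul_apply, hx, map_zero]⟩
    exact ⟨n, hn⟩
  obtain ⟨n, hn⟩ := hmono
  have hz : ∀ m, (φ ^ n) m = 0 := by
    intro m
    obtain ⟨k, hk⟩ := hloc m
    rcases le_total n k with h | h
    · have : m ∈ LinearMap.ker (φ ^ n) := by rw [hn k h]; exact hk
      exact this
    · obtain ⟨c, rfl⟩ := Nat.exists_eq_add_of_le h
      rw [add_comm, pow_add, Module.End.mul_apply, hk, map_zero]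
  have hsn : Surjective (φ ^ n) := by
    clear hn hz
    induction n with
    | zero => exact fun m => ⟨m, rfl⟩
    | succ n ih =>
      intro m
      obtain ⟨m1, rfl⟩ := hs m
      obtain ⟨m2, rfl⟩ := ih m1
      exact ⟨m2, by rw [pow_succ', Module.End.mul_apply]⟩
  refine ⟨fun a b => ?_⟩
  obtain ⟨a, rfl⟩ := hsn a
  obtain ⟨b, rfl⟩ := hsn b
  rw [hz, hz]

/-- The left ideal of elements killing `x i` for `i < k`. -/
def annK (x : ℕ → M) (k : ℕ) : Submodule S S where
  carrier := {s | ∀ i < k, s • x i = 0}
  add_mem' := by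
    intro a b ha hb i hi
    rw [add_smul, ha i hi, hb i hi, add_zero]
  zero_mem' := by
    intro i _
    rw [zero_smul]
  smul_mem' := by
    intro c a ha i hi
    rw [smul_eq_mul, mul_smul, ha i hi, smul_zero]

theorem mem_annK {x : ℕ → M} {k : ℕ} {s : S} : s ∈ annK x k ↔ ∀ i < k, s • x i = 0 := Iff.rfl

/-- If `x` is homogeneous of degree `e` then the degree `e + j` part of `s • x` is `s_j • x`. -/
theorem c_smul_homog (g : Gr 𝒮 M) {x : M} {e : ℤ} (hx : g.c e x = x) (k : ℤ) (s : S) :
    g.c k (s • x) = 𝒮.c (k - e) s • x := by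
  conv_lhs => rw [← hx]
  rw [g.c_smul_of_hom, hx]

theorem annK_homog (g : Gr 𝒮 M) (x : ℕ → M) (d : ℕ → ℤ) (hx : ∀ i, g.c (d i) (x i) = x i) (k : ℕ)
    (j : ℤ) (s : S) (hs : s ∈ annK x k) : 𝒮.c j s ∈ annK x k := by
  intro i hi
  have h := g.c_smul_homog (hx i) (j + d i) s
  rw [hs i hi, map_zero, add_sub_cancel_right] at h
  exact h.symm

/-- A graded module all whose homogeneous submodules are trivial. -/
def GrSimple (g : Gr 𝒮 M) : Prop := ∀ N : Submodule S M, g.Hmg N → N = ⊥ ∨ N = ⊤

theorem finite_support_of_simple [IsArtinianRing S] [IsArtinian S M] [IsNoetherian S M]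
    (g : Gr 𝒮 M) (hg : g.GrSimple) : {i | ∃ m, g.c i m ≠ 0}.Finite := by
  by_contra hinf
  have hinf : Set.Infinite {i | ∃ m, g.c i m ≠ 0} := hinf
  let d : ℕ → ℤ := fun n => (hinf.natEmbedding _ n : ℤ)
  have hdinj : Injective d := fun a b h => (hinf.natEmbedding _).injective (Subtype.ext h)
  have hd : ∀ n, ∃ m, g.c (d n) m ≠ 0 := fun n => (hinf.natEmbedding _ n).2
  choose y hy using hd
  let x : ℕ → M := fun n => g.c (d n) (y n)
  have hx : ∀ n, g.c (d n) (x n) = x n := fun n => g.idem _ _
  have hx0 : ∀ n, x n ≠ 0 := hy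
  -- stabilisation
  obtain ⟨n, hn⟩ := IsArtinian.monotone_stabilizes (R := S) (M := S)
    ⟨fun k => OrderDual.toDual (annK x k), by
      intro a b hab s hs i hi
      exact hs i (lt_of_lt_of_le hi hab)⟩
  have hn' : annK x n = annK x (n + 1) := hn (n + 1) (Nat.le_succ n)
  -- minimal `m` such that `annK x m` kills `x n`
  have hex : ∃ m, ∀ s ∈ annK x m, s • x n = 0 := ⟨n, by
    intro s hs
    rw [hn'] at hs
    exact hs n (Nat.lt_succ_self n)⟩
  classical
  have hmin := Nat.find_spec hex
  have hle : Nat.find hex ≤ n := Nat.find_min' hex (by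
    intro s hs
    rw [hn'] at hs
    exact hs n (Nat.lt_succ_self n))
  rcases Nat.eq_zero_or_eq_succ_pred (Nat.find hex) with h0 | hsucc
  · rw [h0] at hmin
    apply hx0 n
    have := hmin 1 (by intro i hi; omega)
    rwa [one_smul] at this
  · set m' := (Nat.find hex).pred with hm'
    have hm'lt : m' < n := by omega
    have hnot : ¬ ∀ s ∈ annK x m', s • x n = 0 := Nat.find_min hex (by omega)
    let α : annK x m' →ₗ[S] M := (LinearMap.toSpanSingleton S M (x m')).comp (annK x m').subtype
    let β : annK x m' →ₗ[S] M := (LinearMap.toSpanSingleton S M (x n)).comp (annK x m').subtype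
    have hα : ∀ a, α a = (a : S) • x m' := fun a => rfl
    have hβ : ∀ a, β a = (a : S) • x n := fun a => rfl
    have hker : LinearMap.ker α ≤ LinearMap.ker β := by
      intro a ha
      rw [LinearMap.mem_ker, hα] at ha
      rw [LinearMap.mem_ker, hβ]
      apply hmin
      rw [hsucc]
      intro i hi
      rcases Nat.lt_succ_iff_lt_or_eq.mp hi with h | h
      · exact a.2 i h
      · rw [h]; exact ha
    have hrange : ∀ k (γ : annK (S := S) x m' →ₗ[S] M),
        (∀ a : annK (S := S) x m', γ a = (a : S) • x k) →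
        g.Hmg (LinearMap.range γ) := by
      rintro k γ hγ i _ ⟨a, rfl⟩
      refine ⟨⟨𝒮.c (i - d k) (a : S), g.annK_homog x d hx _ _ _ a.2⟩, ?_⟩
      rw [hγ, hγ, g.c_smul_homog (hx k)]
    have hβtop : LinearMap.range β = ⊤ := by
      rcases hg _ (hrange n β hβ) with h | h
      · exfalso
        apply hnot
        intro s hs
        have : β ⟨s, hs⟩ ∈ LinearMap.range β := ⟨_, rfl⟩
        rw [h] at this
        exact this
      · exact h
    have hαtop : LinearMap.range α = ⊤ := by
      rcases hg _ (hrange m' α hα) with h | h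
      · exfalso
        apply hnot
        intro s hs
        have h1 : (⟨s, hs⟩ : annK x m') ∈ LinearMap.ker α := by
          rw [LinearMap.mem_ker]
          have : α ⟨s, hs⟩ ∈ LinearMap.range α := ⟨_, rfl⟩
          rw [h] at this
          exact this
        exact hker h1
      · exact h
    have hαs : Surjective α := LinearMap.range_eq_top.mp hαtop
    have hβs : Surjective β := LinearMap.range_eq_top.mp hβtop
    let φ : M →ₗ[S] M := ((LinearMap.ker α).liftQ β hker).comp
      (α.quotKerEquivOfSurjective hαs).symm.toLinearMap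
    have hφ : ∀ a, φ (α a) = β a := by
      intro a
      have : (α.quotKerEquivOfSurjective hαs).symm (α a) = Submodule.Quotient.mk a := by
        rw [LinearEquiv.symm_apply_eq]
        rfl
      change ((LinearMap.ker α).liftQ β hker) ((α.quotKerEquivOfSurjective hαs).symm (α a)) = _
      rw [this]
      rfl
    have hφs : Surjective φ := by
      intro m
      obtain ⟨a, rfl⟩ := hβs m
      exact ⟨α a, hφ a⟩
    have hφd : g.HomD g (d n - d m') φ := by
      intro i m
      obtain ⟨a, rfl⟩ := hαs m
      rw [hφ, hβ, g.c_smul_homog (hx n), hα, g.c_smul_homog (hx m')]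
      have h1 : 𝒮.c (i - d m') (a : S) • x m' =
          α ⟨𝒮.c (i - d m') (a : S), g.annK_homog x d hx _ _ _ a.2⟩ := rfl
      rw [h1, hφ, hβ, show i + (d n - d m') - d n = i - d m' by ring]
    have := g.subsingleton_of_surj_shift (d n - d m') (by
      intro h
      have := hdinj (sub_eq_zero.mp h)
      omega) φ hφd hφs
    exact hx0 0 (Subsingleton.elim _ _)

/-- Finite length graded modules over a graded left artinian ring have finite support. -/
theorem finite_support [IsArtinianRing S] [IsArtinian S M] [IsNoetherian S M]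
    (g : Gr 𝒮 M) : {i | ∃ m, g.c i m ≠ 0}.Finite := by
  let F : Set (Submodule S M) := {N | g.Hmg N ∧ {i | ∃ m ∈ N, g.c i m ≠ 0}.Finite}
  have hF : F.Nonempty := ⟨⊥, by
    constructor
    · intro i m hm
      rw [Submodule.mem_bot] at hm ⊢
      rw [hm, map_zero]
    · convert Set.finite_empty (α := ℤ)
      ext i
      simp⟩
  obtain ⟨N, hN, hmax⟩ := set_has_maximal_iff_noetherian.mpr ‹IsNoetherian S M› F hF
  obtain ⟨hNh, hNf⟩ := hN
  by_cases htop : N = ⊤
  · subst htop
    refine hNf.subset ?_
    rintro i ⟨m, hm⟩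
    exact ⟨m, trivial, hm⟩
  exfalso
  let Q := M ⧸ N
  let q : Gr 𝒮 (M ⧸ N) := g.quot hNh
  let H : Set (Submodule S (M ⧸ N)) := {P | q.Hmg P ∧ P ≠ ⊥}
  have hH : H.Nonempty := ⟨⊤, fun _ _ _ => trivial, by
    intro h
    apply htop
    rw [eq_top_iff]
    intro m _
    have h1 : N.mkQ m ∈ (⊤ : Submodule S (M ⧸ N)) := trivial
    rw [h, Submodule.mem_bot, Submodule.mkQ_apply, Submodule.Quotient.mk_eq_zero] at h1
    exact h1⟩
  obtain ⟨P, ⟨hPh, hP0⟩, hPmin⟩ := IsArtinian.set_has_minimal H hH
  have hsimple : (q.sub hPh).GrSimple := by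
    intro K hK
    by_cases hK0 : K = ⊥
    · exact Or.inl hK0
    right
    have hmem : K.map P.subtype ∈ H := by
      constructor
      · rintro i _ ⟨m, hm, rfl⟩
        exact ⟨_, hK i m hm, rfl⟩
      · intro h
        apply hK0
        rw [eq_bot_iff]
        intro z hz
        have h1 : (z : M ⧸ N) ∈ K.map P.subtype := ⟨z, hz, rfl⟩
        rw [h, Submodule.mem_bot] at h1
        rw [Submodule.mem_bot]
        exact Subtype.ext h1
    have h1 := hPmin _ hmem
    have h2 : K.map P.subtype ≤ P := Submodule.map_subtype_le P K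
    have h3 : K.map P.subtype = P := by
      by_contra hne
      exact h1 (lt_of_le_of_ne h2 hne)
    rw [eq_top_iff]
    intro z _
    have hz : (z : M ⧸ N) ∈ K.map P.subtype := by rw [h3]; exact z.2
    obtain ⟨w, hw, hwz⟩ := hz
    have : w = z := Subtype.ext hwz
    rw [← this]; exact hw
  have hPf := (q.sub hPh).finite_support_of_simple hsimple
  let N' : Submodule S M := P.comap N.mkQ
  have hN'F : N' ∈ F := by
    constructor
    · intro i m hm
      exact hPh i _ hm
    · refine (hPf.union hNf).subset ?_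
      rintro i ⟨m, hm, hi⟩
      by_cases hi2 : ∃ m, (q.sub hPh).c i m ≠ 0
      · exact Or.inl hi2
      · right
        push Not at hi2
        refine ⟨g.c i m, ?_, by rwa [g.idem]⟩
        have h1 := hi2 ⟨N.mkQ m, hm⟩
        have h2 : q.c i (N.mkQ m) = 0 := congrArg Subtype.val h1
        have h3 : N.mkQ (g.c i m) = 0 := h2
        rwa [Submodule.mkQ_apply, Submodule.Quotient.mk_eq_zero] at h3
  apply hmax N' hN'F
  refine lt_of_le_of_ne ?_ ?_
  · intro m hm
    change N.mkQ m ∈ P
    rw [Submodule.mkQ_apply, (Submodule.Quotient.mk_eq_zero N).mpr hm]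
    exact zero_mem _
  · intro h
    apply hP0
    rw [eq_bot_iff]
    intro z hz
    obtain ⟨m, rfl⟩ := N.mkQ_surjective z
    have : m ∈ N := by rw [h]; exact hz
    rw [Submodule.mem_bot, Submodule.mkQ_apply, (Submodule.Quotient.mk_eq_zero N).mpr this]

end Gr

end Pool.Agent.Helper22.Grad
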