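import Pool.Agent.Helper22.GradFin

/-!
Homogeneous components of linear maps, the Harada-Sai argument, local endomorphism rings.
-/

set_option autoImplicit false

namespace Pool.Agent.Helper22.Grad

open Function

universe v u

variable {S : Type v} [Ring S] {𝒮 : RGr S}

namespace Gr

section comp

variable {M N P : Type*} [AddCommGroup M] [Module S M] [AddCommGroup N] [Module S N]
  [AddCommGroup P] [Module S P]

theorem comp_support (g : Gr 𝒮 M) (h : Gr 𝒮 N) (d : ℤ) (φ : M →ₗ[S] N) (m : M) :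
    (support fun i => h.c (i + d) (φ (g.c i m))).Finite := by
  refine (g.fin m).subset ?_
  intro i hi h0
  apply hi
  change h.c (i + d) (φ (g.c i m)) = 0
  rw [h0, map_zero, map_zero]

/-- degree `d` component of a linear map -/
noncomputable def comp (g : Gr 𝒮 M) (h : Gr 𝒮 N) (d : ℤ) (φ : M →ₗ[S] N) : M →ₗ[S] N where
  toFun m := ∑ᶠ i, h.c (i + d) (φ (g.c i m))
  map_add' m m' := by
    rw [← finsum_add_distrib (comp_support g h d φ m) (comp_support g h d φ m')]
    refine finsum_congr fun i => ?_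
    rw [map_add, map_add, map_add]
  map_smul' s m := by
    simp only [RingHom.id_apply]
    induction s using 𝒮.toDec.induction with
    | h0 => simp
    | hadd x y hx hy =>
      rw [add_smul, add_smul, ← hx, ← hy,
        ← finsum_add_distrib (comp_support g h d φ _) (comp_support g h d φ _)]
      refine finsum_congr fun i => ?_
      rw [map_add, map_add, map_add]
    | hhom j s =>
      have h1 : ∀ i, h.c (i + d) (φ (g.c i (𝒮.c j s • m))) =
          𝒮.c j s • h.c ((i - j) + d) (φ (g.c (i - j) m)) := by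
        intro i
        rw [g.c_smul_hom, map_smul, h.c_smul_hom, show i + d - j = (i - j) + d by ring]
      rw [finsum_congr h1]
      have h2 := (DistribSMul.toAddMonoidHom N (𝒮.c j s)).map_finsum (comp_support g h d φ m)
      change 𝒮.c j s • (∑ᶠ i, h.c (i + d) (φ (g.c i m))) = _ at h2
      rw [h2]
      exact finsum_comp_equiv (Equiv.subRight j)
        (f := fun i : ℤ => (𝒮.c j s • h.c (i + d) (φ (g.c i m)) : N))

theorem comp_apply (g : Gr 𝒮 M) (h : Gr 𝒮 N) (d : ℤ) (φ : M →ₗ[S] N) (m : M) :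
    comp g h d φ m = ∑ᶠ i, h.c (i + d) (φ (g.c i m)) := rfl

theorem comp_c (g : Gr 𝒮 M) (h : Gr 𝒮 N) (d : ℤ) (φ : M →ₗ[S] N) (k : ℤ) (m : M) :
    comp g h d φ (g.c k m) = h.c (k + d) (φ (g.c k m)) := by
  rw [comp_apply, finsum_eq_single _ k, g.idem]
  intro j hj
  rw [g.orth _ _ _ hj, map_zero, map_zero]

theorem comp_hom (g : Gr 𝒮 M) (h : Gr 𝒮 N) (d : ℤ) (φ : M →ₗ[S] N) :
    g.HomD h d (comp g h d φ) := by
  intro k m
  rw [comp_c, comp_apply]
  rw [(h.c (k + d)).map_finsum (comp_support g h d φ m), finsum_eq_single _ k, h.idem]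
  intro j hj
  rw [h.orth]
  omega

theorem homD_ext (g : Gr 𝒮 M) {φ ψ : M →ₗ[S] N} (h : ∀ k m, φ (g.c k m) = ψ (g.c k m)) :
    φ = ψ := by
  ext m
  induction m using g.toDec.induction with
  | h0 => simp
  | hadd x y hx hy => rw [map_add, map_add, hx, hy]
  | hhom i m => exact h i m

theorem comp_add (g : Gr 𝒮 M) (h : Gr 𝒮 N) (d : ℤ) (φ ψ : M →ₗ[S] N) :
    comp g h d (φ + ψ) = comp g h d φ + comp g h d ψ := by
  apply g.homD_ext
  intro k m
  rw [comp_c, LinearMap.add_apply, LinearMap.add_apply, comp_c, comp_c, map_add]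

theorem comp_id (g : Gr 𝒮 M) : comp g g 0 LinearMap.id = LinearMap.id := by
  apply g.homD_ext
  intro k m
  rw [comp_c, LinearMap.id_apply, add_zero, g.idem]

theorem comp_comp_left (g : Gr 𝒮 M) (h : Gr 𝒮 N) (p : Gr 𝒮 P) (d : ℤ) (φ : M →ₗ[S] N)
    (ψ : N →ₗ[S] P) (hψ : h.HomD p 0 ψ) : comp g p d (ψ ∘ₗ φ) = ψ ∘ₗ comp g h d φ := by
  apply g.homD_ext
  intro k m
  rw [comp_c, LinearMap.comp_apply, LinearMap.comp_apply, comp_c, hψ, add_zero]

theorem comp_comp_right (g : Gr 𝒮 M) (h : Gr 𝒮 N) (p : Gr 𝒮 P) (d : ℤ) (φ : M →ₗ[S] N)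
    (ψ : N →ₗ[S] P) (hφ : g.HomD h 0 φ) : comp g p d (ψ ∘ₗ φ) = comp h p d ψ ∘ₗ φ := by
  apply g.homD_ext
  intro k m
  rw [comp_c, LinearMap.comp_apply, LinearMap.comp_apply, hφ, comp_c, add_zero]

/-- bounded support -/
def Bdd (g : Gr 𝒮 M) (s : ℕ) : Prop := ∀ i m, (s : ℤ) < |i| → g.c i m = 0

theorem exists_bdd [IsArtinianRing S] [IsArtinian S M] [IsNoetherian S M] (g : Gr 𝒮 M) :
    ∃ s, g.Bdd s := by
  obtain ⟨B, hB⟩ := (g.finite_support.image (fun i => |i|)).bddAbove
  refine ⟨B.toNat, fun i m hi => ?_⟩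
  by_contra h
  have h1 : |i| ≤ B := hB ⟨i, ⟨m, h⟩, rfl⟩
  have h2 := Int.self_le_toNat B
  omega

theorem Bdd.mono {g : Gr 𝒮 M} {s t : ℕ} (h : g.Bdd s) (hst : s ≤ t) : g.Bdd t :=
  fun i m hi => h i m (lt_of_le_of_lt (by exact_mod_cast hst) hi)

theorem eq_sum_comp (g : Gr 𝒮 M) (h : Gr 𝒮 N) {s : ℕ} (hg : g.Bdd s) (hh : h.Bdd s)
    (φ : M →ₗ[S] N) : φ = ∑ d ∈ Finset.Icc (-(2 * s : ℤ)) (2 * s), comp g h d φ := by
  apply g.homD_ext
  intro k m
  rw [LinearMap.sum_apply]
  by_cases hk : (s : ℤ) < |k|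
  · rw [hg k m hk]
    simp
  · have h1 : ∀ d, comp g h d φ (g.c k m) = h.c (k + d) (φ (g.c k m)) := fun d => comp_c g h d φ k m
    rw [Finset.sum_congr rfl fun d _ => h1 d]
    have h2 := h.sum_finset (φ (g.c k m))
      ((Finset.Icc (-(2 * s : ℤ)) (2 * s)).map ⟨fun d => k + d, fun a b hab => by simpa using hab⟩) ?_
    · rw [Finset.sum_map] at h2
      exact h2.symm
    · intro i hi
      apply hh
      by_contra h3
      apply hi
      rw [Finset.mem_map]
      refine ⟨i - k, ?_, by change k + (i - k) = i; ring⟩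
      rw [Finset.mem_Icc]
      rw [not_lt, abs_le] at hk h3
      constructor <;> omega

end comp

end Gr

section len

variable {M N : Type*} [AddCommGroup M] [Module S M] [AddCommGroup N] [Module S N]

theorem inj_of_len (f : M →ₗ[S] N) (hs : Surjective f) (hl : Module.length S M ≤ Module.length S N)
    (hfin : Module.length S N ≠ ⊤) : Injective f := by
  have h := Module.length_eq_add_of_exact (LinearMap.ker f).subtype f
    (Submodule.subtype_injective _) hs (LinearMap.exact_subtype_ker_map f)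
  rw [h] at hl
  have h0 : Module.length S (LinearMap.ker f) = 0 := by
    by_contra hne
    have h1 : 0 < Module.length S (LinearMap.ker f) := pos_iff_ne_zero.mpr hne
    have h2 : Module.length S N < Module.length S (LinearMap.ker f) + Module.length S N := by
      conv_lhs => rw [← zero_add (Module.length S N)]
      exact (ENat.add_lt_add_iff_right hfin).mpr h1
    exact absurd hl (not_le.mpr h2)
  rw [Module.length_eq_zero_iff] at h0
  rw [← LinearMap.ker_eq_bot, eq_bot_iff]
  intro x hx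
  have : (⟨x, hx⟩ : LinearMap.ker f) = 0 := Subsingleton.elim _ _
  rw [Submodule.mem_bot]
  exact congrArg Subtype.val this

theorem eq_of_len {A B : Submodule S M} (h : A ≤ B) (hl : Module.length S B ≤ Module.length S A)
    (hfin : Module.length S A ≠ ⊤) : A = B := by
  have h1 := Module.length_eq_add_of_exact (Submodule.inclusion h) (LinearMap.range (Submodule.inclusion h)).mkQ
    (Submodule.inclusion_injective h) (Submodule.mkQ_surjective _) (LinearMap.exact_map_mkQ_range _)
  rw [h1] at hl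
  have h0 : Module.length S (B ⧸ (LinearMap.range (Submodule.inclusion h))) = 0 := by
    by_contra hne
    have h1 := pos_iff_ne_zero.mpr hne
    have h2 : Module.length S A < Module.length S A +
        Module.length S (B ⧸ (LinearMap.range (Submodule.inclusion h))) := by
      conv_lhs => rw [← add_zero (Module.length S A)]
      exact (ENat.add_lt_add_iff_left hfin).mpr h1
    exact absurd hl (not_le.mpr h2)
  rw [Module.length_eq_zero_iff] at h0
  apply le_antisymm h
  intro x hx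
  have : (⟨x, hx⟩ : B) ∈ LinearMap.range (Submodule.inclusion h) := by
    rw [← Submodule.Quotient.mk_eq_zero]
    exact Subsingleton.elim _ _
  obtain ⟨y, hy⟩ := this
  have := congrArg Subtype.val hy
  change (y : M) = x at this
  rw [← this]; exact y.2

end len

/-- bundled graded modules -/
structure Obj (𝒮 : RGr S) where
  X : Type u
  [grp : AddCommGroup X]
  [mod : Module S X]
  gr : Gr 𝒮 X

attribute [instance] Obj.grp Obj.mod

/-- indecomposable as a graded module -/
def Gr.Indec {M : Type*} [AddCommGroup M] [Module S M] (g : Gr 𝒮 M) : Prop :=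
  Nontrivial M ∧ ∀ A B : Submodule S M, g.Hmg A → g.Hmg B → IsCompl A B → A = ⊥ ∨ B = ⊥

/-- Homogeneous non-isomorphisms. -/
def RH (V W : Obj.{v, u} 𝒮) (f : V.X →ₗ[S] W.X) : Prop :=
  (∃ d, V.gr.HomD W.gr d f) ∧ ¬ Bijective f

/-- `DD P k V W f`: `f` is of the form `h ∘ g ∘ f'` with `f', h` in level `k - 1` and
`g` a homogeneous non-isomorphism; intermediate objects satisfy `P`. -/
def DD (P : Obj.{v, u} 𝒮 → Prop) : ℕ → (V W : Obj.{v, u} 𝒮) → (V.X →ₗ[S] W.X) → Prop
  | 0, V, W, f => ∃ d, V.gr.HomD W.gr d f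
  | k + 1, V, W, f => ∃ (V₁ V₂ : Obj.{v, u} 𝒮) (f₁ : V.X →ₗ[S] V₁.X) (g : V₁.X →ₗ[S] V₂.X)
      (h : V₂.X →ₗ[S] W.X), P V₁ ∧ P V₂ ∧ DD P k V V₁ f₁ ∧ RH V₁ V₂ g ∧ DD P k V₂ W h ∧
        f = h ∘ₗ g ∘ₗ f₁

theorem homD_comp {V W U : Obj.{v, u} 𝒮} {f : V.X →ₗ[S] W.X} {g : W.X →ₗ[S] U.X}
    (hf : ∃ d, V.gr.HomD W.gr d f) (hg : ∃ d, W.gr.HomD U.gr d g) :
    ∃ d, V.gr.HomD U.gr d (g ∘ₗ f) := by
  obtain ⟨d, hd⟩ := hf
  obtain ⟨e, he⟩ := hg
  refine ⟨d + e, fun i m => ?_⟩
  rw [LinearMap.comp_apply, LinearMap.comp_apply, hd, he, add_assoc]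

theorem DD_homD (P : Obj.{v, u} 𝒮 → Prop) (k : ℕ) : ∀ (V W : Obj.{v, u} 𝒮) (f : V.X →ₗ[S] W.X),
    DD P k V W f → ∃ d, V.gr.HomD W.gr d f := by
  induction k with
  | zero => intro V W f hf; exact hf
  | succ k ih =>
    rintro V W f ⟨V₁, V₂, f₁, g, h, _, _, hf₁, hg, hh, rfl⟩
    exact homD_comp (homD_comp (ih _ _ _ hf₁) hg.1) (ih _ _ _ hh)

theorem hmg_ker {V W : Obj.{v, u} 𝒮} {f : V.X →ₗ[S] W.X} (hf : ∃ d, V.gr.HomD W.gr d f) :
    V.gr.Hmg (LinearMap.ker f) := by
  obtain ⟨d, hd⟩ := hf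
  intro i m hm
  rw [LinearMap.mem_ker] at hm ⊢
  rw [hd, hm, map_zero]

theorem hmg_range {V W : Obj.{v, u} 𝒮} {f : V.X →ₗ[S] W.X} (hf : ∃ d, V.gr.HomD W.gr d f) :
    W.gr.Hmg (LinearMap.range f) := by
  obtain ⟨d, hd⟩ := hf
  rintro i _ ⟨m, rfl⟩
  exact ⟨V.gr.c (i - d) m, by rw [hd, sub_add_cancel]⟩

/-- The Harada-Sai lemma. -/
theorem harada_sai (P : Obj.{v, u} 𝒮 → Prop) (b : ℕ)
    (hP : ∀ V, P V → V.gr.Indec ∧ Module.length S V.X ≤ b) (k : ℕ) :
    ∀ (V W : Obj.{v, u} 𝒮) (f : V.X →ₗ[S] W.X), P V → P W → DD P k V W f →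
      f = 0 ∨ Module.length S (LinearMap.range f) + k ≤ b := by
  induction k with
  | zero =>
    intro V W f _ hW _
    right
    rw [Nat.cast_zero, add_zero]
    exact (Module.length_le_of_injective (LinearMap.range f).subtype
      (Submodule.subtype_injective _)).trans (hP W hW).2
  | succ k ih =>
    rintro V W f hV hW ⟨V₁, V₂, f₁, g, h, hV₁, hV₂, hf₁, hg, hh, rfl⟩
    rcases ih _ _ _ hV hV₁ hf₁ with h0 | h1
    · left; rw [h0]; simp
    rcases ih _ _ _ hV₂ hW hh with h0 | h2
    · left; rw [h0]; simp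
    by_contra hcon
    push Not at hcon
    obtain ⟨hne, hlt⟩ := hcon
    set F := h ∘ₗ g ∘ₗ f₁ with hF
    set r := Module.length S (LinearMap.range F) with hr
    have hrfin : r ≠ ⊤ := by
      have : r ≤ b := (Module.length_le_of_injective (LinearMap.range F).subtype
        (Submodule.subtype_injective _)).trans (hP W hW).2
      intro h
      rw [h] at this
      exact absurd this (by simp)
    have hbr : (b : ℕ∞) ≤ r + k := by
      push_cast at hlt
      rw [← add_assoc] at hlt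
      exact ENat.lt_add_one_iff (by simpa using hrfin) |>.mp hlt
    -- lengths
    have hl1 : Module.length S (LinearMap.range f₁) ≤ r := by
      have := h1.trans hbr
      exact (ENat.add_le_add_iff_right (by simp)).mp this
    have hl2 : Module.length S (LinearMap.range h) ≤ r := by
      have := h2.trans hbr
      exact (ENat.add_le_add_iff_right (by simp)).mp this
    -- `h ∘ g` is injective on the range of `f₁`
    let e : LinearMap.range f₁ →ₗ[S] LinearMap.range F :=
      ((h ∘ₗ g) ∘ₗ (LinearMap.range f₁).subtype).codRestrict (LinearMap.range F) (by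
        rintro ⟨_, ⟨x, rfl⟩⟩
        exact ⟨x, rfl⟩)
    have hes : Surjective e := by
      rintro ⟨_, ⟨x, rfl⟩⟩
      exact ⟨⟨f₁ x, ⟨x, rfl⟩⟩, Subtype.ext rfl⟩
    have hei : Injective e := inj_of_len e hes hl1 hrfin
    have hrange : LinearMap.range F = LinearMap.range h := by
      apply eq_of_len _ hl2 hrfin
      rintro _ ⟨x, rfl⟩
      exact ⟨g (f₁ x), rfl⟩
    have hc1 : IsCompl (LinearMap.range f₁) (LinearMap.ker (h ∘ₗ g)) := by
      constructor
      · rw [Submodule.disjoint_def]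
        rintro x hx1 hx2
        have : e ⟨x, hx1⟩ = e 0 := by
          rw [map_zero]
          exact Subtype.ext hx2
        exact congrArg Subtype.val (hei this)
      · rw [codisjoint_iff, eq_top_iff]
        intro x _
        have : h (g x) ∈ LinearMap.range F := by rw [hrange]; exact ⟨_, rfl⟩
        obtain ⟨y, hy⟩ := this
        rw [Submodule.mem_sup]
        refine ⟨f₁ y, ⟨y, rfl⟩, x - f₁ y, ?_, by abel⟩
        rw [LinearMap.mem_ker, map_sub, sub_eq_zero]
        exact hy.symm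
    have hf₁' := DD_homD _ _ _ _ _ hf₁
    have hh' := DD_homD _ _ _ _ _ hh
    rcases (hP V₁ hV₁).1.2 _ _ (hmg_range hf₁') (hmg_ker (homD_comp hg.1 hh')) hc1 with h3 | h3
    · apply hne
      rw [LinearMap.range_eq_bot] at h3
      rw [hF, h3]; simp
    have hgi : Injective g := by
      rw [injective_iff_map_eq_zero]
      intro x hx
      have : x ∈ LinearMap.ker (h ∘ₗ g) := by
        rw [LinearMap.mem_ker, LinearMap.comp_apply, hx, map_zero]
      rwa [h3, Submodule.mem_bot] at this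
    have hc2 : IsCompl (LinearMap.range (g ∘ₗ f₁)) (LinearMap.ker h) := by
      constructor
      · rw [Submodule.disjoint_def]
        rintro _ ⟨x, rfl⟩ hx2
        have : f₁ x ∈ LinearMap.ker (h ∘ₗ g) := hx2
        rw [h3, Submodule.mem_bot] at this
        rw [LinearMap.comp_apply, this, map_zero]
      · rw [codisjoint_iff, eq_top_iff]
        intro x _
        have : h x ∈ LinearMap.range F := by rw [hrange]; exact ⟨_, rfl⟩
        obtain ⟨y, hy⟩ := this
        rw [Submodule.mem_sup]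
        refine ⟨g (f₁ y), ⟨y, rfl⟩, x - g (f₁ y), ?_, by abel⟩
        rw [LinearMap.mem_ker, map_sub, sub_eq_zero]
        exact hy.symm
    rcases (hP V₂ hV₂).1.2 _ _ (hmg_range (homD_comp hf₁' hg.1)) (hmg_ker hh') hc2 with h4 | h4
    · apply hne
      rw [LinearMap.range_eq_bot] at h4
      rw [hF, h4]; simp
    · rw [h4] at hc2
      have h5 : LinearMap.range (g ∘ₗ f₁) = ⊤ := by
        have := hc2.sup_eq_top
        simpa using this
      apply hg.2
      refine ⟨hgi, fun y => ?_⟩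
      have : y ∈ LinearMap.range (g ∘ₗ f₁) := by rw [h5]; trivial
      obtain ⟨x, rfl⟩ := this
      exact ⟨f₁ x, rfl⟩

end Pool.Agent.Helper22.Grad
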