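import Pool.Agent.Helper22.GradShift

/-!
The key lemma: non-split maps from graded modules to `Y` factor through radical maps.
-/

set_option autoImplicit false

namespace Pool.Agent.Helper22.Grad

open Function

set_option linter.unusedSectionVars false

universe v u

variable {S : Type v} [Ring S] (𝒮 : RGr S)

/-- the ring as graded module over itself -/
def selfGr : Gr 𝒮 S where
  toDec := 𝒮.toDec
  smul i j s m := 𝒮.mul i j s m

theorem ring_bdd [IsArtinianRing S] : ∃ m : ℕ, ∀ (i : ℤ) (s : S), (m : ℤ) < |i| → 𝒮.c i s = 0 := by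
  obtain ⟨m, hm⟩ := (selfGr 𝒮).exists_bdd
  exact ⟨m, hm⟩

variable {Y : Type u} [AddCommGroup Y] [Module S Y]

/-- window submodule of `G(Y)` generated by the elements of `T` in degrees `≤ n` in absolute value -/
noncomputable def win (T : Finset Y) (n : ℕ) : Submodule S (GM 𝒮 Y) :=
  Submodule.span S {g | ∃ i ∈ Finset.Icc (-(n : ℤ)) n, ∃ t ∈ T, g = sg 𝒮 i t}

theorem win_fg (T : Finset Y) (n : ℕ) : (win 𝒮 T n).FG := by
  refine Submodule.fg_def.mpr ⟨_, ?_, rfl⟩
  have : {g | ∃ i ∈ Finset.Icc (-(n : ℤ)) n, ∃ t ∈ T, g = sg 𝒮 i t} =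
      (fun p : ℤ × Y => sg 𝒮 p.1 p.2) '' ((Finset.Icc (-(n : ℤ)) n ×ˢ T : Finset (ℤ × Y)) : Set (ℤ × Y)) := by
    ext g
    simp only [Set.mem_image, Finset.mem_coe, Finset.mem_product, Prod.exists]
    constructor
    · rintro ⟨i, hi, t, ht, rfl⟩
      exact ⟨i, t, ⟨hi, ht⟩, rfl⟩
    · rintro ⟨i, t, ⟨hi, ht⟩, rfl⟩
      exact ⟨i, hi, t, ht, rfl⟩
  rw [this]
  exact (Finset.finite_toSet _).image _

theorem win_hmg (T : Finset Y) (n : ℕ) : (gmGr 𝒮 Y).Hmg (win 𝒮 T n) := by
  intro k g hg
  induction hg using Submodule.span_induction with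
  | zero => rw [map_zero]; exact zero_mem _
  | add x y _ _ hx hy => rw [map_add]; exact add_mem hx hy
  | mem g hg =>
    obtain ⟨i, hi, t, ht, rfl⟩ := hg
    by_cases h : k = i
    · subst h
      change gmc 𝒮 k (sg 𝒮 k t) ∈ _
      rw [gmc_sg_same]
      exact Submodule.subset_span ⟨k, hi, t, ht, rfl⟩
    · change gmc 𝒮 k (sg 𝒮 i t) ∈ _
      rw [gmc_sg_ne 𝒮 h]
      exact zero_mem _
  | smul s g hg ih =>
    -- reduce to homogeneous scalars
    clear ih
    induction s using 𝒮.toDec.induction generalizing k with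
    | h0 => rw [zero_smul, map_zero]; exact zero_mem _
    | hadd x y hx hy => rw [add_smul, map_add]; exact add_mem (hx k) (hy k)
    | hhom j s =>
      rw [Gr.c_smul_hom]
      apply Submodule.smul_mem
      revert k
      induction hg using Submodule.span_induction with
      | zero => intro k; rw [map_zero]; exact zero_mem _
      | add x y _ _ hx hy => intro k; rw [map_add]; exact add_mem (hx k) (hy k)
      | mem g hg =>
        intro k
        obtain ⟨i, hi, t, ht, rfl⟩ := hg
        by_cases h : k - j = i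
        · rw [h]
          change gmc 𝒮 i (sg 𝒮 i t) ∈ _
          rw [gmc_sg_same]
          exact Submodule.subset_span ⟨i, hi, t, ht, rfl⟩
        · change gmc 𝒮 (k - j) (sg 𝒮 i t) ∈ _
          rw [gmc_sg_ne 𝒮 h]
          exact zero_mem _
      | smul r g hg ih =>
        intro k
        clear hg
        induction r using 𝒮.toDec.induction generalizing k with
        | h0 => rw [zero_smul, map_zero]; exact zero_mem _
        | hadd x y hx hy => rw [add_smul, map_add]; exact add_mem (hx k) (hy k)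
        | hhom l r =>
          rw [Gr.c_smul_hom]
          apply Submodule.smul_mem
          have := ih (k - l)
          rwa [show k - l - j = k - j - l by ring] at this

/-- if `T` generates `Y`, then all of `Y` in degree `i` is in the window for `|i| + m ≤ n` -/
theorem sg_mem_win {T : Finset Y} (hT : Submodule.span S (T : Set Y) = ⊤) {m : ℕ}
    (hm : ∀ (i : ℤ) (s : S), (m : ℤ) < |i| → 𝒮.c i s = 0) {n : ℕ} {i : ℤ} (hi : |i| + m ≤ n) (y : Y) :
    sg 𝒮 i y ∈ win 𝒮 T n := by
  have hy : y ∈ Submodule.span S (T : Set Y) := by rw [hT]; trivial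
  have key : ∀ (s : S) (t : Y), t ∈ T → ∀ i : ℤ, |i| + m ≤ n → sg 𝒮 i (s • t) ∈ win 𝒮 T n := by
    intro s t ht i hi
    induction s using 𝒮.toDec.induction with
    | h0 => rw [zero_smul, map_zero]; exact zero_mem _
    | hadd x y hx hy => rw [add_smul, map_add]; exact add_mem hx hy
    | hhom j s =>
      by_cases hj : (m : ℤ) < |j|
      · rw [hm j s hj, zero_smul, map_zero]; exact zero_mem _
      · have h1 := hom_smul_sg 𝒮 j s (i - j) t
        rw [sub_add_cancel] at h1
        rw [← h1]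
        apply Submodule.smul_mem
        apply Submodule.subset_span
        refine ⟨i - j, ?_, t, ht, rfl⟩
        rw [Finset.mem_Icc]
        rw [not_lt, abs_le] at hj
        have h2 : |i| ≤ n - m := by omega
        rw [abs_le] at h2
        constructor <;> omega
  rw [Submodule.mem_span_finset'] at hy
  obtain ⟨f, rfl⟩ := hy
  rw [map_sum]
  exact Submodule.sum_mem _ fun t _ => key _ _ t.2 i hi

section key

variable {V : Type*} [AddCommGroup V] [Module S V] (g : Gr 𝒮 V)

/-- total extension of a map defined on a submodule -/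
noncomputable def ext0 {Z : Submodule S (GM 𝒮 Y)} (p : Z →ₗ[S] V) (x : GM 𝒮 Y) : V :=
  open Classical in if h : x ∈ Z then p ⟨x, h⟩ else 0

theorem ext0_of_mem {Z : Submodule S (GM 𝒮 Y)} (p : Z →ₗ[S] V) {x : GM 𝒮 Y} (h : x ∈ Z) :
    ext0 𝒮 p x = p ⟨x, h⟩ := by
  unfold ext0
  rw [dif_pos h]

/-- A retraction from a large enough window onto a graded module `V` gives a linear map `Y → V`. -/
theorem exists_back {s m n : ℕ} (hg : g.Bdd s)
    (hm : ∀ (i : ℤ) (t : S), (m : ℤ) < |i| → 𝒮.c i t = 0)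
    {Z : Submodule S (GM 𝒮 Y)} (hZ : ∀ (i : ℤ) (y : Y), |i| ≤ n → sg 𝒮 i y ∈ Z)
    (hn : s + m ≤ n) (p : Z →ₗ[S] V) :
    ∃ q : Y →ₗ[S] V, ∀ y k, g.c k (q y) = g.c k (ext0 𝒮 p (sg 𝒮 k y)) := by
  have hfin : ∀ y, (support fun i => g.c i (ext0 𝒮 p (sg 𝒮 i y))).Finite := by
    intro y
    refine (Set.finite_Icc (-(s : ℤ)) s).subset ?_
    intro i hi
    by_contra h
    apply hi
    apply hg
    by_contra h2
    rw [not_lt, abs_le] at h2
    exact h h2
  let q : Y →ₗ[S] V :=
    { toFun := fun y => ∑ᶠ i, g.c i (ext0 𝒮 p (sg 𝒮 i y))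
      map_add' := by
        intro y y'
        rw [← finsum_add_distrib (hfin y) (hfin y')]
        refine finsum_congr fun i => ?_
        by_cases hi : (s : ℤ) < |i|
        · rw [hg i _ hi, hg i _ hi, hg i _ hi, add_zero]
        · rw [not_lt] at hi
          have hin : |i| ≤ n := by omega
          rw [ext0_of_mem 𝒮 p (hZ i _ hin), ext0_of_mem 𝒮 p (hZ i y hin),
            ext0_of_mem 𝒮 p (hZ i y' hin), ← map_add, ← map_add]
          congr 2
          apply Subtype.ext
          exact map_add _ _ _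
      map_smul' := by
        intro t y
        simp only [RingHom.id_apply]
        have hadd : ∀ y y', (∑ᶠ i, g.c i (ext0 𝒮 p (sg 𝒮 i (y + y')))) =
            (∑ᶠ i, g.c i (ext0 𝒮 p (sg 𝒮 i y))) + ∑ᶠ i, g.c i (ext0 𝒮 p (sg 𝒮 i y')) := by
          intro y y'
          rw [← finsum_add_distrib (hfin y) (hfin y')]
          refine finsum_congr fun i => ?_
          by_cases hi : (s : ℤ) < |i|
          · rw [hg i _ hi, hg i _ hi, hg i _ hi, add_zero]
          · rw [not_lt] at hi
            have hin : |i| ≤ n := by omega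
            rw [ext0_of_mem 𝒮 p (hZ i _ hin), ext0_of_mem 𝒮 p (hZ i y hin),
              ext0_of_mem 𝒮 p (hZ i y' hin), ← map_add, ← map_add]
            congr 2
            apply Subtype.ext
            exact map_add _ _ _
        induction t using 𝒮.toDec.induction with
        | h0 =>
          rw [zero_smul, zero_smul]
          have := hadd 0 0
          rw [add_zero] at this
          exact add_eq_left.mp this.symm
        | hadd a b ha hb => rw [add_smul, hadd, ha, hb, add_smul]
        | hhom j t =>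
          by_cases hj : (m : ℤ) < |j|
          · rw [hm j t hj, zero_smul, zero_smul]
            have := hadd 0 0
            rw [add_zero] at this
            exact add_eq_left.mp this.symm
          rw [not_lt] at hj
          have h1 : ∀ i, g.c i (ext0 𝒮 p (sg 𝒮 i (𝒮.c j t • y))) =
              𝒮.c j t • g.c (i - j) (ext0 𝒮 p (sg 𝒮 (i - j) y)) := by
            intro i
            rw [← g.c_smul_hom]
            by_cases hi : (s : ℤ) < |i|
            · rw [hg i _ hi, hg i _ hi]
            · rw [not_lt] at hi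
              have hin : |i| ≤ n := by omega
              have hijn : |i - j| ≤ n := (abs_sub _ _).trans (by omega)
              have h2 := hom_smul_sg 𝒮 j t (i - j) y
              rw [sub_add_cancel] at h2
              rw [ext0_of_mem 𝒮 p (hZ i _ hin), ext0_of_mem 𝒮 p (hZ _ y hijn), ← map_smul]
              congr 2
              apply Subtype.ext
              exact h2.symm
          rw [finsum_congr h1]
          have h2 := (DistribSMul.toAddMonoidHom V (𝒮.c j t)).map_finsum (hfin y)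
          change 𝒮.c j t • (∑ᶠ i, g.c i (ext0 𝒮 p (sg 𝒮 i y))) = _ at h2
          rw [h2]
          exact finsum_comp_equiv (Equiv.subRight j)
            (f := fun i : ℤ => (𝒮.c j t • g.c i (ext0 𝒮 p (sg 𝒮 i y)) : V)) }
  refine ⟨q, fun y k => ?_⟩
  change g.c k (∑ᶠ i, g.c i (ext0 𝒮 p (sg 𝒮 i y))) = _
  rw [(g.c k).map_finsum (hfin y), finsum_eq_single _ k, g.idem]
  intro j hj
  exact g.orth _ _ _ (Ne.symm hj)

end key

/-- Key lemma. -/
theorem key [IsArtinianRing S] [Module.Finite S Y] (V : Obj.{v, u} 𝒮) (hV : V.gr.Indec)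
    [IsArtinian S V.X] [IsNoetherian S V.X] (f : V.X →ₗ[S] Y)
    (hf : ¬ ∃ q : Y →ₗ[S] V.X, ∀ v, q (f v) = v) :
    ∃ (Z : Submodule S (GM 𝒮 Y)), (gmGr 𝒮 Y).Hmg Z ∧ Z.FG ∧
      (∀ v, lft 𝒮 V.gr f v ∈ Z) ∧ ¬ ∃ p : Z →ₗ[S] V.X, ∀ v (h : lft 𝒮 V.gr f v ∈ Z), p ⟨_, h⟩ = v := by
  obtain ⟨s, hs⟩ := V.gr.exists_bdd
  obtain ⟨m, hm⟩ := ring_bdd 𝒮
  obtain ⟨T, hT⟩ := (inferInstance : Module.Finite S Y).fg_top
  refine ⟨win 𝒮 T (s + m + m), win_hmg 𝒮 T _, win_fg 𝒮 T _, ?_, ?_⟩
  · intro v
    rw [← V.gr.sum_finset v (Finset.Icc (-(s : ℤ)) s) (by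
      intro i hi
      apply hs
      by_contra h
      rw [not_lt, abs_le] at h
      exact hi (Finset.mem_Icc.mpr h)), map_sum]
    refine Submodule.sum_mem _ fun i hi => ?_
    rw [lft_c]
    apply sg_mem_win 𝒮 hT hm
    rw [Finset.mem_Icc, ← abs_le] at hi
    push_cast
    omega
  · rintro ⟨p, hp⟩
    obtain ⟨q, hq⟩ := exists_back 𝒮 V.gr (n := s + m) hs hm (Z := win 𝒮 T (s + m + m)) (by
      intro i y hi
      apply sg_mem_win 𝒮 hT hm
      push_cast at hi ⊢
      omega) le_rfl p
    -- the degree zero part of `q ∘ f` is the identity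
    have h1 : Gr.comp V.gr V.gr 0 (q ∘ₗ f) = LinearMap.id := by
      apply V.gr.homD_ext
      intro k v
      rw [Gr.comp_c, add_zero, LinearMap.comp_apply, hq, LinearMap.id_apply, ← lft_c]
      by_cases hk : (s : ℤ) < |k|
      · rw [hs k _ hk, hs k _ hk]
      · have hmem : lft 𝒮 V.gr f (V.gr.c k v) ∈ win 𝒮 T (s + m + m) := by
          rw [lft_c]
          apply sg_mem_win 𝒮 hT hm
          push_cast
          omega
        rw [ext0_of_mem 𝒮 p hmem, hp, V.gr.idem]
    have h2 : Bijective (q ∘ₗ f : Module.End S V.X) := by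
      apply bijective_of_comp0 V hV
      rw [h1]
      exact bijective_id
    let e := LinearEquiv.ofBijective (q ∘ₗ f) h2
    apply hf
    refine ⟨e.symm.toLinearMap ∘ₗ q, fun v => ?_⟩
    change e.symm (q (f v)) = v
    rw [LinearEquiv.symm_apply_eq]
    rfl

/-- one-step factorisation through homogeneous non-isomorphisms -/
theorem one_step [IsArtinianRing S] [Module.Finite S Y] (V : Obj.{v, u} 𝒮) (hV : V.gr.Indec)
    [IsArtinian S V.X] [IsNoetherian S V.X] (f : V.X →ₗ[S] Y)
    (hf : ¬ ∃ q : Y →ₗ[S] V.X, ∀ v, q (f v) = v) :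
    ∃ (κ : Type) (_ : Fintype κ) (W : κ → Obj.{v, u} 𝒮) (r : ∀ a, V.X →ₗ[S] (W a).X)
      (f' : ∀ a, (W a).X →ₗ[S] Y), (∀ a, (W a).gr.Indec) ∧
      (∀ a, IsArtinian S (W a).X ∧ IsNoetherian S (W a).X) ∧ (∀ a, RH V (W a) (r a)) ∧
      f = ∑ a, f' a ∘ₗ r a := by
  obtain ⟨Z, hZh, hZfg, hZmem, hZ⟩ := key 𝒮 V hV f hf
  have : Module.Finite S Z := Module.Finite.iff_fg.mpr hZfg
  have : IsNoetherian S Z := inferInstance
  have : IsArtinian S Z := inferInstance
  obtain ⟨κ, hκ, W, ι, p, h1, h2, h3, h4, h5⟩ := good_of_finiteLength Z ((gmGr 𝒮 Y).sub hZh)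
  let F : V.X →ₗ[S] Z := (lft 𝒮 V.gr f).codRestrict Z hZmem
  have hF : V.gr.HomD ((gmGr 𝒮 Y).sub hZh) 0 F := by
    intro i v
    apply Subtype.ext
    exact lft_homD 𝒮 V.gr f i v
  refine ⟨κ, hκ, W, fun a => p a ∘ₗ F, fun a => pr 𝒮 ∘ₗ Z.subtype ∘ₗ ι a, h4, h5, ?_, ?_⟩
  · intro a
    refine ⟨⟨0, ?_⟩, ?_⟩
    · intro i v
      rw [LinearMap.comp_apply, LinearMap.comp_apply, hF, h2, add_zero, add_zero]
    · intro hb
      apply hZ
      let e := LinearEquiv.ofBijective (p a ∘ₗ F) hb
      refine ⟨e.symm.toLinearMap ∘ₗ p a, ?_⟩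
      intro v h
      change e.symm (p a _) = v
      rw [LinearEquiv.symm_apply_eq]
      rfl
  · ext v
    rw [LinearMap.sum_apply]
    have h6 := h3 (F v)
    have h7 : pr 𝒮 ((F v : Z) : GM 𝒮 Y) = f v := pr_lft 𝒮 V.gr f v
    rw [← h7, ← h6, AddSubmonoidClass.coe_finsetSum, map_sum]
    exact Finset.sum_congr rfl fun a _ => rfl

end Pool.Agent.Helper22.Grad
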