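import Pool.Agent.Helper22.GradHS

/-!
Local endomorphism rings, decomposition of graded modules into indecomposables.
-/

set_option autoImplicit false

namespace Pool.Agent.Helper22.Grad

open Function

universe v u

variable {S : Type v} [Ring S] {𝒮 : RGr S}

theorem end_isUnit_iff {M : Type*} [AddCommGroup M] [Module S M] (f : Module.End S M) :
    IsUnit f ↔ Bijective f := Module.End.isUnit_iff f

theorem closure_mul3 {E : Type*} [Ring E] {X Y Z : Set E} {W : AddSubgroup E}
    (h : ∀ x ∈ X, ∀ y ∈ Y, ∀ z ∈ Z, x * (y * z) ∈ W) {x y z : E}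
    (hx : x ∈ AddSubgroup.closure X) (hy : y ∈ AddSubgroup.closure Y)
    (hz : z ∈ AddSubgroup.closure Z) : x * (y * z) ∈ W := by
  induction hx using AddSubgroup.closure_induction with
  | zero => rw [zero_mul]; exact W.zero_mem
  | add a b _ _ ha hb => rw [add_mul]; exact W.add_mem ha hb
  | neg a _ ha => rw [neg_mul]; exact W.neg_mem ha
  | mem x hx =>
    induction hy using AddSubgroup.closure_induction with
    | zero => rw [zero_mul, mul_zero]; exact W.zero_mem
    | add a b _ _ ha hb => rw [add_mul, mul_add]; exact W.add_mem ha hb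
    | neg a _ ha => rw [neg_mul, mul_neg]; exact W.neg_mem ha
    | mem y hy =>
      induction hz using AddSubgroup.closure_induction with
      | zero => rw [mul_zero, mul_zero]; exact W.zero_mem
      | add a b _ _ ha hb => rw [mul_add, mul_add]; exact W.add_mem ha hb
      | neg a _ ha => rw [mul_neg, mul_neg]; exact W.neg_mem ha
      | mem z hz => exact h x hx y hy z hz

theorem pow_mem_closure (V : Obj.{v, u} 𝒮) (φ : Module.End S V.X)
    (hφ : φ ∈ AddSubgroup.closure {f : Module.End S V.X | RH V V f}) (k : ℕ) :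
    φ ^ (2 ^ k - 1) ∈
      AddSubgroup.closure {f : Module.End S V.X | DD (fun W => W = V) k V V f} := by
  induction k with
  | zero =>
    apply AddSubgroup.subset_closure
    refine ⟨0, fun i m => ?_⟩
    simp
  | succ k ih =>
    have h1 : 2 ^ (k + 1) - 1 = (2 ^ k - 1) + (1 + (2 ^ k - 1)) := by
      have : 1 ≤ 2 ^ k := Nat.one_le_two_pow
      rw [pow_succ]
      omega
    rw [h1, pow_add, pow_add, pow_one]
    refine closure_mul3 ?_ ih hφ ih
    intro x hx y hy z hz
    apply AddSubgroup.subset_closure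
    exact ⟨V, V, z, y, x, rfl, rfl, hz, hy, hx, rfl⟩

section

variable (V : Obj.{v, u} 𝒮) (hV : V.gr.Indec)
include hV

theorem nilpotent_of_closure [IsArtinian S V.X] [IsNoetherian S V.X] (φ : Module.End S V.X)
    (hφ : φ ∈ AddSubgroup.closure {f : Module.End S V.X | RH V V f}) : IsNilpotent φ := by
  set b := (Module.length S V.X).toNat with hb
  have hb' : Module.length S V.X ≤ b := by
    rw [hb, ENat.natCast_toNat Module.length_ne_top]
  refine ⟨2 ^ (b + 1) - 1, ?_⟩
  have h1 := pow_mem_closure V φ hφ (b + 1)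
  have h2 : AddSubgroup.closure {f : Module.End S V.X | DD (fun W => W = V) (b + 1) V V f} ≤ ⊥ := by
    rw [AddSubgroup.closure_le]
    intro f hf
    rcases harada_sai (fun W => W = V) b (by rintro W rfl; exact ⟨hV, hb'⟩) (b + 1) V V f rfl rfl hf
      with h | h
    · exact h
    · exfalso
      have : ((b + 1 : ℕ) : ℕ∞) ≤ b := le_trans le_add_self h
      have := Nat.cast_le.mp this
      omega
  exact h2 h1

theorem not_bij_of_shift [IsArtinian S V.X] [IsNoetherian S V.X] {d : ℤ} (hd : d ≠ 0)
    {f : V.X →ₗ[S] V.X} (hf : V.gr.HomD V.gr d f) : ¬ Bijective f := fun hb => by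
  have := V.gr.subsingleton_of_surj_shift d hd f hf hb.2
  have := hV.1
  exact not_subsingleton V.X ‹_›

theorem nilpotent_of_comp0 [IsArtinianRing S] [IsArtinian S V.X] [IsNoetherian S V.X]
    (φ : Module.End S V.X) (h : ¬ Bijective (Gr.comp V.gr V.gr 0 φ)) : IsNilpotent φ := by
  apply nilpotent_of_closure V hV
  obtain ⟨s, hs⟩ := V.gr.exists_bdd
  have h1 := V.gr.eq_sum_comp V.gr hs hs φ
  rw [h1]
  refine AddSubgroup.sum_mem _ fun d _ => AddSubgroup.subset_closure ?_
  refine ⟨⟨d, Gr.comp_hom _ _ _ _⟩, ?_⟩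
  by_cases hd : d = 0
  · subst hd; exact h
  · exact not_bij_of_shift V hV hd (Gr.comp_hom _ _ _ _)

theorem bijective_of_comp0 [IsArtinianRing S] [IsArtinian S V.X] [IsNoetherian S V.X]
    (φ : Module.End S V.X) (h : Bijective (Gr.comp V.gr V.gr 0 φ)) : Bijective φ := by
  set φ₀ := Gr.comp V.gr V.gr 0 φ with hφ₀
  let e := LinearEquiv.ofBijective φ₀ h
  let ψ : Module.End S V.X := e.symm.toLinearMap
  have hψ : V.gr.HomD V.gr 0 ψ := by
    intro i m
    obtain ⟨m', rfl⟩ := e.surjective m
    have h1 : V.gr.c i (e m') = e (V.gr.c i m') := by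
      have := Gr.comp_hom V.gr V.gr 0 φ i m'
      rw [add_zero] at this
      exact this.symm
    rw [h1]
    change e.symm (e _) = V.gr.c (i + 0) (e.symm (e m'))
    rw [e.symm_apply_apply, e.symm_apply_apply, add_zero]
  have h1 : ψ ∘ₗ φ₀ = LinearMap.id := by
    ext m
    exact e.symm_apply_apply m
  have h2 : IsNilpotent (1 - ψ * φ) := by
    apply nilpotent_of_comp0 V hV
    have h3 : Gr.comp V.gr V.gr 0 (1 - ψ * φ) = 0 := by
      have h4 : Gr.comp V.gr V.gr 0 ((1 - ψ * φ) + ψ * φ) =
        Gr.comp V.gr V.gr 0 (1 - ψ * φ) + Gr.comp V.gr V.gr 0 (ψ * φ) := Gr.comp_add _ _ _ _ _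
      rw [sub_add_cancel] at h4
      have h5 : Gr.comp V.gr V.gr 0 (1 : Module.End S V.X) = LinearMap.id := V.gr.comp_id
      have h6 : Gr.comp V.gr V.gr 0 (ψ * φ) = LinearMap.id := by
        have := Gr.comp_comp_left V.gr V.gr V.gr 0 φ ψ hψ
        rw [← hφ₀, h1] at this
        exact this
      rw [h5, h6] at h4
      exact add_eq_right.mp h4.symm
    intro hb
    rw [h3] at hb
    have := hV.1
    obtain ⟨x, hx⟩ := exists_ne (0 : V.X)
    exact hx (hb.1 (by simp))
  have h3 : IsUnit (ψ * φ) := by
    have := IsNilpotent.isUnit_one_sub h2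
    rwa [sub_sub_cancel] at this
  have h4 : Bijective (ψ * φ) := (end_isUnit_iff _).mp h3
  have h5 : Bijective ψ := e.symm.bijective
  have h6 : (φ : V.X → V.X) = e ∘ (ψ * φ : Module.End S V.X) := by
    funext m
    change φ m = e (e.symm (φ m))
    rw [e.apply_symm_apply]
  rw [h6]
  exact e.bijective.comp h4

theorem isLocalRing_end [IsArtinianRing S] [IsArtinian S V.X] [IsNoetherian S V.X] :
    IsLocalRing (Module.End S V.X) := by
  have := hV.1
  refine { exists_pair_ne := ⟨0, 1, zero_ne_one⟩, isUnit_or_isUnit_of_add_one := ?_ }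
  intro a b hab
  rw [end_isUnit_iff, end_isUnit_iff]
  by_contra hcon
  push Not at hcon
  obtain ⟨ha, hb⟩ := hcon
  have ha' : IsNilpotent a := nilpotent_of_comp0 V hV a (fun h => ha (bijective_of_comp0 V hV a h))
  have : IsUnit b := by
    have h1 := IsNilpotent.isUnit_one_sub ha'
    have h2 : 1 - a = b := by rw [← hab]; abel
    rwa [h2] at h1
  exact hb ((end_isUnit_iff _).mp this)

end

/-- ungraded indecomposability -/
def IndecMod (S : Type*) [Ring S] (M : Type*) [AddCommGroup M] [Module S M] : Prop :=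
  Nontrivial M ∧ ∀ A B : Submodule S M, IsCompl A B → A = ⊥ ∨ B = ⊥

theorem isLocalRing_end_of_indec {M : Type*} [AddCommGroup M] [Module S M] [IsArtinian S M]
    [IsNoetherian S M] (hM : IndecMod S M) : IsLocalRing (Module.End S M) := by
  have := hM.1
  refine { exists_pair_ne := ⟨0, 1, zero_ne_one⟩, isUnit_or_isUnit_of_add_one := ?_ }
  intro a b hab
  obtain ⟨n, hn⟩ := (LinearMap.eventually_isCompl_ker_pow_range_pow a).exists_forall_of_atTop
  have hn1 := hn (n + 1) (Nat.le_succ n)
  rcases hM.2 _ _ hn1 with h | h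
  · left
    have h1 : LinearMap.range (a ^ (n + 1)) = ⊤ := by
      rw [h] at hn1
      simpa using hn1.sup_eq_top
    have h2 : IsUnit (a ^ (n + 1)) := by
      rw [end_isUnit_iff]
      exact ⟨LinearMap.ker_eq_bot.mp h, LinearMap.range_eq_top.mp h1⟩
    exact (isUnit_pow_iff (Nat.succ_ne_zero n)).mp h2
  · right
    have h1 : IsNilpotent a := ⟨n + 1, LinearMap.range_eq_bot.mp h⟩
    have h2 := IsNilpotent.isUnit_one_sub h1
    have h3 : 1 - a = b := by rw [← hab]; abel
    rwa [h3] at h2

/-- In a local ring a finite sum that is a unit has a unit summand. -/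
theorem exists_isUnit_of_sum {E : Type*} [Ring E] [IsLocalRing E] {κ : Type*} (s : Finset κ)
    (a : κ → E) (h : IsUnit (∑ i ∈ s, a i)) : ∃ i ∈ s, IsUnit (a i) := by
  classical
  induction s using Finset.induction_on with
  | empty => simp at h
  | insert i s his ih =>
    rw [Finset.sum_insert his] at h
    obtain ⟨u, hu⟩ := h
    have h1 : (↑u⁻¹ : E) * a i + ↑u⁻¹ * ∑ i ∈ s, a i = 1 := by
      rw [← mul_add, ← hu, Units.inv_mul]
    rcases IsLocalRing.isUnit_or_isUnit_of_add_one h1 with h2 | h2
    · refine ⟨i, Finset.mem_insert_self _ _, ?_⟩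
      have := u.isUnit.mul h2
      rwa [← mul_assoc, Units.mul_inv, one_mul] at this
    · have := u.isUnit.mul h2
      rw [← mul_assoc, Units.mul_inv, one_mul] at this
      obtain ⟨j, hj, hj2⟩ := ih this
      exact ⟨j, Finset.mem_insert_of_mem hj, hj2⟩

/-- If `M` has local endomorphism ring, `N` is nonzero and `N` is a retract of `M` then the
retraction is bijective. -/
theorem bijective_of_retract {M N : Type*} [AddCommGroup M] [Module S M] [AddCommGroup N]
    [Module S N] [IsLocalRing (Module.End S M)] [Nontrivial N] (i : N →ₗ[S] M) (p : M →ₗ[S] N)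
    (h : ∀ x, p (i x) = x) : Bijective i := by
  have hi : Injective i := fun x y hxy => by rw [← h x, ← h y, hxy]
  refine ⟨hi, ?_⟩
  let e : Module.End S M := i ∘ₗ p
  have he : e * e = e := by
    ext m
    change i (p (i (p m))) = i (p m)
    rw [h]
  rcases IsLocalRing.isUnit_or_isUnit_of_add_one (show e + (1 - e) = 1 by abel) with h1 | h1
  · have h2 : e = 1 := by
      have := h1.mul_left_cancel (show e * e = e * 1 by rw [he, mul_one])
      exact this
    intro m
    refine ⟨p m, ?_⟩
    have : e m = m := by rw [h2]; rfl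
    exact this
  · exfalso
    have h2 : e = 0 := by
      have := h1.mul_left_cancel (show (1 - e) * e = (1 - e) * 0 by
        rw [sub_mul, one_mul, he, sub_self, mul_zero])
      exact this
    obtain ⟨x, hx⟩ := exists_ne (0 : N)
    apply hx
    have h3 : e (i x) = 0 := by rw [h2]; rfl
    change i (p (i x)) = 0 at h3
    rw [h] at h3
    apply hi
    rw [h3, map_zero]

end Pool.Agent.Helper22.Grad
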