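import Pool.Agent.Helper22.GradKey

/-!
Main theorem for left modules.
-/

set_option autoImplicit false

namespace Pool.Agent.Helper22.Grad

open Function

set_option linter.unusedSectionVars false

universe v u

variable {S : Type v} [Ring S] (𝒮 : RGr S)

/-- `W` is a retract of a finite direct sum of copies of `X` -/
def InAdd (S : Type v) [Ring S] (X W : Type u) [AddCommGroup X] [Module S X] [AddCommGroup W]
    [Module S W] : Prop :=
  ∃ (n : ℕ) (i : W →ₗ[S] (Fin n → X)) (p : (Fin n → X) →ₗ[S] W), ∀ w, p (i w) = w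

theorem InAdd.retract {X W W' : Type u} [AddCommGroup X] [Module S X] [AddCommGroup W]
    [Module S W] [AddCommGroup W'] [Module S W'] (h : InAdd S X W) (i' : W' →ₗ[S] W)
    (p' : W →ₗ[S] W') (hp : ∀ w, p' (i' w) = w) : InAdd S X W' := by
  obtain ⟨n, i, p, hip⟩ := h
  exact ⟨n, i ∘ₗ i', p' ∘ₗ p, fun w => by
    rw [LinearMap.comp_apply, LinearMap.comp_apply, hip, hp]⟩

/-- a retract of a finite product, with local endomorphism ring, is a retract of a factor -/
theorem retract_of_pi {κ : Type*} [Fintype κ] {X : κ → Type*} [∀ a, AddCommGroup (X a)]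
    [∀ a, Module S (X a)] {W : Type*} [AddCommGroup W] [Module S W]
    [IsLocalRing (Module.End S W)] (i : W →ₗ[S] (∀ a, X a)) (p : (∀ a, X a) →ₗ[S] W)
    (h : ∀ w, p (i w) = w) :
    ∃ (a : κ) (i' : W →ₗ[S] X a) (p' : X a →ₗ[S] W), ∀ w, p' (i' w) = w := by
  classical
  have h1 : ∑ a, (p ∘ₗ LinearMap.single S X a ∘ₗ LinearMap.proj a ∘ₗ i : Module.End S W) = 1 := by
    ext w
    rw [LinearMap.sum_apply]
    have h2 : ∑ a, (LinearMap.single S X a) (i w a) = i w := by
      funext b
      rw [Finset.sum_apply]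
      simp
    change ∑ a, p ((LinearMap.single S X a) (i w a)) = w
    rw [← map_sum, h2, h]
  obtain ⟨a, _, ha⟩ := exists_isUnit_of_sum Finset.univ _ (by rw [h1]; exact isUnit_one)
  rw [end_isUnit_iff] at ha
  let e := LinearEquiv.ofBijective _ ha
  refine ⟨a, LinearMap.proj a ∘ₗ i, e.symm.toLinearMap ∘ₗ p ∘ₗ LinearMap.single S X a, ?_⟩
  intro w
  change e.symm (p (LinearMap.single S X a (i w a))) = w
  rw [LinearEquiv.symm_apply_eq]
  rfl

variable {𝒮} in
/-- transport of a grading along a linear equivalence -/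
def Gr.transport {M N : Type*} [AddCommGroup M] [Module S M] [AddCommGroup N] [Module S N]
    (g : Gr 𝒮 M) (e : M ≃ₗ[S] N) : Gr 𝒮 N where
  c i := (e.toLinearMap.toAddMonoidHom.comp (g.c i)).comp e.symm.toLinearMap.toAddMonoidHom
  fin m := by
    refine (g.fin (e.symm m)).subset ?_
    intro i hi h0
    apply hi
    change e (g.c i (e.symm m)) = 0
    rw [h0, map_zero]
  sum m := by
    change ∑ᶠ i, e.toLinearMap.toAddMonoidHom (g.c i (e.symm m)) = m
    rw [← (e.toLinearMap.toAddMonoidHom).map_finsum (g.support_finite _), g.sum]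
    exact e.apply_symm_apply m
  orth i j m h := by
    change e (g.c i (e.symm (e (g.c j (e.symm m))))) = 0
    rw [e.symm_apply_apply, g.orth _ _ _ h, map_zero]
  smul i j s m := by
    change e (g.c (i + j) (e.symm (𝒮.c i s • e (g.c j (e.symm m))))) =
      𝒮.c i s • e (g.c j (e.symm m))
    rw [map_smul, e.symm_apply_apply, g.smul, map_smul]

/-- a nonzero finite length module has an indecomposable retract -/
theorem exists_indec_retract (C : Type u) [AddCommGroup C] [Module S C] [IsArtinian S C]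
    [Nontrivial C] : ∃ (N : Submodule S C) (p : C →ₗ[S] N), (∀ x : N, p x = x) ∧ IndecMod S N := by
  let H : Set (Submodule S C) := {N | N ≠ ⊥ ∧ ∃ N', IsCompl N N'}
  have hH : H.Nonempty := ⟨⊤, by
    refine ⟨?_, ⊥, isCompl_top_bot⟩
    exact top_ne_bot⟩
  obtain ⟨N, ⟨hN0, N', hNN'⟩, hmin⟩ := IsArtinian.set_has_minimal H hH
  refine ⟨N, N.projectionOnto N' hNN', fun x => Submodule.projectionOnto_apply_left hNN' x, ?_⟩
  refine ⟨Submodule.nontrivial_iff_ne_bot.mpr hN0, ?_⟩
  intro A B hAB
  by_contra hcon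
  push Not at hcon
  obtain ⟨hA, hB⟩ := hcon
  have hA' : A.map N.subtype ∈ H := by
    refine ⟨?_, B.map N.subtype ⊔ N', ?_⟩
    · intro h
      apply hA
      rw [eq_bot_iff]
      intro z hz
      have h1 : (z : C) ∈ A.map N.subtype := ⟨z, hz, rfl⟩
      rw [h, Submodule.mem_bot] at h1
      rw [Submodule.mem_bot]
      exact Subtype.ext h1
    · constructor
      · rw [Submodule.disjoint_def]
        rintro _ ⟨a, ha, rfl⟩ hx
        rw [Submodule.mem_sup] at hx
        obtain ⟨_, ⟨b, hb, rfl⟩, n', hn', h⟩ := hx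
        have h1 : n' = ((a - b : N) : C) := by
          rw [Submodule.coe_sub]
          change (b : C) + n' = (a : C) at h
          rw [← h]; abel
        have h2 : n' = 0 := by
          have := Submodule.disjoint_def.mp hNN'.disjoint n' (by rw [h1]; exact (a - b).2) hn'
          exact this
        have h3 : a = b := by
          rw [h2] at h1
          have : (a - b : N) = 0 := Subtype.ext h1.symm
          exact sub_eq_zero.mp this
        have h4 : a = 0 := Submodule.disjoint_def.mp hAB.disjoint a ha (h3 ▸ hb)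
        rw [h4]; rfl
      · rw [codisjoint_iff, eq_top_iff]
        intro x _
        have hx : x ∈ N ⊔ N' := by rw [hNN'.sup_eq_top]; trivial
        rw [Submodule.mem_sup] at hx
        obtain ⟨n, hn, n', hn', rfl⟩ := hx
        have hn2 : (⟨n, hn⟩ : N) ∈ A ⊔ B := by rw [hAB.sup_eq_top]; trivial
        rw [Submodule.mem_sup] at hn2
        obtain ⟨a, ha, b, hb, hab⟩ := hn2
        rw [Submodule.mem_sup]
        refine ⟨a, ⟨a, ha, rfl⟩, (b : C) + n', ?_, ?_⟩
        · rw [Submodule.mem_sup]
          exact ⟨b, ⟨b, hb, rfl⟩, n', hn', rfl⟩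
        · have := congrArg Subtype.val hab
          change (a : C) + b = n at this
          rw [← this]; abel
  apply hmin _ hA'
  refine lt_of_le_of_ne (Submodule.map_subtype_le N A) ?_
  intro h
  apply hB
  rw [eq_bot_iff]
  intro z hz
  have h1 : (z : C) ∈ A.map N.subtype := by rw [h]; exact z.2
  obtain ⟨a, ha, haz⟩ := h1
  have h2 : a = z := Subtype.ext haz
  have h3 : z = 0 := Submodule.disjoint_def.mp hAB.disjoint z (h2 ▸ ha) hz
  rw [h3]; exact zero_mem _

/-- The main theorem, for left modules. -/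
theorem main_left [IsArtinianRing S] (Y : Type u) [AddCommGroup Y] [Module S Y] [Module.Finite S Y]
    (hY : IndecMod S Y) (X : Type u) [AddCommGroup X] [Module S X] [Module.Finite S X]
    (h : ∀ (B : Type u) [AddCommGroup B] [Module S B], Module.Finite S B →
      ∀ F : B →ₗ[S] Y, Surjective F → (¬ ∃ σ : Y →ₗ[S] B, ∀ y, F (σ y) = y) →
      ∃ (C : Type u) (_ : AddCommGroup C) (_ : Module S C), Nontrivial C ∧ InAdd S X C ∧
        ∃ (i : C →ₗ[S] B) (ρ : B →ₗ[S] C), ∀ c, ρ (i c) = c) : Nonempty (Gr 𝒮 Y) := by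
  classical
  by_contra hgr
  have hlocY : IsLocalRing (Module.End S Y) := isLocalRing_end_of_indec hY
  have hntY := hY.1
  -- maps from graded indecomposables to `Y` are not split
  have hns : ∀ (V : Obj.{v, u} 𝒮), V.gr.Indec → ∀ f : V.X →ₗ[S] Y,
      ¬ ∃ q : Y →ₗ[S] V.X, ∀ v, q (f v) = v := by
    rintro V hV f ⟨q, hq⟩
    have := hV.1
    have hb := bijective_of_retract f q hq
    exact hgr ⟨V.gr.transport (LinearEquiv.ofBijective f hb)⟩
  let P : Obj.{v, u} 𝒮 → Prop := fun V =>
    V.gr.Indec ∧ IsArtinian S V.X ∧ IsNoetherian S V.X ∧ InAdd S X V.X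
  set b := (Module.length S X).toNat with hb
  have hb' : Module.length S X ≤ b := by rw [hb, ENat.natCast_toNat Module.length_ne_top]
  have hP : ∀ V, P V → V.gr.Indec ∧ Module.length S V.X ≤ b := by
    rintro V ⟨h1, h2, h3, n, i, p, hip⟩
    refine ⟨h1, ?_⟩
    have := isLocalRing_end V h1
    obtain ⟨a, i', p', hip'⟩ := retract_of_pi i p hip
    exact (Module.length_le_of_injective i' (fun x y hxy => by rw [← hip' x, ← hip' y, hxy])).trans hb'
  let Q : Obj.{v, u} 𝒮 → Prop := fun V =>
    V.gr.Indec ∧ IsArtinian S V.X ∧ IsNoetherian S V.X ∧ ¬ InAdd S X V.X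
  let Y' : Submodule S Y := sSup {N | ∃ V, Q V ∧ ∃ f : V.X →ₗ[S] Y, N = LinearMap.range f}
  have hQ : ∀ V, Q V → ∀ f : V.X →ₗ[S] Y, LinearMap.range f ≤ Y' := by
    intro V hV f
    exact le_sSup ⟨V, hV, f, rfl⟩
  -- the inductive claim
  have claim : ∀ k : ℕ, ∀ V, P V → ∀ f : V.X →ₗ[S] Y, f ∈ AddSubgroup.closure
      ({h | LinearMap.range h ≤ Y'} ∪ {h : V.X →ₗ[S] Y | ∃ W, P W ∧ ∃ d, DD P k V W d ∧
        ∃ f' : W.X →ₗ[S] Y, h = f' ∘ₗ d}) := by
    intro k
    induction k with
    | zero =>
      intro V hV f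
      apply AddSubgroup.subset_closure
      right
      exact ⟨V, hV, LinearMap.id, ⟨0, fun i m => by simp⟩, f, by simp⟩
    | succ k ih =>
      intro V hV f
      have h1 := ih V hV f
      induction h1 using AddSubgroup.closure_induction with
      | zero => exact zero_mem _
      | add a b _ _ ha hb => exact add_mem ha hb
      | neg a _ ha => exact neg_mem ha
      | mem x hx =>
        rcases hx with hx | ⟨W, hW, d, hd, f', rfl⟩
        · exact AddSubgroup.subset_closure (Or.inl hx)
        · obtain ⟨hW1, hW2, hW3, hW4⟩ := hW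
          obtain ⟨κ, hκ, U, r, f'', hU1, hU2, hU3, hsum⟩ := one_step 𝒮 W hW1 f' (hns W hW1 f')
          have h2 : f' ∘ₗ d = ∑ a, f'' a ∘ₗ (r a ∘ₗ d) := by
            rw [hsum]
            ext v
            simp
          rw [h2]
          refine AddSubgroup.sum_mem _ fun a _ => ?_
          by_cases hUa : InAdd S X (U a).X
          · have hPU : P (U a) := ⟨hU1 a, (hU2 a).1, (hU2 a).2, hUa⟩
            have h3 := ih (U a) hPU (f'' a)
            -- push forward the closure along precomposition
            let pre : ((U a).X →ₗ[S] Y) →+ (V.X →ₗ[S] Y) :=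
              { toFun := fun g => g ∘ₗ (r a ∘ₗ d)
                map_zero' := by ext; simp
                map_add' := fun x y => by ext; simp }
            change pre (f'' a) ∈ _
            generalize f'' a = fa at h3 ⊢
            induction h3 using AddSubgroup.closure_induction with
            | zero => rw [map_zero]; exact zero_mem _
            | add x y _ _ hx hy => rw [map_add]; exact add_mem hx hy
            | neg x _ hx => rw [map_neg]; exact neg_mem hx
            | mem x hx =>
              apply AddSubgroup.subset_closure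
              rcases hx with hx | ⟨T, hT, d', hd', g, rfl⟩
              · left
                exact (LinearMap.range_comp_le_range _ _).trans hx
              · right
                refine ⟨T, hT, d' ∘ₗ r a ∘ₗ d, ?_, g, rfl⟩
                exact ⟨W, U a, d, r a, d', ⟨hW1, hW2, hW3, hW4⟩, hPU, hd, hU3 a, hd', rfl⟩
          · apply AddSubgroup.subset_closure
            left
            exact (LinearMap.range_comp_le_range _ _).trans
              (hQ (U a) ⟨hU1 a, (hU2 a).1, (hU2 a).2, hUa⟩ (f'' a))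
  have hPrange : ∀ V, P V → ∀ f : V.X →ₗ[S] Y, LinearMap.range f ≤ Y' := by
    intro V hV f
    have h1 := claim (b + 1) V hV f
    induction h1 using AddSubgroup.closure_induction with
    | zero => rw [LinearMap.range_zero]; exact bot_le
    | add x y _ _ hx hy =>
      rintro _ ⟨v, rfl⟩
      exact add_mem (hx ⟨v, rfl⟩) (hy ⟨v, rfl⟩)
    | neg x _ hx =>
      rintro _ ⟨v, rfl⟩
      exact neg_mem (hx ⟨v, rfl⟩)
    | mem x hx =>
      rcases hx with hx | ⟨W, hW, d, hd, f', rfl⟩
      · exact hx
      · rcases harada_sai P b hP (b + 1) V W d hV hW hd with h2 | h2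
        · rw [h2, LinearMap.comp_zero, LinearMap.range_zero]; exact bot_le
        · exfalso
          have : ((b + 1 : ℕ) : ℕ∞) ≤ b := le_trans le_add_self h2
          have := Nat.cast_le.mp this
          omega
  have hall : ∀ V : Obj.{v, u} 𝒮, V.gr.Indec → IsArtinian S V.X → IsNoetherian S V.X →
      ∀ f : V.X →ₗ[S] Y, LinearMap.range f ≤ Y' := by
    intro V h1 h2 h3 f
    by_cases h4 : InAdd S X V.X
    · exact hPrange V ⟨h1, h2, h3, h4⟩ f
    · exact hQ V ⟨h1, h2, h3, h4⟩ f
  -- `Y' = ⊤`
  have hYtop : Y' = ⊤ := by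
    obtain ⟨T, hT⟩ := (inferInstance : Module.Finite S Y).fg_top
    let Z := win 𝒮 T 0
    have : Module.Finite S Z := Module.Finite.iff_fg.mpr (win_fg 𝒮 T 0)
    have : IsNoetherian S Z := inferInstance
    have : IsArtinian S Z := inferInstance
    obtain ⟨κ, hκ, W, ι, p, h1, h2, h3, h4, h5⟩ :=
      good_of_finiteLength Z ((gmGr 𝒮 Y).sub (win_hmg 𝒮 T 0))
    have h6 : ∀ z : Z, pr 𝒮 (z : GM 𝒮 Y) ∈ Y' := by
      intro z
      rw [← h3 z, AddSubmonoidClass.coe_finsetSum, map_sum]
      refine Submodule.sum_mem _ fun a _ => ?_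
      exact hall (W a) (h4 a) (h5 a).1 (h5 a).2 (pr 𝒮 ∘ₗ Z.subtype ∘ₗ ι a) ⟨_, rfl⟩
    rw [eq_top_iff, ← hT, Submodule.span_le]
    intro t ht
    have h7 : sg 𝒮 0 t ∈ Z := by
      apply Submodule.subset_span
      exact ⟨0, by simp, t, ht, rfl⟩
    have h8 := h6 ⟨_, h7⟩
    change pr 𝒮 (sg 𝒮 0 t) ∈ Y' at h8
    rwa [pr_sg] at h8
  -- a finite family covering `Y`
  let H : Set (Submodule S Y) := {N | ∃ (n : ℕ) (V : Fin n → Obj.{v, u} 𝒮)
    (f : ∀ a, (V a).X →ₗ[S] Y), (∀ a, Q (V a)) ∧ N = ⨆ a, LinearMap.range (f a)}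
  have hH : H.Nonempty := ⟨⊥, 0, fun a => a.elim0, fun a => a.elim0, fun a => a.elim0, by
    rw [iSup_of_empty]⟩
  obtain ⟨N, ⟨n, V, f, hVQ, hN⟩, hmax⟩ :=
    set_has_maximal_iff_noetherian.mpr (inferInstance : IsNoetherian S Y) H hH
  have hNtop : N = ⊤ := by
    rw [eq_top_iff, ← hYtop]
    apply sSup_le
    rintro _ ⟨W, hW, g, rfl⟩
    have h1 : N ⊔ LinearMap.range g ∈ H := by
      refine ⟨n + 1, Fin.cons W V, Fin.cons g f, ?_, ?_⟩
      · intro a
        refine Fin.cases ?_ ?_ a
        · exact hW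
        · exact hVQ
      · rw [hN]
        apply le_antisymm
        · apply sup_le
          · apply iSup_le
            intro a
            exact le_iSup (fun a : Fin (n + 1) => LinearMap.range
              ((Fin.cons g f : ∀ a : Fin (n + 1), ((Fin.cons W V : Fin (n + 1) → Obj.{v, u} 𝒮) a).X →ₗ[S] Y) a)) a.succ
          · exact le_iSup (fun a : Fin (n + 1) => LinearMap.range
              ((Fin.cons g f : ∀ a : Fin (n + 1), ((Fin.cons W V : Fin (n + 1) → Obj.{v, u} 𝒮) a).X →ₗ[S] Y) a)) 0
        · apply iSup_le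
          intro a
          refine Fin.cases ?_ ?_ a
          · exact le_sup_right
          · intro a
            exact le_trans (le_iSup (fun a => LinearMap.range (f a)) a) le_sup_left
    by_contra h2
    exact hmax _ h1 (lt_of_le_of_ne le_sup_left (fun h3 => h2 (by rw [h3]; exact le_sup_right)))
  -- the epimorphism from the product
  let B : Type u := ∀ a : Fin n, (V a).X
  have hfinV : ∀ a, Module.Finite S (V a).X := fun a => by
    have := (hVQ a).2.2.1
    infer_instance
  let F : B →ₗ[S] Y := ∑ a, f a ∘ₗ LinearMap.proj a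
  have hF : ∀ b, F b = ∑ a, f a (b a) := by
    intro b
    change (∑ a, f a ∘ₗ LinearMap.proj a : (∀ a : Fin n, (V a).X) →ₗ[S] Y) b = _
    rw [LinearMap.sum_apply]
    rfl
  have hFs : Surjective F := by
    rw [← LinearMap.range_eq_top, eq_top_iff, ← hNtop, hN]
    apply iSup_le
    rintro a _ ⟨x, rfl⟩
    refine ⟨Pi.single a x, ?_⟩
    rw [hF, Finset.sum_eq_single a]
    · rw [Pi.single_eq_same]
    · intro b _ hba
      rw [Pi.single_eq_of_ne hba, map_zero]
    · intro ha
      exact absurd (Finset.mem_univ a) ha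
  by_cases hsplit : ∃ σ : Y →ₗ[S] B, ∀ y, F (σ y) = y
  · obtain ⟨σ, hσ⟩ := hsplit
    obtain ⟨a, i', p', hip⟩ := retract_of_pi (X := fun a : Fin n => (V a).X) σ F hσ
    have hloc : IsLocalRing (Module.End S (V a).X) := by
      obtain ⟨h1, h2, h3, _⟩ := hVQ a
      exact isLocalRing_end (V a) h1
    have hbij := bijective_of_retract i' p' hip
    exact hgr ⟨(V a).gr.transport (LinearEquiv.ofBijective i' hbij).symm⟩
  · obtain ⟨C, _, _, hCnt, hCadd, i, ρ, hiρ⟩ := h B (inferInstanceAs (Module.Finite S (∀ a : Fin n, (V a).X))) F hFs hsplit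
    have hCfin : IsArtinian S C := by
      have hBart : IsArtinian S B := inferInstanceAs (IsArtinian S (∀ a : Fin n, (V a).X))
      exact isArtinian_of_injective i (fun x y hxy => by rw [← hiρ x, ← hiρ y, hxy])
    have hCnoe : IsNoetherian S C := by
      have hBnoe : IsNoetherian S B := inferInstanceAs (IsNoetherian S (∀ a : Fin n, (V a).X))
      exact isNoetherian_of_injective i (fun x y hxy => by rw [← hiρ x, ← hiρ y, hxy])
    obtain ⟨D, pD, hpD, hD⟩ := exists_indec_retract (S := S) C
    have hDloc : IsLocalRing (Module.End S D) := isLocalRing_end_of_indec hD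
    have hDnt := hD.1
    obtain ⟨a, i', p', hip⟩ := retract_of_pi (X := fun a : Fin n => (V a).X) (W := D)
      (i ∘ₗ D.subtype) (pD ∘ₗ ρ) (by
        intro w
        change pD (ρ (i w)) = w
        rw [hiρ]
        exact hpD w)
    have hloc : IsLocalRing (Module.End S (V a).X) := by
      obtain ⟨h1, h2, h3, _⟩ := hVQ a
      exact isLocalRing_end (V a) h1
    have hbij := bijective_of_retract i' p' hip
    let e := LinearEquiv.ofBijective i' hbij
    have hDadd : InAdd S X D := hCadd.retract D.subtype pD hpD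
    exact (hVQ a).2.2.2 (hDadd.retract e.symm.toLinearMap e.toLinearMap (fun w => e.apply_symm_apply w))

end Pool.Agent.Helper22.Grad
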