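import Pool.Agent.Helper22.GradDec

/-!
The graded module `G(Y)` of finitely supported functions `ℤ → Y`, and the key lemma.
-/

set_option autoImplicit false

namespace Pool.Agent.Helper22.Grad

open Function

set_option linter.unusedSectionVars false

universe v u

variable {S : Type v} [Ring S] (𝒮 : RGr S)

/-- finitely supported functions on `ℤ` with values in `Y` -/
def GM (_ : RGr S) (Y : Type*) [AddCommGroup Y] := ℤ →₀ Y

variable (Y : Type*) [AddCommGroup Y] [Module S Y]

noncomputable instance : AddCommGroup (GM 𝒮 Y) := inferInstanceAs (AddCommGroup (ℤ →₀ Y))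

variable {Y}

/-- multiply by `s` and shift by `j` -/
noncomputable def tw (j : ℤ) (s : S) : (ℤ →₀ Y) →+ (ℤ →₀ Y) :=
  (Finsupp.mapDomain.addMonoidHom (fun i => i + j)).comp
    (Finsupp.mapRange.addMonoidHom (DistribSMul.toAddMonoidHom Y s))

theorem tw_single (j : ℤ) (s : S) (i : ℤ) (y : Y) :
    tw j s (Finsupp.single i y) = Finsupp.single (i + j) (s • y) := by
  simp [tw, Finsupp.mapDomain.addMonoidHom, Finsupp.mapDomain_single]

theorem tw_add (j : ℤ) (s t : S) (g : ℤ →₀ Y) : tw j (s + t) g = tw j s g + tw j t g := by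
  induction g using Finsupp.induction_linear with
  | zero => simp
  | add f g hf hg => rw [map_add, map_add, map_add, hf, hg]; abel
  | single i y => rw [tw_single, tw_single, tw_single, add_smul, Finsupp.single_add]

theorem tw_zero (j : ℤ) (g : ℤ →₀ Y) : tw j (0 : S) g = 0 := by
  have := tw_add j (0 : S) 0 g
  rw [add_zero] at this
  exact (add_eq_left.mp this.symm)

theorem tw_tw (i j : ℤ) (s t : S) (g : ℤ →₀ Y) : tw i s (tw j t g) = tw (i + j) (s * t) g := by
  induction g using Finsupp.induction_linear with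
  | zero => simp
  | add f g hf hg => rw [map_add, map_add, map_add, hf, hg]
  | single k y => rw [tw_single, tw_single, tw_single, mul_smul, show k + j + i = k + (i + j) by ring]

theorem tw_one (g : ℤ →₀ Y) : tw 0 (1 : S) g = g := by
  induction g using Finsupp.induction_linear with
  | zero => simp
  | add f g hf hg => rw [map_add, hf, hg]
  | single k y => rw [tw_single, add_zero, one_smul]

theorem tw_support (s : S) (g : ℤ →₀ Y) : (support fun j => tw j (𝒮.c j s) g).Finite := by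
  refine (𝒮.fin s).subset ?_
  intro i hi h0
  apply hi
  change tw i (𝒮.c i s) g = 0
  rw [h0, tw_zero]

/-- the twisted action -/
noncomputable def act (s : S) (g : ℤ →₀ Y) : ℤ →₀ Y := ∑ᶠ j, tw j (𝒮.c j s) g

theorem act_add_left (s t : S) (g : ℤ →₀ Y) : act 𝒮 (s + t) g = act 𝒮 s g + act 𝒮 t g := by
  unfold act
  rw [← finsum_add_distrib (tw_support 𝒮 s g) (tw_support 𝒮 t g)]
  refine finsum_congr fun j => ?_
  rw [map_add, tw_add]

theorem act_add_right (s : S) (g h : ℤ →₀ Y) : act 𝒮 s (g + h) = act 𝒮 s g + act 𝒮 s h := by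
  unfold act
  rw [← finsum_add_distrib (tw_support 𝒮 s g) (tw_support 𝒮 s h)]
  refine finsum_congr fun j => ?_
  rw [map_add]

theorem act_hom (i : ℤ) (s : S) (g : ℤ →₀ Y) : act 𝒮 (𝒮.c i s) g = tw i (𝒮.c i s) g := by
  unfold act
  rw [finsum_eq_single _ i, 𝒮.idem]
  intro j hj
  rw [𝒮.orth _ _ _ hj, tw_zero]

theorem act_zero_left (g : ℤ →₀ Y) : act 𝒮 0 g = 0 := by
  have := act_add_left 𝒮 0 0 g
  rw [add_zero] at this
  exact (add_eq_left.mp this.symm)

theorem act_zero_right (s : S) : act 𝒮 s (0 : ℤ →₀ Y) = 0 := by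
  have := act_add_right 𝒮 s (0 : ℤ →₀ Y) 0
  rw [add_zero] at this
  exact (add_eq_left.mp this.symm)

theorem act_mul (s t : S) (g : ℤ →₀ Y) : act 𝒮 (s * t) g = act 𝒮 s (act 𝒮 t g) := by
  induction s using 𝒮.toDec.induction with
  | h0 => rw [zero_mul, act_zero_left, act_zero_left]
  | hadd x y hx hy => rw [add_mul, act_add_left, act_add_left, hx, hy]
  | hhom i s =>
    induction t using 𝒮.toDec.induction with
    | h0 => rw [mul_zero, act_zero_left, act_zero_right]
    | hadd x y hx hy => rw [mul_add, act_add_left, act_add_left, hx, hy, act_add_right]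
    | hhom j t =>
      rw [act_hom, act_hom, ← 𝒮.mul, act_hom, 𝒮.mul, tw_tw]

theorem act_one (g : ℤ →₀ Y) : act 𝒮 1 g = g := by
  rw [← 𝒮.one, act_hom, 𝒮.one, tw_one]

noncomputable instance : Module S (GM 𝒮 Y) where
  smul s g := act 𝒮 s g
  one_smul g := act_one 𝒮 g
  mul_smul s t g := act_mul 𝒮 s t g
  smul_zero s := act_zero_right 𝒮 s
  smul_add s g h := act_add_right 𝒮 s g h
  add_smul s t g := act_add_left 𝒮 s t g
  zero_smul g := act_zero_left 𝒮 g

/-- `single` into `GM` -/
noncomputable def sg (i : ℤ) : Y →+ GM 𝒮 Y := Finsupp.singleAddHom i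

theorem hom_smul_sg (j : ℤ) (s : S) (i : ℤ) (y : Y) :
    𝒮.c j s • sg 𝒮 i y = sg 𝒮 (i + j) (𝒮.c j s • y) := by
  change act 𝒮 (𝒮.c j s) (Finsupp.single i y) = Finsupp.single (i + j) (𝒮.c j s • y)
  rw [act_hom, tw_single]

/-- evaluation -/
noncomputable def ev (i : ℤ) : GM 𝒮 Y →+ Y := Finsupp.applyAddHom i

/-- component maps of `GM` -/
noncomputable def gmc (i : ℤ) : GM 𝒮 Y →+ GM 𝒮 Y := (sg 𝒮 i).comp (ev 𝒮 i)

theorem gmc_sg_same (i : ℤ) (y : Y) : gmc 𝒮 i (sg 𝒮 i y) = sg 𝒮 i y := by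
  change Finsupp.single i ((Finsupp.single i y : ℤ →₀ Y) i) = Finsupp.single i y
  rw [Finsupp.single_eq_same]

theorem gmc_sg_ne {i j : ℤ} (h : i ≠ j) (y : Y) : gmc 𝒮 i (sg 𝒮 j y) = 0 := by
  change Finsupp.single i ((Finsupp.single j y : ℤ →₀ Y) i) = 0
  rw [Finsupp.single_eq_of_ne (by omega), Finsupp.single_zero]

@[elab_as_elim]
theorem GM_induction {P : GM 𝒮 Y → Prop} (h0 : P 0) (hadd : ∀ x y, P x → P y → P (x + y))
    (hs : ∀ i y, P (sg 𝒮 i y)) (g : GM 𝒮 Y) : P g :=
  Finsupp.induction_linear g h0 hadd hs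

theorem gmc_fin (g : GM 𝒮 Y) : {i | gmc 𝒮 i g ≠ 0}.Finite := by
  induction g using GM_induction with
  | h0 => simp
  | hadd x y hx hy =>
    refine (hx.union hy).subset ?_
    intro i hi
    by_contra h
    simp only [Set.mem_union, not_or] at h
    apply hi
    rw [map_add, not_not.mp h.1, not_not.mp h.2, add_zero]
  | hs j y =>
    refine (Set.finite_singleton j).subset ?_
    intro i hi
    by_contra h
    exact hi (gmc_sg_ne 𝒮 h y)

variable (Y) in
noncomputable def gmGr : Gr 𝒮 (GM 𝒮 Y) where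
  c := gmc 𝒮
  fin g := gmc_fin 𝒮 g
  sum g := by
    induction g using GM_induction with
    | h0 =>
      have : (fun i => gmc 𝒮 i (0 : GM 𝒮 Y)) = fun _ : ℤ => (0 : GM 𝒮 Y) := by
        funext i
        rw [map_zero]
      rw [this, finsum_zero]
    | hadd x y hx hy =>
      conv_rhs => rw [← hx, ← hy]
      rw [← finsum_add_distrib (gmc_fin 𝒮 x) (gmc_fin 𝒮 y)]
      exact finsum_congr fun i => by rw [map_add]
    | hs j y =>
      rw [finsum_eq_single _ j, gmc_sg_same]
      intro i hi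
      exact gmc_sg_ne 𝒮 hi y
  orth i j g h := gmc_sg_ne 𝒮 h _
  smul i j s g := by
    change gmc 𝒮 (i + j) (𝒮.c i s • sg 𝒮 j (ev 𝒮 j g)) = 𝒮.c i s • sg 𝒮 j (ev 𝒮 j g)
    rw [hom_smul_sg, add_comm i j, gmc_sg_same]

theorem gmGr_c (i : ℤ) (g : GM 𝒮 Y) : (gmGr 𝒮 Y).c i g = sg 𝒮 i (ev 𝒮 i g) := rfl

/-- the sum map `G(Y) → Y` as additive map -/
noncomputable def prAdd : GM 𝒮 Y →+ Y :=
  (Finsupp.liftAddHom (fun _ : ℤ => AddMonoidHom.id Y) : (ℤ →₀ Y) →+ Y)

theorem prAdd_sg (i : ℤ) (y : Y) : prAdd 𝒮 (sg 𝒮 i y) = y := by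
  change Finsupp.liftAddHom _ (Finsupp.single _ _) = _
  rw [Finsupp.liftAddHom_apply_single]
  rfl

/-- the sum map `G(Y) → Y` -/
noncomputable def pr : GM 𝒮 Y →ₗ[S] Y where
  toFun g := prAdd 𝒮 g
  map_add' g h := map_add _ _ _
  map_smul' s g := by
    simp only [RingHom.id_apply]
    induction s using 𝒮.toDec.induction with
    | h0 => simp
    | hadd x y hx hy => rw [add_smul, map_add, hx, hy, add_smul]
    | hhom i s =>
      induction g using GM_induction with
      | h0 => rw [smul_zero, map_zero, smul_zero]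
      | hadd x y hx hy => rw [smul_add, map_add, hx, hy, map_add, smul_add]
      | hs j y => rw [hom_smul_sg, prAdd_sg, prAdd_sg]

theorem pr_sg (i : ℤ) (y : Y) : pr 𝒮 (sg 𝒮 i y) = y := prAdd_sg 𝒮 i y

section lift

variable {V : Type*} [AddCommGroup V] [Module S V] (g : Gr 𝒮 V) (f : V →ₗ[S] Y)

/-- the adjoint map `V → G(Y)` -/
noncomputable def lft : V →ₗ[S] GM 𝒮 Y where
  toFun w := ∑ᶠ i, sg 𝒮 i (f (g.c i w))
  map_add' w w' := by
    rw [← finsum_add_distrib]
    · refine finsum_congr fun i => ?_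
      rw [map_add, map_add, map_add]
    · refine (g.fin w).subset fun i hi h0 => hi ?_
      change sg 𝒮 i (f (g.c i w)) = 0
      rw [h0, map_zero, map_zero]
    · refine (g.fin w').subset fun i hi h0 => hi ?_
      change sg 𝒮 i (f (g.c i w')) = 0
      rw [h0, map_zero, map_zero]
  map_smul' s w := by
    simp only [RingHom.id_apply]
    have key : ∀ w, (support fun i => sg 𝒮 i (f (g.c i w))).Finite := by
      intro w
      refine (g.fin w).subset fun i hi h0 => hi ?_
      change sg 𝒮 i (f (g.c i w)) = 0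
      rw [h0, map_zero, map_zero]
    have hadd : ∀ w w', (∑ᶠ i, sg 𝒮 i (f (g.c i (w + w')))) =
        (∑ᶠ i, sg 𝒮 i (f (g.c i w))) + ∑ᶠ i, sg 𝒮 i (f (g.c i w')) := by
      intro w w'
      rw [← finsum_add_distrib (key w) (key w')]
      refine finsum_congr fun i => ?_
      rw [map_add, map_add, map_add]
    have hhom : ∀ k w, (∑ᶠ i, sg 𝒮 i (f (g.c i (g.c k w)))) = sg 𝒮 k (f (g.c k w)) := by
      intro k w
      rw [finsum_eq_single _ k, g.idem]
      intro j hj
      rw [g.orth _ _ _ hj, map_zero, map_zero]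
    have h0' : (∑ᶠ i, sg 𝒮 i (f (g.c i 0))) = 0 := by
      have : (fun i => sg 𝒮 i (f (g.c i 0))) = fun _ : ℤ => (0 : GM 𝒮 Y) := by
        funext i
        rw [map_zero, map_zero, map_zero]
      rw [this, finsum_zero]
    induction s using 𝒮.toDec.induction with
    | h0 => rw [zero_smul, zero_smul]; exact h0'
    | hadd x y hx hy => rw [add_smul, hadd, hx, hy, add_smul]
    | hhom j s =>
      induction w using g.toDec.induction with
      | h0 => rw [smul_zero, h0', smul_zero]
      | hadd x y hx hy => rw [smul_add, hadd, hx, hy, hadd, smul_add]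
      | hhom i w =>
        rw [hhom, hom_smul_sg]
        have h1 : 𝒮.c j s • g.c i w = g.c (i + j) (𝒮.c j s • g.c i w) := by
          rw [add_comm, g.smul]
        rw [h1, hhom, ← h1, map_smul]

theorem lft_apply (w : V) : lft 𝒮 g f w = ∑ᶠ i, sg 𝒮 i (f (g.c i w)) := rfl

theorem lft_c (k : ℤ) (w : V) : lft 𝒮 g f (g.c k w) = sg 𝒮 k (f (g.c k w)) := by
  rw [lft_apply, finsum_eq_single _ k, g.idem]
  intro j hj
  rw [g.orth _ _ _ hj, map_zero, map_zero]

theorem lft_homD : g.HomD (gmGr 𝒮 Y) 0 (lft 𝒮 g f) := by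
  intro k w
  rw [lft_c, add_zero]
  induction w using g.toDec.induction with
  | h0 => simp
  | hadd x y hx hy => rw [map_add, map_add, map_add, hx, hy, map_add, map_add]
  | hhom i w =>
    rw [lft_c]
    by_cases h : k = i
    · subst h
      rw [g.idem]
      exact (gmc_sg_same 𝒮 _ _).symm
    · rw [g.orth _ _ _ h, map_zero, map_zero]
      exact (gmc_sg_ne 𝒮 h _).symm

theorem pr_lft (w : V) : pr 𝒮 (lft 𝒮 g f w) = f w := by
  induction w using g.toDec.induction with
  | h0 => simp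
  | hadd x y hx hy => rw [map_add, map_add, map_add, hx, hy]
  | hhom i w => rw [lft_c, pr_sg]

end lift

end Pool.Agent.Helper22.Grad
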