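import Mathlib

/-!
# Weighted `ℓ¹` norms on polynomials in finitely many variables
-/

namespace Helper22.Mor

open MvPolynomial

noncomputable section

variable {σ : Type*} {𝕜 : Type*} [NormedField 𝕜]

/-- weighted `ℓ¹` norm -/
def pN (r : ℝ) (a : MvPolynomial σ 𝕜) : ℝ :=
  ∑ α ∈ a.support, ‖a.coeff α‖ * r ^ α.degree

lemma pN_eq_sum (r : ℝ) (a : MvPolynomial σ 𝕜) {s : Finset (σ →₀ ℕ)} (hs : a.support ⊆ s) :
    pN r a = ∑ α ∈ s, ‖a.coeff α‖ * r ^ α.degree := by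
  unfold pN
  apply Finset.sum_subset hs
  intro α _ hα
  rw [MvPolynomial.notMem_support_iff.mp hα]
  simp

lemma pN_nonneg {r : ℝ} (hr : 0 ≤ r) (a : MvPolynomial σ 𝕜) : 0 ≤ pN r a :=
  Finset.sum_nonneg fun _ _ => by positivity

@[simp] lemma pN_zero (r : ℝ) : pN r (0 : MvPolynomial σ 𝕜) = 0 := by
  simp [pN]

lemma pN_add_le {r : ℝ} (hr : 0 ≤ r) (a b : MvPolynomial σ 𝕜) :
    pN r (a + b) ≤ pN r a + pN r b := by
  classical
  have h1 : (a + b).support ⊆ a.support ∪ b.support := MvPolynomial.support_add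
  rw [pN_eq_sum r (a + b) h1, pN_eq_sum r a (s := a.support ∪ b.support) Finset.subset_union_left,
    pN_eq_sum r b (s := a.support ∪ b.support) Finset.subset_union_right, ← Finset.sum_add_distrib]
  apply Finset.sum_le_sum
  intro α _
  rw [← add_mul]
  apply mul_le_mul_of_nonneg_right _ (by positivity)
  rw [coeff_add]
  exact norm_add_le _ _

lemma pN_neg (r : ℝ) (a : MvPolynomial σ 𝕜) : pN r (-a) = pN r a := by
  simp [pN]

lemma pN_sub_le {r : ℝ} (hr : 0 ≤ r) (a b : MvPolynomial σ 𝕜) :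
    pN r (a - b) ≤ pN r a + pN r b := by
  rw [sub_eq_add_neg]
  refine (pN_add_le hr _ _).trans ?_
  rw [pN_neg]

lemma pN_sum_le {r : ℝ} (hr : 0 ≤ r) {ι : Type*} (s : Finset ι) (a : ι → MvPolynomial σ 𝕜) :
    pN r (∑ i ∈ s, a i) ≤ ∑ i ∈ s, pN r (a i) := by
  classical
  induction s using Finset.induction_on with
  | empty => simp
  | insert i s hi ih =>
    rw [Finset.sum_insert hi, Finset.sum_insert hi]
    exact (pN_add_le hr _ _).trans (add_le_add le_rfl ih)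

lemma pN_monomial (r : ℝ) (α : σ →₀ ℕ) (c : 𝕜) :
    pN r (monomial α c) = ‖c‖ * r ^ α.degree := by
  classical
  rw [pN_eq_sum r (monomial α c) (s := {α}) MvPolynomial.support_monomial_subset]
  simp

lemma pN_C (r : ℝ) (c : 𝕜) : pN r (C c : MvPolynomial σ 𝕜) = ‖c‖ := by
  rw [← monomial_zero', pN_monomial]; simp

lemma pN_X (r : ℝ) (i : σ) : pN r (X i : MvPolynomial σ 𝕜) = r := by
  rw [X, pN_monomial]; simp

lemma pN_one (r : ℝ) : pN r (1 : MvPolynomial σ 𝕜) = 1 := by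
  rw [← C_1, pN_C]; simp

lemma pN_C_mul (r : ℝ) (c : 𝕜) (a : MvPolynomial σ 𝕜) :
    pN r (C c * a) = ‖c‖ * pN r a := by
  classical
  have h1 : (C c * a).support ⊆ a.support := by
    intro α hα
    rw [MvPolynomial.mem_support_iff] at hα ⊢
    rw [coeff_C_mul] at hα
    exact right_ne_zero_of_mul hα
  rw [pN_eq_sum r _ h1, pN, Finset.mul_sum]
  apply Finset.sum_congr rfl
  intro α _
  rw [coeff_C_mul, norm_mul, mul_assoc]

lemma pN_monomial_mul_le {r : ℝ} (hr : 0 ≤ r) (α : σ →₀ ℕ) (c : 𝕜) (b : MvPolynomial σ 𝕜) :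
    pN r (monomial α c * b) ≤ ‖c‖ * r ^ α.degree * pN r b := by
  classical
  have h : monomial α c * b = ∑ β ∈ b.support, monomial (α + β) (c * b.coeff β) := by
    conv_lhs => rw [b.as_sum]
    rw [Finset.mul_sum]
    apply Finset.sum_congr rfl
    intro β _
    rw [monomial_mul]
  rw [h]
  refine (pN_sum_le hr _ _).trans ?_
  rw [pN, Finset.mul_sum]
  apply Finset.sum_le_sum
  intro β _
  rw [pN_monomial, map_add, norm_mul, pow_add]
  apply le_of_eq
  ring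

lemma pN_mul_le {r : ℝ} (hr : 0 ≤ r) (a b : MvPolynomial σ 𝕜) :
    pN r (a * b) ≤ pN r a * pN r b := by
  classical
  have h : a * b = ∑ α ∈ a.support, monomial α (a.coeff α) * b := by
    conv_lhs => rw [a.as_sum]
    rw [Finset.sum_mul]
  rw [h]
  refine (pN_sum_le hr _ _).trans ?_
  conv_rhs => rw [pN, Finset.sum_mul]
  apply Finset.sum_le_sum
  intro α _
  exact pN_monomial_mul_le hr _ _ _

lemma pN_pow_le {r : ℝ} (hr : 0 ≤ r) (a : MvPolynomial σ 𝕜) (n : ℕ) :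
    pN r (a ^ n) ≤ pN r a ^ n := by
  induction n with
  | zero => simp [pN_one]
  | succ n ih =>
    rw [pow_succ, pow_succ]
    refine (pN_mul_le hr _ _).trans ?_
    exact mul_le_mul_of_nonneg_right ih (pN_nonneg hr _)

lemma pN_prod_le {r : ℝ} (hr : 0 ≤ r) {ι : Type*} (s : Finset ι) (a : ι → MvPolynomial σ 𝕜) :
    pN r (∏ i ∈ s, a i) ≤ ∏ i ∈ s, pN r (a i) := by
  classical
  induction s using Finset.induction_on with
  | empty => simp [pN_one]
  | insert i s hi ih =>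
    rw [Finset.prod_insert hi, Finset.prod_insert hi]
    refine (pN_mul_le hr _ _).trans ?_
    exact mul_le_mul_of_nonneg_left ih (pN_nonneg hr _)

lemma pN_mono {r r' : ℝ} (hr : 0 ≤ r) (h : r ≤ r') (a : MvPolynomial σ 𝕜) :
    pN r a ≤ pN r' a := by
  apply Finset.sum_le_sum
  intro α _
  exact mul_le_mul_of_nonneg_left (pow_le_pow_left₀ hr h _) (norm_nonneg _)

lemma norm_prod_pow_le {r : ℝ} [Fintype σ] {z : σ → 𝕜} (hz : ∀ i, ‖z i‖ ≤ r)
    (α : σ →₀ ℕ) : ‖∏ i, z i ^ α i‖ ≤ r ^ α.degree := by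
  rw [norm_prod, Finsupp.degree_eq_sum, ← Finset.prod_pow_eq_pow_sum]
  apply Finset.prod_le_prod
  · intro i _; positivity
  · intro i _
    rw [norm_pow]
    exact pow_le_pow_left₀ (norm_nonneg _) (hz i) _

lemma norm_eval_le [Fintype σ] {r : ℝ} {z : σ → 𝕜} (hz : ∀ i, ‖z i‖ ≤ r)
    (a : MvPolynomial σ 𝕜) : ‖eval z a‖ ≤ pN r a := by
  rw [eval_eq']
  refine (norm_sum_le _ _).trans ?_
  apply Finset.sum_le_sum
  intro α _
  rw [norm_mul]
  exact mul_le_mul_of_nonneg_left (norm_prod_pow_le hz α) (norm_nonneg _)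

lemma norm_coeff_le (a : MvPolynomial σ 𝕜) (α : σ →₀ ℕ) : ‖a.coeff α‖ ≤ pN 1 a := by
  classical
  by_cases h : α ∈ a.support
  · have := Finset.single_le_sum (f := fun α => ‖a.coeff α‖ * (1 : ℝ) ^ α.degree)
      (fun β _ => by positivity) h
    simpa [pN] using this
  · rw [MvPolynomial.notMem_support_iff.mp h]
    simpa using pN_nonneg zero_le_one a

/-- if all exponents of `a` have degree `≥ k`, then `|a(z)| ≤ N₁(a) ‖z‖^k` on the unit polydisc. -/
lemma norm_eval_le_pow [Fintype σ] {r : ℝ} (hr0 : 0 ≤ r) (hr : r ≤ 1) {z : σ → 𝕜}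
    (hz : ∀ i, ‖z i‖ ≤ r)
    (a : MvPolynomial σ 𝕜) (k : ℕ) (hk : ∀ α ∈ a.support, k ≤ α.degree) :
    ‖eval z a‖ ≤ pN 1 a * r ^ k := by
  rw [eval_eq']
  refine (norm_sum_le _ _).trans ?_
  rw [pN, Finset.sum_mul]
  apply Finset.sum_le_sum
  intro α hα
  rw [norm_mul]
  have h1 : ‖∏ i, z i ^ α i‖ ≤ r ^ k :=
    (norm_prod_pow_le hz α).trans (pow_le_pow_of_le_one hr0 hr (hk α hα))
  calc ‖coeff α a‖ * ‖∏ i, z i ^ α i‖ ≤ ‖coeff α a‖ * r ^ k :=
        mul_le_mul_of_nonneg_left h1 (norm_nonneg _)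
    _ = _ := by simp

end

end Helper22.Mor
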