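import Mathlib
import Pool.Agent.Helper22.MorNorm

/-!
# Translations and second order Taylor expansion of polynomials
-/

namespace Helper22.Mor

open MvPolynomial

noncomputable section

variable {σ : Type*} {𝕜 : Type*} [NormedField 𝕜]

/-- translation of a polynomial -/
def tr (p : σ → 𝕜) : MvPolynomial σ 𝕜 →ₐ[𝕜] MvPolynomial σ 𝕜 := aeval (fun i => X i + C (p i))

lemma eval_tr (p z : σ → 𝕜) (a : MvPolynomial σ 𝕜) : eval z (tr p a) = eval (z + p) a := by
  induction a using MvPolynomial.induction_on with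
  | C c => simp [tr]
  | add a b ha hb => simp [ha, hb]
  | mul_X a i ha => simp [tr] at ha ⊢; simp [ha]

lemma pderiv_tr (p : σ → 𝕜) (l : σ) (a : MvPolynomial σ 𝕜) :
    pderiv l (tr p a) = tr p (pderiv l a) := by
  classical
  induction a using MvPolynomial.induction_on with
  | C c => simp [tr]
  | add a b ha hb => simp [ha, hb]
  | mul_X a i ha =>
    rw [map_mul, pderiv_mul, pderiv_mul, map_add, map_mul, map_mul, ha]
    congr 2
    simp only [tr, aeval_X, map_add, pderiv_C, add_zero, pderiv_X]
    by_cases h : l = i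
    · subst h; simp
    · simp [h]

lemma pderiv_pderiv_comm (i j : σ) (a : MvPolynomial σ 𝕜) :
    pderiv i (pderiv j a) = pderiv j (pderiv i a) := by
  classical
  by_cases hij : i = j
  · subst hij; rfl
  · ext α
    rw [coeff_pderiv, coeff_pderiv, coeff_pderiv, coeff_pderiv]
    rw [add_right_comm]
    simp only [Finsupp.add_apply, Finsupp.single_apply, hij, Ne.symm hij, if_false, add_zero]
    ring

lemma tr_sub_bound [Fintype σ] (a : MvPolynomial σ 𝕜) :
    ∃ K : ℝ, 0 ≤ K ∧ ∀ p : σ → 𝕜, ‖p‖ ≤ 1 → pN 1 (tr p a - a) ≤ K * ‖p‖ := by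
  induction a using MvPolynomial.induction_on with
  | C c => exact ⟨0, le_rfl, fun p _ => by simp [tr]⟩
  | add a b ha hb =>
    obtain ⟨Ka, hKa, ha⟩ := ha
    obtain ⟨Kb, hKb, hb⟩ := hb
    refine ⟨Ka + Kb, by positivity, fun p hp => ?_⟩
    have : tr p (a + b) - (a + b) = (tr p a - a) + (tr p b - b) := by
      rw [map_add]; ring
    rw [this]
    refine (pN_add_le zero_le_one _ _).trans ?_
    have h1 := ha p hp
    have h2 := hb p hp
    linarith
  | mul_X a i ha =>
    obtain ⟨Ka, hKa, ha⟩ := ha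
    refine ⟨2 * Ka + pN 1 a, by have := pN_nonneg zero_le_one a; positivity, fun p hp => ?_⟩
    have : tr p (a * X i) - a * X i = (tr p a - a) * (X i + C (p i)) + a * C (p i) := by
      rw [map_mul]
      simp only [tr, aeval_X]
      ring
    rw [this]
    refine (pN_add_le zero_le_one _ _).trans ?_
    have h1 := ha p hp
    have hpi : ‖p i‖ ≤ ‖p‖ := norm_le_pi_norm p i
    have h2 : pN 1 ((tr p a - a) * (X i + C (p i))) ≤ Ka * ‖p‖ * 2 := by
      refine (pN_mul_le zero_le_one _ _).trans ?_
      apply mul_le_mul h1 _ (pN_nonneg zero_le_one _) (by positivity)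
      refine (pN_add_le zero_le_one _ _).trans ?_
      rw [pN_X, pN_C]
      linarith
    have h3 : pN 1 (a * C (p i)) ≤ pN 1 a * ‖p‖ := by
      refine (pN_mul_le zero_le_one _ _).trans ?_
      rw [pN_C]
      exact mul_le_mul_of_nonneg_left hpi (pN_nonneg zero_le_one _)
    linarith

lemma pN_tr_le [Fintype σ] {r : ℝ} (hr : 0 ≤ r) (p : σ → 𝕜) (a : MvPolynomial σ 𝕜) :
    pN r (tr p a) ≤ pN (r + ‖p‖) a := by
  classical
  conv_lhs => rw [a.as_sum, map_sum]
  refine (pN_sum_le hr _ _).trans ?_
  rw [pN]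
  apply Finset.sum_le_sum
  intro α _
  have h1 : tr p (monomial α (coeff α a)) =
      C (coeff α a) * ∏ i, (X i + C (p i)) ^ α i := by
    rw [tr, aeval_monomial, Finsupp.prod_fintype _ _ (fun i => pow_zero _)]
    rfl
  rw [h1, pN_C_mul]
  apply mul_le_mul_of_nonneg_left _ (norm_nonneg _)
  refine (pN_prod_le hr _ _).trans ?_
  rw [Finsupp.degree_eq_sum, ← Finset.prod_pow_eq_pow_sum]
  apply Finset.prod_le_prod
  · intro i _; exact pN_nonneg hr _
  · intro i _
    refine (pN_pow_le hr _ _).trans ?_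
    apply pow_le_pow_left₀ (pN_nonneg hr _)
    refine (pN_add_le hr _ _).trans ?_
    rw [pN_X, pN_C]
    have := norm_le_pi_norm p i
    linarith

lemma eval_smul_of_homog [Fintype σ] {n : ℕ} {a : MvPolynomial σ 𝕜} (ha : a.IsHomogeneous n)
    (t : 𝕜) (z : σ → 𝕜) : eval (t • z) a = t ^ n * eval z a := by
  rw [eval_eq', eval_eq', Finset.mul_sum]
  apply Finset.sum_congr rfl
  intro α hα
  have hdeg : α.degree = n := by
    have := ha (MvPolynomial.mem_support_iff.mp hα)
    rw [Finsupp.degree_eq_weight_one]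
    exact this
  simp only [Pi.smul_apply, smul_eq_mul, mul_pow, Finset.prod_mul_distrib]
  rw [Finset.prod_pow_eq_pow_sum, ← Finsupp.degree_eq_sum, hdeg]
  ring

lemma eval_zero_eq (a : MvPolynomial σ 𝕜) : eval 0 a = coeff 0 a := by
  rw [← constantCoeff_eq, eval_zero]

lemma hc_zero (a : MvPolynomial σ 𝕜) : homogeneousComponent 0 a = C (eval 0 a) := by
  rw [homogeneousComponent_zero, eval_zero_eq]

lemma hc_one [Fintype σ] (a : MvPolynomial σ 𝕜) :
    homogeneousComponent 1 a = ∑ j, C (eval 0 (pderiv j a)) * X j := by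
  classical
  have h := (homogeneousComponent_isHomogeneous 1 a).sum_X_mul_pderiv
  rw [one_smul] at h
  rw [← h]
  apply Finset.sum_congr rfl
  intro j _
  rw [mul_comm]
  congr 1
  have h0 : (pderiv j (homogeneousComponent 1 a)).IsHomogeneous 0 :=
    (homogeneousComponent_isHomogeneous 1 a).pderiv
  rw [← homogeneousComponent_eq_self h0, homogeneousComponent_zero]
  congr 1
  rw [coeff_pderiv, coeff_homogeneousComponent]
  rw [eval_zero_eq, coeff_pderiv]
  simp

lemma hc_two [Fintype σ] [CharZero 𝕜] (a : MvPolynomial σ 𝕜) :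
    homogeneousComponent 2 a =
      ∑ j, ∑ m, C (eval 0 (pderiv m (pderiv j a)) / 2) * (X j * X m) := by
  classical
  have h := (homogeneousComponent_isHomogeneous 2 a).sum_X_mul_pderiv
  have h2 : ∀ j, pderiv j (homogeneousComponent 2 a) =
      ∑ m, C (eval 0 (pderiv m (pderiv j a))) * X m := by
    intro j
    have h3 : (pderiv j (homogeneousComponent 2 a)).IsHomogeneous 1 :=
      (homogeneousComponent_isHomogeneous 2 a).pderiv
    rw [← homogeneousComponent_eq_self h3, hc_one]
    apply Finset.sum_congr rfl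
    intro m _
    congr 2
    rw [eval_zero_eq, eval_zero_eq, coeff_pderiv, coeff_pderiv, coeff_pderiv, coeff_pderiv, coeff_homogeneousComponent]
    simp
  have h4 : homogeneousComponent 2 a = C (1 / 2 : 𝕜) * ((2 : ℕ) • homogeneousComponent 2 a) := by
    rw [nsmul_eq_mul, ← mul_assoc]
    have : (C (1 / 2 : 𝕜) * ((2 : ℕ) : MvPolynomial σ 𝕜)) = 1 := by
      rw [← C_eq_coe_nat, ← C_mul]
      simp
    rw [this, one_mul]
  rw [h4, ← h, Finset.mul_sum]
  apply Finset.sum_congr rfl
  intro j _
  rw [h2, Finset.mul_sum, Finset.mul_sum]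
  apply Finset.sum_congr rfl
  intro m _
  rw [div_eq_mul_one_div (eval 0 (pderiv m (pderiv j a))) 2, C_mul]
  ring

lemma taylor2 [Fintype σ] [CharZero 𝕜] (a : MvPolynomial σ 𝕜) :
    ∃ r : MvPolynomial σ 𝕜, a = C (eval 0 a) + ∑ j, C (eval 0 (pderiv j a)) * X j +
      ∑ j, ∑ m, C (eval 0 (pderiv m (pderiv j a)) / 2) * (X j * X m) + r ∧
      (∀ α ∈ r.support, 3 ≤ α.degree) ∧ pN 1 r ≤ pN 1 a := by
  classical
  refine ⟨a - homogeneousComponent 0 a - homogeneousComponent 1 a - homogeneousComponent 2 a,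
    ?_, ?_, ?_⟩
  · rw [← hc_zero, ← hc_one, ← hc_two]; ring
  · intro α hα
    rw [MvPolynomial.mem_support_iff] at hα
    by_contra hcon
    apply hα
    simp only [coeff_sub, coeff_homogeneousComponent]
    push Not at hcon
    have : α.degree = 0 ∨ α.degree = 1 ∨ α.degree = 2 := by omega
    rcases this with h | h | h <;> simp [h]
  · have hco : ∀ α : σ →₀ ℕ, ‖coeff α (a - homogeneousComponent 0 a - homogeneousComponent 1 a -
        homogeneousComponent 2 a)‖ ≤ ‖coeff α a‖ := by
      intro α
      simp only [coeff_sub, coeff_homogeneousComponent]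
      by_cases h0 : α.degree = 0
      · simp [h0]
      · by_cases h1 : α.degree = 1
        · simp [h1]
        · by_cases h2 : α.degree = 2
          · simp [h2]
          · simp [h0, h1, h2]
    have hs : (a - homogeneousComponent 0 a - homogeneousComponent 1 a -
        homogeneousComponent 2 a).support ⊆ a.support := by
      intro α hα
      rw [MvPolynomial.mem_support_iff] at hα ⊢
      intro h
      apply hα
      have := hco α
      rw [h, norm_zero] at this
      exact norm_le_zero_iff.mp this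
    rw [pN_eq_sum 1 _ hs, pN]
    apply Finset.sum_le_sum
    intro α _
    exact mul_le_mul_of_nonneg_right (hco α) (by positivity)

end

end Helper22.Mor
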