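import Mathlib
import Pool.Agent.Helper22.MorTaylor

/-!
# Cauchy bounds for the coefficients of a polynomial in four variables
-/

namespace Helper22.Mor

open MvPolynomial

noncomputable section

lemma geom_root_sum {N : ℕ} {q : ℂ} (hq : q ^ N = 1) (hq1 : q ≠ 1) :
    ∑ k : Fin N, q ^ (k : ℕ) = 0 := by
  rw [Fin.sum_univ_eq_sum_range (fun k => q ^ k) N, geom_sum_eq hq1, hq]
  simp

lemma coeff_bound (a : MvPolynomial (Fin 4) ℂ) (ρ : ℝ) (hρ : 0 < ρ) (E : ℝ)
    (h : ∀ z : Fin 4 → ℂ, (∀ i, ‖z i‖ = ρ) → ‖eval z a‖ ≤ E) (α : Fin 4 →₀ ℕ) :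
    ‖coeff α a‖ * ρ ^ α.degree ≤ E := by
  classical
  set N : ℕ := a.totalDegree + α.degree + 1 with hN
  have hN0 : N ≠ 0 := by omega
  have hω := Complex.isPrimitiveRoot_exp N hN0
  set ω : ℂ := Complex.exp (2 * Real.pi * Complex.I / N) with hωdef
  have hωnorm : ‖ω‖ = 1 := hω.norm'_eq_one hN0
  have hω0 : ω ≠ 0 := by
    intro h0; rw [h0] at hωnorm; simp at hωnorm
  set z : (Fin 4 → Fin N) → (Fin 4 → ℂ) := fun k i => (ρ : ℂ) * ω ^ (k i : ℕ) with hz
  set w : (Fin 4 → Fin N) → ℂ := fun k => ∏ i, (ω ^ (α i))⁻¹ ^ (k i : ℕ) with hw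
  have hznorm : ∀ k i, ‖z k i‖ = ρ := by
    intro k i
    simp [hz, hωnorm, abs_of_pos hρ]
  have hwnorm : ∀ k, ‖w k‖ = 1 := by
    intro k
    simp [hw, norm_prod, hωnorm]
  have hβN : ∀ β ∈ a.support, ∀ i, β i < N := by
    intro β hβ i
    have h1 : β i ≤ β.degree := Finsupp.le_degree i β
    have h2 : β.degree ≤ a.totalDegree := by
      have := MvPolynomial.le_totalDegree hβ
      rw [Finsupp.degree_apply]
      exact this
    omega
  have hαN : ∀ i, α i < N := by
    intro i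
    have h1 : α i ≤ α.degree := Finsupp.le_degree i α
    omega
  have key : ∑ k, w k * eval (z k) a = coeff α a * (ρ : ℂ) ^ α.degree * (N : ℂ) ^ 4 := by
    have h1 : ∀ k, w k * eval (z k) a = ∑ β ∈ a.support, coeff β a * (ρ : ℂ) ^ β.degree *
        ∏ i, (ω ^ (β i) * (ω ^ (α i))⁻¹) ^ (k i : ℕ) := by
      intro k
      rw [eval_eq', Finset.mul_sum]
      apply Finset.sum_congr rfl
      intro β _
      simp only [hz, hw, mul_pow, Finset.prod_mul_distrib]
      rw [Finset.prod_pow_eq_pow_sum, ← Finsupp.degree_eq_sum]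
      have : ∀ i, (ω ^ (k i : ℕ)) ^ (β i) = (ω ^ (β i)) ^ (k i : ℕ) := by
        intro i; rw [← pow_mul, ← pow_mul, mul_comm]
      simp only [this]
      ring
    simp only [h1]
    rw [Finset.sum_comm]
    have h2 : ∀ β ∈ a.support, ∑ k : Fin 4 → Fin N, coeff β a * (ρ : ℂ) ^ β.degree *
        ∏ i, (ω ^ (β i) * (ω ^ (α i))⁻¹) ^ (k i : ℕ) =
        if β = α then coeff α a * (ρ : ℂ) ^ α.degree * (N : ℂ) ^ 4 else 0 := by
      intro β hβ
      rw [← Finset.mul_sum]
      have h3 : ∑ k : Fin 4 → Fin N, ∏ i, (ω ^ (β i) * (ω ^ (α i))⁻¹) ^ (k i : ℕ) =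
          ∏ i, ∑ k : Fin N, (ω ^ (β i) * (ω ^ (α i))⁻¹) ^ (k : ℕ) := by
        rw [Finset.prod_univ_sum]
        rw [Fintype.piFinset_univ]
      rw [h3]
      by_cases hβα : β = α
      · rw [if_pos hβα, hβα]
        have : ∀ i, ω ^ (α i) * (ω ^ (α i))⁻¹ = 1 := fun i =>
          mul_inv_cancel₀ (pow_ne_zero _ hω0)
        simp [this]
      · rw [if_neg hβα]
        have : ∃ i, β i ≠ α i := by
          by_contra hcon
          push Not at hcon
          exact hβα (Finsupp.ext hcon)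
        obtain ⟨i, hi⟩ := this
        have h4 : ∑ k : Fin N, (ω ^ (β i) * (ω ^ (α i))⁻¹) ^ (k : ℕ) = 0 := by
          apply geom_root_sum
          · rw [mul_pow, inv_pow, ← pow_mul, ← pow_mul, mul_comm (β i), mul_comm (α i), pow_mul,
              pow_mul, hω.pow_eq_one]
            simp
          · intro h5
            apply hi
            apply hω.pow_inj (hβN β hβ i) (hαN i)
            have h6 : ω ^ (α i) ≠ 0 := pow_ne_zero _ hω0
            field_simp at h5
            exact h5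
        rw [Finset.prod_eq_zero (Finset.mem_univ i) h4, mul_zero]
    rw [Finset.sum_congr rfl h2, Finset.sum_ite_eq']
    split_ifs with h3
    · rfl
    · rw [MvPolynomial.notMem_support_iff.mp h3]
      ring
  have hb : ‖∑ k, w k * eval (z k) a‖ ≤ (N : ℝ) ^ 4 * E := by
    refine (norm_sum_le _ _).trans ?_
    have : ∀ k ∈ (Finset.univ : Finset (Fin 4 → Fin N)), ‖w k * eval (z k) a‖ ≤ E := by
      intro k _
      rw [norm_mul, hwnorm, one_mul]
      exact h _ (hznorm k)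
    refine (Finset.sum_le_sum this).trans ?_
    simp
  rw [key, norm_mul, norm_mul, norm_pow, norm_pow] at hb
  have hN4 : (0 : ℝ) < (N : ℝ) ^ 4 := by positivity
  have h5 : ‖(N : ℂ)‖ = N := by simp
  have h6 : ‖(ρ : ℂ)‖ = ρ := by simp [abs_of_pos hρ]
  rw [h5, h6] at hb
  rw [mul_comm ((N : ℝ) ^ 4) E] at hb
  exact le_of_mul_le_mul_right hb hN4

end

end Helper22.Mor
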