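import Mathlib
import Pool.Agent.Helper22.MorCoeff

/-!
# Expansion of analytic functions of four variables in homogeneous polynomials
-/

namespace Helper22.Mor

open MvPolynomial Filter Topology Metric
open scoped NNReal ENNReal

noncomputable section

/-- the homogeneous polynomial attached to a multilinear map -/
def polyOf {d : ℕ} (p : ContinuousMultilinearMap ℂ (fun _ : Fin d => Fin 4 → ℂ) ℂ) :
    MvPolynomial (Fin 4) ℂ :=
  ∑ φ : Fin d → Fin 4, C (p (fun i => Pi.single (φ i) 1)) * ∏ i, X (φ i)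

lemma polyOf_homog {d : ℕ} (p : ContinuousMultilinearMap ℂ (fun _ : Fin d => Fin 4 → ℂ) ℂ) :
    (polyOf p).IsHomogeneous d := by
  unfold polyOf
  apply IsHomogeneous.sum
  intro φ _
  have h1 : (∏ i : Fin d, X (φ i) : MvPolynomial (Fin 4) ℂ).IsHomogeneous (∑ i : Fin d, 1) :=
    IsHomogeneous.prod _ _ _ (fun i _ => isHomogeneous_X ℂ (φ i))
  have h2 := (isHomogeneous_C (Fin 4) (p (fun i => Pi.single (φ i) 1))).mul h1
  simpa using h2

lemma eval_polyOf {d : ℕ} (p : ContinuousMultilinearMap ℂ (fun _ : Fin d => Fin 4 → ℂ) ℂ)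
    (z : Fin 4 → ℂ) : eval z (polyOf p) = p (fun _ => z) := by
  classical
  have hz : z = ∑ j, z j • (Pi.single j 1 : Fin 4 → ℂ) := by
    ext i
    simp [Finset.sum_apply, Pi.single_apply]
  have h1 : p (fun _ => z) = ∑ φ : Fin d → Fin 4, p (fun i => z (φ i) • Pi.single (φ i) 1) := by
    conv_lhs => rw [hz]
    exact p.map_sum (fun _ j => z j • (Pi.single j 1 : Fin 4 → ℂ))
  rw [h1, polyOf, map_sum]
  apply Finset.sum_congr rfl
  intro φ _
  rw [p.map_smul_univ]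
  simp only [map_mul, eval_C, map_prod, eval_X, smul_eq_mul]
  ring

lemma norm_cauchy_coeff_le (h : ℂ → ℂ) (E : ℝ) (hE : ∀ ζ : ℂ, ‖ζ‖ ≤ 1 → ‖h ζ‖ ≤ E) (n : ℕ) :
    ‖cauchyPowerSeries h 0 1 n‖ ≤ E := by
  refine (norm_cauchyPowerSeries_le h 0 1 n).trans ?_
  have h1 : ∫ θ : ℝ in (0)..2 * Real.pi, ‖h (circleMap 0 1 θ)‖ ≤ E * (2 * Real.pi) := by
    have h2 : ∀ θ ∈ Set.uIoc 0 (2 * Real.pi), ‖(‖h (circleMap 0 1 θ)‖ : ℝ)‖ ≤ E := by
      intro θ _
      rw [norm_norm]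
      apply hE
      simp
    have h3 := intervalIntegral.norm_integral_le_of_norm_le_const h2
    rw [sub_zero, abs_of_pos (by positivity : (0 : ℝ) < 2 * Real.pi)] at h3
    exact (le_abs_self _).trans h3
  have h4 : (2 * Real.pi)⁻¹ * ∫ θ : ℝ in (0)..2 * Real.pi, ‖h (circleMap 0 1 θ)‖ ≤ E := by
    rw [inv_mul_le_iff₀ (by positivity)]
    linarith
  simpa using h4

lemma exists_expansion (D : (Fin 4 → ℂ) → ℂ) (R : ℝ) (hR : 0 < R)
    (hD : AnalyticOnNhd ℂ D (ball 0 R)) :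
    ∃ Q : ℕ → MvPolynomial (Fin 4) ℂ, (∀ d, (Q d).IsHomogeneous d) ∧
      ∀ z ∈ ball (0 : Fin 4 → ℂ) R, HasSum (fun d => eval z (Q d)) (D z) ∧
        ∀ E : ℝ, (∀ z ∈ ball (0 : Fin 4 → ℂ) R, ‖D z‖ ≤ E) → ∀ d, ‖eval z (Q d)‖ ≤ E := by
  obtain ⟨p, hp⟩ := hD 0 (mem_ball_self hR)
  refine ⟨fun d => polyOf (p d), fun d => polyOf_homog _, fun z hz => ?_⟩
  rw [mem_ball_zero_iff] at hz
  -- the slice
  set u : ℂ →L[ℂ] (Fin 4 → ℂ) := ContinuousLinearMap.toSpanSingleton ℂ z with hu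
  have hu0 : ∀ ζ, u ζ = ζ • z := fun ζ => ContinuousLinearMap.toSpanSingleton_apply ..
  have hps : HasFPowerSeriesAt (D ∘ u) (p.compContinuousLinearMap u) 0 := by
    apply HasFPowerSeriesAt.compContinuousLinearMap
    rw [map_zero]
    exact hp
  -- radius larger than one
  obtain ⟨ρ, hρ1, hρz⟩ : ∃ ρ : ℝ≥0, 1 < ρ ∧ (ρ : ℝ) * ‖z‖ < R := by
    have hn := norm_nonneg z
    have h0 : 0 < (R - ‖z‖) / (‖z‖ + 1) := div_pos (by linarith) (by linarith)
    refine ⟨Real.toNNReal (1 + (R - ‖z‖) / (‖z‖ + 1)), ?_, ?_⟩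
    · rw [← NNReal.coe_lt_coe, Real.coe_toNNReal _ (by linarith), NNReal.coe_one]
      linarith
    · rw [Real.coe_toNNReal _ (by linarith)]
      have h1 : (R - ‖z‖) / (‖z‖ + 1) * ‖z‖ < R - ‖z‖ := by
        rw [div_mul_eq_mul_div, div_lt_iff₀ (by linarith)]
        nlinarith
      nlinarith
  have hdiff : ∀ ζ : ℂ, ‖ζ‖ ≤ ρ → DifferentiableAt ℂ (D ∘ u) ζ := by
    intro ζ hζ
    have h1 : u ζ ∈ ball (0 : Fin 4 → ℂ) R := by
      rw [mem_ball_zero_iff, hu0, norm_smul]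
      exact (mul_le_mul_of_nonneg_right hζ (norm_nonneg _)).trans_lt hρz
    exact (hD _ h1).differentiableAt.comp ζ u.differentiableAt
  have hρ0 : 0 < ρ := zero_lt_one.trans hρ1
  have hdon : DifferentiableOn ℂ (D ∘ u) (closedBall 0 ρ) := by
    intro ζ hζ
    rw [mem_closedBall_zero_iff] at hζ
    exact (hdiff ζ hζ).differentiableWithinAt
  have hdon1 : DifferentiableOn ℂ (D ∘ u) (closedBall 0 ((1 : ℝ≥0) : ℝ)) := by
    intro ζ hζ
    rw [mem_closedBall_zero_iff] at hζ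
    exact (hdiff ζ (hζ.trans (by exact_mod_cast hρ1.le))).differentiableWithinAt
  have hcs := hdon.hasFPowerSeriesOnBall hρ0
  have hcs1 := hdon1.hasFPowerSeriesOnBall zero_lt_one
  have heq := hps.eq_formalMultilinearSeries hcs.hasFPowerSeriesAt
  have heq1 := hps.eq_formalMultilinearSeries hcs1.hasFPowerSeriesAt
  have hterm : ∀ d, (p.compContinuousLinearMap u) d (fun _ => 1) = eval z (polyOf (p d)) := by
    intro d
    rw [eval_polyOf, FormalMultilinearSeries.compContinuousLinearMap_apply]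
    congr 1
    funext i
    simp [Function.comp, hu0]
  refine ⟨?_, fun E hE d => ?_⟩
  · have h1 : HasSum (fun n => (cauchyPowerSeries (D ∘ u) 0 ρ) n fun _ => (1 : ℂ))
        ((D ∘ u) (0 + 1)) := by
      apply hcs.hasSum
      rw [Metric.mem_eball, edist_eq_enorm_sub, sub_zero, enorm_one]
      exact_mod_cast hρ1
    rw [← heq] at h1
    simp only [hterm, zero_add, Function.comp, hu0, one_smul] at h1
    exact h1
  · rw [← hterm, heq1]
    refine (ContinuousMultilinearMap.le_opNorm _ _).trans ?_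
    simp only [norm_one, Finset.prod_const_one, mul_one]
    apply norm_cauchy_coeff_le
    intro ζ hζ
    simp only [Function.comp, hu0]
    apply hE
    rw [mem_ball_zero_iff, norm_smul]
    nlinarith [norm_nonneg z]

end

end Helper22.Mor
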