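import Mathlib
import Pool.Agent.Helper22.MorNorm

/-!
# Uniform division by four cubic forms without common zero
-/

namespace Helper22.Mor

open MvPolynomial

noncomputable section

/-- the ideal spanned by the given polynomials -/
def jI (d : Fin 4 → MvPolynomial (Fin 4) ℂ) : Ideal (MvPolynomial (Fin 4) ℂ) :=
  Ideal.span (Set.range d)

lemma mem_jI_iff (d : Fin 4 → MvPolynomial (Fin 4) ℂ) (a : MvPolynomial (Fin 4) ℂ) :
    a ∈ jI d ↔ ∃ b : Fin 4 → MvPolynomial (Fin 4) ℂ, a = ∑ l, b l * d l := by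
  unfold jI
  rw [Ideal.mem_span_range_iff_exists_fun]
  constructor
  · rintro ⟨b, hb⟩; exact ⟨b, hb.symm⟩
  · rintro ⟨b, hb⟩; exact ⟨b, hb.symm⟩

lemma X_mem_radical (d : Fin 4 → MvPolynomial (Fin 4) ℂ)
    (hd : ∀ z : Fin 4 → ℂ, (∀ l, eval z (d l) = 0) → z = 0) (i : Fin 4) :
    (X i : MvPolynomial (Fin 4) ℂ) ∈ (jI d).radical := by
  rw [← MvPolynomial.vanishingIdeal_zeroLocus_eq_radical (K := ℂ)]
  rw [MvPolynomial.mem_vanishingIdeal_iff]
  intro z hz
  have : z = 0 := by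
    apply hd
    intro l
    rw [MvPolynomial.mem_zeroLocus_iff] at hz
    have := hz (d l) (Ideal.subset_span ⟨l, rfl⟩)
    simpa using this
  subst this
  simp

/-- monomials of large degree lie in the ideal -/
lemma exists_deg (d : Fin 4 → MvPolynomial (Fin 4) ℂ)
    (hd : ∀ z : Fin 4 → ℂ, (∀ l, eval z (d l) = 0) → z = 0) :
    ∃ M : ℕ, ∀ α : Fin 4 →₀ ℕ, M ≤ α.degree → monomial α (1 : ℂ) ∈ jI d := by
  classical
  choose n hn using fun i => (Ideal.mem_radical_iff (I := jI d)).mp (X_mem_radical d hd i)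
  refine ⟨∑ i, n i + 1, fun α hα => ?_⟩
  have : ∃ i, n i ≤ α i := by
    by_contra hcon
    push Not at hcon
    rw [Finsupp.degree_eq_sum] at hα
    have : ∑ i, α i ≤ ∑ i, n i := Finset.sum_le_sum fun i _ => (hcon i).le
    omega
  obtain ⟨i, hi⟩ := this
  have h1 : monomial α (1 : ℂ) = monomial (α - Finsupp.single i (n i)) 1 * (X i) ^ (n i) := by
    rw [X_pow_eq_monomial, monomial_mul, one_mul]
    congr 1
    rw [tsub_add_cancel_of_le]
    simpa using hi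
  rw [h1]
  exact Ideal.mul_mem_left _ _ (hn i)

/-- uniform division on monomials -/
lemma div_monomial (d : Fin 4 → MvPolynomial (Fin 4) ℂ)
    (hd : ∀ z : Fin 4 → ℂ, (∀ l, eval z (d l) = 0) → z = 0)
    (V : Submodule ℂ (MvPolynomial (Fin 4) ℂ))
    (hV : IsCompl ((jI d).restrictScalars ℂ) V) :
    ∃ C : ℝ, 0 ≤ C ∧ ∀ α : Fin 4 →₀ ℕ, ∃ v ∈ V, ∃ b : Fin 4 → MvPolynomial (Fin 4) ℂ,
      monomial α 1 = v + ∑ l, b l * d l ∧ pN 1 v ≤ C ∧ ∀ l, pN 1 (b l) ≤ C := by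
  classical
  obtain ⟨M, hM⟩ := exists_deg d hd
  have key : ∀ γ : Fin 4 →₀ ℕ, ∃ v ∈ V, ∃ b : Fin 4 → MvPolynomial (Fin 4) ℂ,
      monomial γ 1 = v + ∑ l, b l * d l ∧ (M ≤ γ.degree → v = 0) := by
    intro γ
    by_cases h : M ≤ γ.degree
    · obtain ⟨b, hb⟩ := (mem_jI_iff d _).mp (hM γ h)
      exact ⟨0, V.zero_mem, b, by rw [zero_add]; exact hb, fun _ => rfl⟩
    · have h1 : monomial γ (1 : ℂ) ∈ (jI d).restrictScalars ℂ ⊔ V := by
        rw [hV.sup_eq_top]; trivial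
      obtain ⟨y, hy, v, hv, hyv⟩ := Submodule.mem_sup.mp h1
      obtain ⟨b, hb⟩ := (mem_jI_iff d y).mp hy
      refine ⟨v, hv, b, ?_, fun h' => absurd h' h⟩
      rw [← hyv, hb, add_comm]
  choose v hv b hb hvz using key
  set S : Finset (Fin 4 →₀ ℕ) := (Finsupp.finite_of_degree_le (σ := Fin 4) M).toFinset with hS
  set C : ℝ := ∑ γ ∈ S, (pN 1 (v γ) + ∑ l, pN 1 (b γ l)) with hC
  have hnn : ∀ γ ∈ S, 0 ≤ pN 1 (v γ) + ∑ l, pN 1 (b γ l) := fun γ _ =>
    add_nonneg (pN_nonneg zero_le_one _) (Finset.sum_nonneg fun l _ => pN_nonneg zero_le_one _)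
  have hle : ∀ γ : Fin 4 →₀ ℕ, γ.degree ≤ M → pN 1 (v γ) + ∑ l, pN 1 (b γ l) ≤ C := by
    intro γ hγ
    exact Finset.single_le_sum (f := fun γ => pN 1 (v γ) + ∑ l, pN 1 (b γ l)) hnn
      (by rw [hS]; simpa using hγ)
  have hle1 : ∀ γ : Fin 4 →₀ ℕ, γ.degree ≤ M → pN 1 (v γ) ≤ C := by
    intro γ hγ
    have := hle γ hγ
    have h2 : 0 ≤ ∑ l, pN 1 (b γ l) := Finset.sum_nonneg fun l _ => pN_nonneg zero_le_one _
    linarith
  have hle2 : ∀ γ : Fin 4 →₀ ℕ, γ.degree ≤ M → ∀ l, pN 1 (b γ l) ≤ C := by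
    intro γ hγ l
    have := hle γ hγ
    have h1 := pN_nonneg zero_le_one (v γ)
    have h2 : pN 1 (b γ l) ≤ ∑ l, pN 1 (b γ l) :=
      Finset.single_le_sum (f := fun l => pN 1 (b γ l)) (fun l _ => pN_nonneg zero_le_one _)
        (Finset.mem_univ l)
    linarith
  refine ⟨C, Finset.sum_nonneg hnn, fun α => ?_⟩
  by_cases h : α.degree ≤ M
  · exact ⟨v α, hv α, b α, hb α, hle1 α h, hle2 α h⟩
  · push Not at h
    obtain ⟨γ, hγα, hγ⟩ := Finsupp.exists_le_degree_eq α M h.le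
    refine ⟨0, V.zero_mem, fun l => monomial (α - γ) 1 * b γ l, ?_, ?_, ?_⟩
    · have h1 : monomial α (1 : ℂ) = monomial (α - γ) 1 * monomial γ 1 := by
        rw [monomial_mul, one_mul, tsub_add_cancel_of_le hγα]
      rw [h1, hb γ, hvz γ hγ.ge, zero_add, zero_add, Finset.mul_sum]
      apply Finset.sum_congr rfl
      intro l _
      ring
    · rw [pN_zero]; exact Finset.sum_nonneg hnn
    · intro l
      refine (pN_monomial_mul_le zero_le_one _ _ _).trans ?_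
      simpa using hle2 γ hγ.le l

/-- uniform division -/
lemma div_poly (d : Fin 4 → MvPolynomial (Fin 4) ℂ)
    (hd : ∀ z : Fin 4 → ℂ, (∀ l, eval z (d l) = 0) → z = 0)
    (V : Submodule ℂ (MvPolynomial (Fin 4) ℂ))
    (hV : IsCompl ((jI d).restrictScalars ℂ) V) :
    ∃ K : ℝ, 0 ≤ K ∧ ∀ a : MvPolynomial (Fin 4) ℂ,
      ∃ v ∈ V, ∃ b : Fin 4 → MvPolynomial (Fin 4) ℂ,
      a = v + ∑ l, b l * d l ∧ ∀ l, pN 1 (b l) ≤ K * pN 1 a := by
  classical
  obtain ⟨K, hK, h⟩ := div_monomial d hd V hV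
  choose v hv b hb _ hbC using h
  refine ⟨K, hK, fun a => ⟨∑ α ∈ a.support, a.coeff α • v α, ?_,
    fun l => ∑ α ∈ a.support, C (a.coeff α) * b α l, ?_, ?_⟩⟩
  · exact Submodule.sum_mem _ fun α _ => Submodule.smul_mem _ _ (hv α)
  · conv_lhs => rw [a.as_sum]
    have : ∀ α ∈ a.support, monomial α (a.coeff α) =
        a.coeff α • v α + ∑ l, C (a.coeff α) * b α l * d l := by
      intro α _
      have h1 : monomial α (a.coeff α) = C (a.coeff α) * monomial α 1 := by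
        rw [C_mul_monomial, mul_one]
      rw [h1, hb α, mul_add, smul_eq_C_mul, Finset.mul_sum]
      congr 1
      apply Finset.sum_congr rfl
      intro l _
      ring
    rw [Finset.sum_congr rfl this, Finset.sum_add_distrib, Finset.sum_comm]
    congr 1
    apply Finset.sum_congr rfl
    intro l _
    rw [Finset.sum_mul]
  · intro l
    refine (pN_sum_le zero_le_one _ _).trans ?_
    rw [pN, Finset.mul_sum]
    apply Finset.sum_le_sum
    intro α _
    rw [pN_C_mul]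
    have := mul_le_mul_of_nonneg_left (hbC α l) (norm_nonneg (a.coeff α))
    simp only [one_pow, mul_one]
    linarith

/-- perturbed division, evaluated at points of the unit polydisc -/
lemma pert_div (d : Fin 4 → MvPolynomial (Fin 4) ℂ)
    (V : Submodule ℂ (MvPolynomial (Fin 4) ℂ)) (K : ℝ) (hK : 0 ≤ K)
    (hdiv : ∀ a : MvPolynomial (Fin 4) ℂ,
      ∃ v ∈ V, ∃ b : Fin 4 → MvPolynomial (Fin 4) ℂ,
      a = v + ∑ l, b l * d l ∧ ∀ l, pN 1 (b l) ≤ K * pN 1 a)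
    (D : Fin 4 → MvPolynomial (Fin 4) ℂ) (κ : ℝ) (hκ : 8 * K * κ ≤ 1)
    (hD : ∀ l, pN 1 (D l - d l) ≤ κ) (n : ℕ) (a : MvPolynomial (Fin 4) ℂ) :
    ∃ v ∈ V, ∀ z : Fin 4 → ℂ, (∀ i, ‖z i‖ ≤ 1) →
      ‖eval z a - eval z v‖ ≤ 2 * K * pN 1 a * ∑ l, ‖eval z (D l)‖ + (1 / 2) ^ n * pN 1 a := by
  induction n generalizing a with
  | zero =>
    refine ⟨0, V.zero_mem, fun z hz => ?_⟩
    have h1 := norm_eval_le hz a
    have h2 : 0 ≤ 2 * K * pN 1 a * ∑ l, ‖eval z (D l)‖ := by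
      have := pN_nonneg zero_le_one a
      have : 0 ≤ ∑ l, ‖eval z (D l)‖ := Finset.sum_nonneg fun l _ => norm_nonneg _
      positivity
    simp only [map_zero, sub_zero, pow_zero, one_mul]
    linarith
  | succ n ih =>
    obtain ⟨v₀, hv₀, b, hb, hbN⟩ := hdiv a
    set a' : MvPolynomial (Fin 4) ℂ := - ∑ l, b l * (D l - d l) with ha'
    have hκ0 : 0 ≤ κ := (pN_nonneg zero_le_one _).trans (hD 0)
    have hN0 := pN_nonneg zero_le_one a
    have hN : pN 1 a' ≤ (1 / 2) * pN 1 a := by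
      rw [ha', pN_neg]
      refine (pN_sum_le zero_le_one _ _).trans ?_
      have : ∀ l ∈ Finset.univ, pN 1 (b l * (D l - d l)) ≤ K * pN 1 a * κ := by
        intro l _
        refine (pN_mul_le zero_le_one _ _).trans ?_
        exact mul_le_mul (hbN l) (hD l) (pN_nonneg zero_le_one _) (by positivity)
      refine (Finset.sum_le_sum this).trans ?_
      simp only [Finset.sum_const, Finset.card_univ, Fintype.card_fin, nsmul_eq_mul]
      push_cast
      nlinarith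
    obtain ⟨v', hv', hv'2⟩ := ih a'
    refine ⟨v₀ + v', V.add_mem hv₀ hv', fun z hz => ?_⟩
    have hS : 0 ≤ ∑ l, ‖eval z (D l)‖ := Finset.sum_nonneg fun l _ => norm_nonneg _
    have e1 : a = v₀ + ∑ l, b l * D l + a' := by
      conv_lhs => rw [hb]
      rw [ha', add_assoc, ← sub_eq_add_neg, ← Finset.sum_sub_distrib]
      congr 1
      apply Finset.sum_congr rfl
      intro l _
      ring
    have e2 : eval z a - eval z (v₀ + v') = ∑ l, eval z (b l) * eval z (D l) +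
        (eval z a' - eval z v') := by
      conv_lhs => rw [e1]
      simp only [map_add, map_sum, map_mul]
      ring
    rw [e2]
    refine (norm_add_le _ _).trans ?_
    have h3 : ‖∑ l, eval z (b l) * eval z (D l)‖ ≤ K * pN 1 a * ∑ l, ‖eval z (D l)‖ := by
      refine (norm_sum_le _ _).trans ?_
      rw [Finset.mul_sum]
      apply Finset.sum_le_sum
      intro l _
      rw [norm_mul]
      exact mul_le_mul_of_nonneg_right ((norm_eval_le hz _).trans (hbN l)) (norm_nonneg _)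
    have h4 := hv'2 z hz
    have h5 : 2 * K * pN 1 a' * ∑ l, ‖eval z (D l)‖ ≤ K * pN 1 a * ∑ l, ‖eval z (D l)‖ := by
      apply mul_le_mul_of_nonneg_right _ hS
      nlinarith
    have h6 : (1 / 2 : ℝ) ^ n * pN 1 a' ≤ (1 / 2) ^ (n + 1) * pN 1 a := by
      rw [pow_succ, mul_assoc]
      exact mul_le_mul_of_nonneg_left hN (by positivity)
    linarith

/-- Lagrange polynomials -/
lemma exists_lagrange {σ 𝕜 : Type*} [Nonempty σ] [Field 𝕜] (Z : Finset (σ → 𝕜)) (p : σ → 𝕜) :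
    ∃ L : MvPolynomial σ 𝕜, eval p L = 1 ∧ ∀ q ∈ Z, q ≠ p → eval q L = 0 := by
  classical
  have h : ∀ q : σ → 𝕜, q ≠ p → ∃ i, q i ≠ p i := fun q hq => by
    by_contra hcon
    push Not at hcon
    exact hq (funext hcon)
  choose! i hi using h
  refine ⟨∏ q ∈ Z.erase p, C ((p (i q) - q (i q))⁻¹) * (X (i q) - C (q (i q))), ?_, ?_⟩
  · rw [map_prod]
    apply Finset.prod_eq_one
    intro q hq
    have hq' := hi q (Finset.ne_of_mem_erase hq)
    simp only [map_mul, eval_C, map_sub, eval_X]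
    rw [inv_mul_cancel₀]
    exact sub_ne_zero.mpr (Ne.symm hq')
  · intro q hq hqp
    rw [map_prod]
    apply Finset.prod_eq_zero (Finset.mem_erase.mpr ⟨hqp, hq⟩)
    simp

lemma exists_interp {σ 𝕜 : Type*} [Nonempty σ] [Field 𝕜] (Z : Finset (σ → 𝕜)) (w : Z → 𝕜) :
    ∃ a : MvPolynomial σ 𝕜, ∀ p : Z, eval (p : σ → 𝕜) a = w p := by
  classical
  choose L hL1 hL2 using fun p => exists_lagrange Z p
  refine ⟨∑ q : Z, C (w q) * L q, fun p => ?_⟩
  rw [map_sum, Finset.sum_eq_single p]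
  · simp [hL1]
  · intro q _ hqp
    simp only [map_mul, eval_C]
    rw [hL2 (q : σ → 𝕜) p p.2 (fun h => hqp (Subtype.ext h.symm)), mul_zero]
  · intro h; exact absurd (Finset.mem_univ _) h

/-- the key inequality -/
lemma chi_bound (d : Fin 4 → MvPolynomial (Fin 4) ℂ)
    (V : Submodule ℂ (MvPolynomial (Fin 4) ℂ)) [Module.Finite ℂ V] (K : ℝ) (hK : 0 ≤ K)
    (hdiv : ∀ a : MvPolynomial (Fin 4) ℂ,
      ∃ v ∈ V, ∃ b : Fin 4 → MvPolynomial (Fin 4) ℂ,
      a = v + ∑ l, b l * d l ∧ ∀ l, pN 1 (b l) ≤ K * pN 1 a)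
    (D : Fin 4 → MvPolynomial (Fin 4) ℂ) (κ : ℝ) (hκ : 8 * K * κ ≤ 1)
    (hD : ∀ l, pN 1 (D l - d l) ≤ κ)
    (Z : Finset (Fin 4 → ℂ)) (hZ1 : ∀ p ∈ Z, ∀ i, ‖p i‖ ≤ 1)
    (hZD : ∀ p ∈ Z, ∀ l, eval p (D l) = 0)
    (hcard : Module.finrank ℂ V ≤ Z.card)
    (a : MvPolynomial (Fin 4) ℂ) (ha : ∀ p ∈ Z, eval p a = 0) (z : Fin 4 → ℂ)
    (hz : ∀ i, ‖z i‖ ≤ 1) :
    ‖eval z a‖ ≤ 2 * K * pN 1 a * ∑ l, ‖eval z (D l)‖ := by
  classical
  -- evaluation map
  let ev : V →ₗ[ℂ] (Z → ℂ) :=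
    { toFun := fun v p => eval (p : Fin 4 → ℂ) (v : MvPolynomial (Fin 4) ℂ)
      map_add' := fun v w => by ext p; simp
      map_smul' := fun c v => by ext p; simp [smul_eval] }
  have hhalf : Filter.Tendsto (fun n : ℕ => (1 / 2 : ℝ) ^ n) Filter.atTop (nhds 0) :=
    tendsto_pow_atTop_nhds_zero_of_lt_one (by norm_num) (by norm_num)
  -- approximation at points of `Z`
  have happ : ∀ (n : ℕ) (a : MvPolynomial (Fin 4) ℂ), ∃ v : V, ∀ z : Fin 4 → ℂ,
      (∀ i, ‖z i‖ ≤ 1) → ‖eval z a - eval z (v : MvPolynomial (Fin 4) ℂ)‖ ≤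
      2 * K * pN 1 a * ∑ l, ‖eval z (D l)‖ + (1 / 2) ^ n * pN 1 a := by
    intro n a
    obtain ⟨v, hv, h⟩ := pert_div d V K hK hdiv D κ hκ hD n a
    exact ⟨⟨v, hv⟩, h⟩
  have happZ : ∀ (a : MvPolynomial (Fin 4) ℂ) (v : ℕ → V),
      (∀ n, ∀ z : Fin 4 → ℂ,
      (∀ i, ‖z i‖ ≤ 1) → ‖eval z a - eval z (v n : MvPolynomial (Fin 4) ℂ)‖ ≤
      2 * K * pN 1 a * ∑ l, ‖eval z (D l)‖ + (1 / 2) ^ n * pN 1 a) →
      Filter.Tendsto (fun n => ev (v n)) Filter.atTop
        (nhds (fun p : Z => eval (p : Fin 4 → ℂ) a)) := by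
    intro a v hv
    rw [tendsto_pi_nhds]
    intro p
    rw [tendsto_iff_norm_sub_tendsto_zero]
    have h0 : Filter.Tendsto (fun n : ℕ => (1 / 2 : ℝ) ^ n * pN 1 a) Filter.atTop (nhds 0) := by
      simpa using hhalf.mul_const (pN 1 a)
    apply squeeze_zero (fun _ => norm_nonneg _) _ h0
    intro n
    have := hv n p (hZ1 p p.2)
    have h2 : ∑ l, ‖eval (p : Fin 4 → ℂ) (D l)‖ = 0 := by
      apply Finset.sum_eq_zero
      intro l _
      rw [hZD p p.2 l, norm_zero]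
    rw [h2, mul_zero, zero_add] at this
    rw [norm_sub_rev]
    exact this
  have hsurj : Function.Surjective ev := by
    rw [← LinearMap.range_eq_top, eq_top_iff]
    intro w _
    obtain ⟨a, ha⟩ := exists_interp Z w
    choose v hv using fun n => happ n a
    have h1 := happZ a v hv
    have h2 : (fun p : Z => eval (p : Fin 4 → ℂ) a) = w := funext ha
    rw [h2] at h1
    have hcl : IsClosed ((LinearMap.range ev : Submodule ℂ (Z → ℂ)) : Set (Z → ℂ)) :=
      Submodule.closed_of_finiteDimensional _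
    exact hcl.mem_of_tendsto h1 (Filter.Eventually.of_forall fun n => ⟨v n, rfl⟩)
  have hfr : Module.finrank ℂ (Z → ℂ) = Z.card := by
    simp
  have hfr2 : Module.finrank ℂ V = Module.finrank ℂ (Z → ℂ) := by
    apply le_antisymm
    · rw [hfr]; exact hcard
    · exact LinearMap.finrank_le_finrank_of_surjective hsurj
  have hinj : Function.Injective ev :=
    (LinearMap.injective_iff_surjective_of_finrank_eq_finrank hfr2).mpr hsurj
  let E : V ≃ₗ[ℂ] (Z → ℂ) := LinearEquiv.ofBijective ev ⟨hinj, hsurj⟩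
  let L0 : V →ₗ[ℂ] ℂ :=
    { toFun := fun v => eval z (v : MvPolynomial (Fin 4) ℂ)
      map_add' := fun v w => by simp
      map_smul' := fun c v => by simp [smul_eval] }
  let L : (Z → ℂ) →ₗ[ℂ] ℂ := L0.comp E.symm.toLinearMap
  have hLc : Continuous L := L.continuous_of_finiteDimensional
  choose v hv using fun n => happ n a
  have h1 := happZ a v hv
  have h2 : (fun p : Z => eval (p : Fin 4 → ℂ) a) = 0 := funext fun p => ha p p.2
  rw [h2] at h1
  have h3 : Filter.Tendsto (fun n => L (ev (v n))) Filter.atTop (nhds 0) := by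
    have := (hLc.tendsto 0).comp h1
    rw [map_zero] at this
    exact this
  have h4 : ∀ n, L (ev (v n)) = eval z (v n : MvPolynomial (Fin 4) ℂ) := by
    intro n
    change L0 (E.symm (E (v n))) = _
    rw [LinearEquiv.symm_apply_apply]
    rfl
  have h5 : Filter.Tendsto (fun n => ‖eval z a - L (ev (v n))‖) Filter.atTop
      (nhds ‖eval z a - 0‖) := (tendsto_const_nhds.sub h3).norm
  have h6 : Filter.Tendsto (fun n : ℕ => 2 * K * pN 1 a * ∑ l, ‖eval z (D l)‖ +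
      (1 / 2 : ℝ) ^ n * pN 1 a) Filter.atTop
      (nhds (2 * K * pN 1 a * ∑ l, ‖eval z (D l)‖ + 0 * pN 1 a)) :=
    tendsto_const_nhds.add (hhalf.mul_const _)
  have h7 := le_of_tendsto_of_tendsto' h5 h6 (fun n => by
    rw [h4]; exact hv n z hz)
  simpa using h7

end

end Helper22.Mor
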