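import Mathlib
import Pool.Agent.Helper22.MorDiv
import Pool.Agent.Helper22.MorTaylor

/-!
# Rescaling around a critical point
-/

namespace Helper22.Mor

open MvPolynomial

noncomputable section

/-- complexification of real polynomials -/
abbrev cx : MvPolynomial (Fin 4) ℝ →+* MvPolynomial (Fin 4) ℂ := map (algebraMap ℝ ℂ)

/-- complexification of real vectors -/
def cv (x : Fin 4 → ℝ) : Fin 4 → ℂ := fun i => (x i : ℂ)

lemma eval_cx (x : Fin 4 → ℝ) (a : MvPolynomial (Fin 4) ℝ) :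
    eval (cv x) (cx a) = ((eval x a : ℝ) : ℂ) := by
  exact (MvPolynomial.map_eval (algebraMap ℝ ℂ) x a).symm

lemma pN_cx (r : ℝ) (a : MvPolynomial (Fin 4) ℝ) : pN r (cx a) = pN r a := by
  unfold pN
  have : (cx a).support = a.support :=
    MvPolynomial.support_map_of_injective a (algebraMap ℝ ℂ).injective
  rw [this]
  apply Finset.sum_congr rfl
  intro α _
  rw [cx, coeff_map]
  simp

/-- growth of the gradient of a nonsingular form -/
lemma growth (d : Fin 4 → MvPolynomial (Fin 4) ℂ) (hh : ∀ l, (d l).IsHomogeneous 3)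
    (hd : ∀ z : Fin 4 → ℂ, (∀ l, eval z (d l) = 0) → z = 0) :
    ∃ c₀ : ℝ, 0 < c₀ ∧ ∀ z : Fin 4 → ℂ, c₀ * ‖z‖ ^ 3 ≤ ∑ l, ‖eval z (d l)‖ := by
  have hcont : Continuous fun z : Fin 4 → ℂ => ∑ l, ‖eval z (d l)‖ := by
    apply continuous_finsetSum
    intro l _
    exact (MvPolynomial.continuous_eval (d l)).norm
  obtain ⟨z₀, hz₀, hmin⟩ := (isCompact_sphere (0 : Fin 4 → ℂ) 1).exists_isMinOn
    (NormedSpace.sphere_nonempty.mpr zero_le_one) hcont.continuousOn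
  have hpos : 0 < ∑ l, ‖eval z₀ (d l)‖ := by
    rcases (Finset.sum_nonneg fun l (_ : l ∈ Finset.univ) =>
      norm_nonneg (eval z₀ (d l))).lt_or_eq with h | h
    · exact h
    · exfalso
      have h1 : ∀ l, eval z₀ (d l) = 0 := by
        intro l
        have := (Finset.sum_eq_zero_iff_of_nonneg (fun l _ => norm_nonneg (eval z₀ (d l)))).mp
          h.symm l (Finset.mem_univ l)
        exact norm_eq_zero.mp this
      have h2 := hd z₀ h1
      rw [h2] at hz₀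
      simp at hz₀
  refine ⟨_, hpos, fun z => ?_⟩
  by_cases hz : z = 0
  · subst hz
    have : 0 ≤ ∑ l, ‖eval (0 : Fin 4 → ℂ) (d l)‖ := Finset.sum_nonneg fun l _ => norm_nonneg _
    simpa using this
  · have hz' : 0 < ‖z‖ := norm_pos_iff.mpr hz
    have h1 : ((‖z‖⁻¹ : ℝ) : ℂ) • z ∈ Metric.sphere (0 : Fin 4 → ℂ) 1 := by
      rw [mem_sphere_zero_iff_norm, norm_smul]
      simp [hz'.ne']
    have h2 := hmin h1
    simp only [Set.mem_ofPred_eq] at h2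
    have h3 : ∀ l, ‖eval (((‖z‖⁻¹ : ℝ) : ℂ) • z) (d l)‖ = (‖z‖⁻¹) ^ 3 * ‖eval z (d l)‖ := by
      intro l
      rw [eval_smul_of_homog (hh l), norm_mul, norm_pow]
      simp
    simp_rw [h3] at h2
    rw [← Finset.mul_sum] at h2
    calc (∑ l, ‖eval z₀ (d l)‖) * ‖z‖ ^ 3
        ≤ (‖z‖⁻¹ ^ 3 * ∑ l, ‖eval z (d l)‖) * ‖z‖ ^ 3 :=
          mul_le_mul_of_nonneg_right h2 (by positivity)
      _ = ∑ l, ‖eval z (d l)‖ := by
          field_simp

/-- vector field of a form plus cubic and quadratic perturbation -/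
def Vf (g : Fin 4 → (Fin 4 → ℂ) → ℂ) (c : Fin 4 → Fin 4 → Fin 4 → ℝ) (b : Fin 4 → Fin 4 → ℝ)
    (z : Fin 4 → ℂ) (l : Fin 4) : ℂ :=
  g l z + ∑ j, (b l j : ℂ) * z j + ∑ j, ∑ m, (c l j m : ℂ) * (z j * z m)

lemma abs_b_le (b : Fin 4 → Fin 4 → ℝ) (l j : Fin 4) : |b l j| ≤ ‖b‖ :=
  (norm_le_pi_norm (b l) j).trans (norm_le_pi_norm b l)

lemma abs_c_le (c : Fin 4 → Fin 4 → Fin 4 → ℝ) (l j m : Fin 4) : |c l j m| ≤ ‖c‖ :=
  (norm_le_pi_norm (c l j) m).trans ((norm_le_pi_norm (c l) j).trans (norm_le_pi_norm c l))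

lemma bsum_le (b : Fin 4 → Fin 4 → ℝ) (z : Fin 4 → ℂ) (l : Fin 4) :
    ‖∑ j, (b l j : ℂ) * z j‖ ≤ 4 * ‖b‖ * ‖z‖ := by
  refine (norm_sum_le _ _).trans ?_
  have : ∀ j ∈ Finset.univ, ‖(b l j : ℂ) * z j‖ ≤ ‖b‖ * ‖z‖ := by
    intro j _
    rw [norm_mul, Complex.norm_real]
    exact mul_le_mul (abs_b_le b l j) (norm_le_pi_norm z j) (norm_nonneg _) (norm_nonneg _)
  refine (Finset.sum_le_sum this).trans ?_
  simp only [Finset.sum_const, Finset.card_univ, Fintype.card_fin, nsmul_eq_mul]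
  push_cast
  linarith

lemma csum_le (c : Fin 4 → Fin 4 → Fin 4 → ℝ) (z : Fin 4 → ℂ) (l : Fin 4) :
    ‖∑ j, ∑ m, (c l j m : ℂ) * (z j * z m)‖ ≤ 16 * ‖c‖ * ‖z‖ ^ 2 := by
  refine (norm_sum_le _ _).trans ?_
  have : ∀ j ∈ Finset.univ, ‖∑ m, (c l j m : ℂ) * (z j * z m)‖ ≤ 4 * (‖c‖ * ‖z‖ ^ 2) := by
    intro j _
    refine (norm_sum_le _ _).trans ?_
    have h2 : ∀ m ∈ Finset.univ, ‖(c l j m : ℂ) * (z j * z m)‖ ≤ ‖c‖ * ‖z‖ ^ 2 := by
      intro m _
      rw [norm_mul, norm_mul, Complex.norm_real, sq]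
      exact mul_le_mul (abs_c_le c l j m) (mul_le_mul (norm_le_pi_norm z j) (norm_le_pi_norm z m)
        (norm_nonneg _) (norm_nonneg _)) (by positivity) (norm_nonneg _)
    refine (Finset.sum_le_sum h2).trans ?_
    simp
  refine (Finset.sum_le_sum this).trans ?_
  simp only [Finset.sum_const, Finset.card_univ, Fintype.card_fin, nsmul_eq_mul]
  push_cast
  linarith

end

end Helper22.Mor
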