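import Mathlib
import Pool.Agent.Helper22.MorExpand
import Pool.Agent.Helper22.MorScale

/-!
# Approximation of analytic perturbations by polynomial perturbations
-/

namespace Helper22.Mor

open MvPolynomial Filter Topology Metric

noncomputable section

lemma hasDerivAt_eval (a : MvPolynomial (Fin 4) ℂ) (p : Fin 4 → ℂ) (l : Fin 4) (s : ℂ) :
    HasDerivAt (fun s : ℂ => eval (p + s • (Pi.single l 1 : Fin 4 → ℂ)) a)
      (eval (p + s • (Pi.single l 1 : Fin 4 → ℂ)) (pderiv l a)) s := by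
  induction a using MvPolynomial.induction_on with
  | C c => simpa using hasDerivAt_const s c
  | add a b ha hb =>
    simp only [map_add]
    exact ha.add hb
  | mul_X a i ha =>
    simp only [pderiv_mul, map_add, map_mul, eval_X]
    have h1 : HasDerivAt (fun s : ℂ => (p + s • (Pi.single l 1 : Fin 4 → ℂ)) i)
        (eval (p + s • (Pi.single l 1 : Fin 4 → ℂ)) (pderiv l (X i))) s := by
      have h2 : HasDerivAt (fun s : ℂ => p i + s * (Pi.single l 1 : Fin 4 → ℂ) i)
          (0 + 1 * (Pi.single l 1 : Fin 4 → ℂ) i) s :=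
        (hasDerivAt_const _ _).add ((hasDerivAt_id _).mul_const _)
      convert! h2 using 1
      rw [pderiv_X]
      by_cases h : l = i
      · subst h; simp
      · simp [Ne.symm h]
    exact ha.mul h1

/-- real part of the coefficients -/
def reP (a : MvPolynomial (Fin 4) ℂ) : MvPolynomial (Fin 4) ℝ :=
  ∑ α ∈ a.support, monomial α (a.coeff α).re

lemma coeff_reP (a : MvPolynomial (Fin 4) ℂ) (α : Fin 4 →₀ ℕ) :
    coeff α (reP a) = (coeff α a).re := by
  classical
  unfold reP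
  rw [coeff_sum]
  simp only [coeff_monomial]
  rw [Finset.sum_ite_eq']
  split_ifs with h
  · rfl
  · rw [MvPolynomial.notMem_support_iff.mp h]; rfl

lemma pderiv_reP (a : MvPolynomial (Fin 4) ℂ) (l : Fin 4) :
    pderiv l (reP a) = reP (pderiv l a) := by
  ext α
  rw [coeff_pderiv, coeff_reP, coeff_reP, coeff_pderiv]
  have : (((α l : ℂ)) + 1) = (((α l : ℝ) + 1 : ℝ) : ℂ) := by push_cast; rfl
  rw [this, Complex.re_mul_ofReal]

lemma eval_reP (a : MvPolynomial (Fin 4) ℂ) (x : Fin 4 → ℝ) :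
    eval x (reP a) = (eval (cv x) a).re := by
  unfold reP
  rw [map_sum, eval_eq', Complex.re_sum]
  apply Finset.sum_congr rfl
  intro α _
  rw [eval_monomial, Finsupp.prod_fintype _ _ (fun i => pow_zero _)]
  have : (∏ i, cv x i ^ α i) = ((∏ i, x i ^ α i : ℝ) : ℂ) := by
    simp [cv]
  rw [this, Complex.re_mul_ofReal]

lemma pN_le_of_coeff {𝕜 : Type*} [NormedField 𝕜] (b : MvPolynomial (Fin 4) 𝕜) (E : ℝ)
    (h : ∀ α, ‖coeff α b‖ * 4 ^ α.degree ≤ E) : pN 2 b ≤ 16 * E := by
  classical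
  have hE : 0 ≤ E := (by positivity : (0 : ℝ) ≤ ‖coeff 0 b‖ * 4 ^ (0 : Fin 4 →₀ ℕ).degree).trans
    (h 0)
  have h1 : pN 2 b ≤ E * ∑ α ∈ b.support, ∏ i, (1 / 2 : ℝ) ^ (α i) := by
    unfold pN
    rw [Finset.mul_sum]
    apply Finset.sum_le_sum
    intro α _
    have h2 : ∏ i, (1 / 2 : ℝ) ^ (α i) = (1 / 2) ^ α.degree := by
      rw [Finset.prod_pow_eq_pow_sum, Finsupp.degree_eq_sum]
    rw [h2]
    have h3 : ‖coeff α b‖ * 2 ^ α.degree = (‖coeff α b‖ * 4 ^ α.degree) * (1 / 2) ^ α.degree := by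
      rw [mul_assoc, ← mul_pow]; norm_num
    rw [h3]
    exact mul_le_mul_of_nonneg_right (h α) (by positivity)
  have h2 : ∑ α ∈ b.support, ∏ i, (1 / 2 : ℝ) ^ (α i) ≤ 16 := by
    set N : ℕ := b.totalDegree + 1 with hN
    have h3 : ∑ α ∈ b.support, ∏ i, (1 / 2 : ℝ) ^ (α i) =
        ∑ k ∈ b.support.image (fun α : Fin 4 →₀ ℕ => (α : Fin 4 → ℕ)), ∏ i, (1 / 2 : ℝ) ^ (k i) := by
      rw [Finset.sum_image]
      intro α _ β _ hab
      exact DFunLike.coe_injective hab
    have h4 : b.support.image (fun α : Fin 4 →₀ ℕ => (α : Fin 4 → ℕ)) ⊆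
        Fintype.piFinset (fun _ : Fin 4 => Finset.range N) := by
      intro k hk
      rw [Finset.mem_image] at hk
      obtain ⟨β, hβ, rfl⟩ := hk
      rw [Fintype.mem_piFinset]
      intro i
      rw [Finset.mem_range]
      have h5 : β i ≤ β.degree := Finsupp.le_degree i β
      have h6 : β.degree ≤ b.totalDegree := by
        have := MvPolynomial.le_totalDegree hβ
        rw [Finsupp.degree_apply]
        exact this
      omega
    rw [h3]
    refine (Finset.sum_le_sum_of_subset_of_nonneg h4 (fun k _ _ => by positivity)).trans ?_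
    rw [← Finset.prod_univ_sum (fun _ : Fin 4 => Finset.range N) (fun _ k => (1 / 2 : ℝ) ^ k)]
    have h7 : ∑ k ∈ Finset.range N, (1 / 2 : ℝ) ^ k ≤ 2 := by
      rw [geom_sum_eq (by norm_num)]
      have : 0 < (1 / 2 : ℝ) ^ N := by positivity
      have h8 : ((1 / 2 : ℝ) ^ N - 1) / (1 / 2 - 1) = 2 * (1 - (1 / 2) ^ N) := by ring
      rw [h8]
      linarith
    have h8 : 0 ≤ ∑ k ∈ Finset.range N, (1 / 2 : ℝ) ^ k := Finset.sum_nonneg fun k _ => by positivity
    calc ∏ _i : Fin 4, ∑ k ∈ Finset.range N, (1 / 2 : ℝ) ^ k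
        = (∑ k ∈ Finset.range N, (1 / 2 : ℝ) ^ k) ^ 4 := by simp
      _ ≤ 2 ^ 4 := pow_le_pow_left₀ h8 h7 4
      _ = 16 := by norm_num
  nlinarith

lemma cv_norm (x : Fin 4 → ℝ) : ‖cv x‖ = ‖x‖ := by
  simp [cv, Pi.norm_def]

lemma norm_reP_coeff (a : MvPolynomial (Fin 4) ℂ) (α : Fin 4 →₀ ℕ) :
    ‖coeff α (reP a)‖ ≤ ‖coeff α a‖ := by
  rw [coeff_reP, Real.norm_eq_abs]
  exact Complex.abs_re_le_norm _

/-- derivative coefficients -/
lemma pderiv_coeff_bound (a : MvPolynomial (Fin 4) ℂ) (E : ℝ)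
    (h : ∀ α, ‖coeff α a‖ * 8 ^ α.degree ≤ E) (l : Fin 4) (α : Fin 4 →₀ ℕ) :
    ‖coeff α (pderiv l (reP a))‖ * 4 ^ α.degree ≤ E / 4 := by
  rw [pderiv_reP]
  have h1 := norm_reP_coeff (pderiv l a) α
  have h2 : ‖coeff α (pderiv l a)‖ = ‖coeff (α + Finsupp.single l 1) a‖ * ((α l : ℝ) + 1) := by
    rw [coeff_pderiv, norm_mul]
    congr 1
    have : (((α l : ℂ)) + 1) = (((α l : ℝ) + 1 : ℝ) : ℂ) := by push_cast; rfl
    rw [this, Complex.norm_real, Real.norm_eq_abs, abs_of_nonneg (by positivity)]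
  have h3 := h (α + Finsupp.single l 1)
  rw [map_add, Finsupp.degree_single] at h3
  have h4 : ((α l : ℝ) + 1) ≤ 2 ^ (α.degree + 1) := by
    have h5 : α l + 1 ≤ α.degree + 1 := by
      have := Finsupp.le_degree l α
      omega
    have h6 : α.degree + 1 < 2 ^ (α.degree + 1) := Nat.lt_two_pow_self
    have h7 : α l + 1 ≤ 2 ^ (α.degree + 1) := h5.trans h6.le
    exact_mod_cast h7
  have h8 : (8 : ℝ) ^ (α.degree + 1) = 2 ^ (α.degree + 1) * (4 * 4 ^ α.degree) := by
    rw [← pow_succ', ← mul_pow]; norm_num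
  set x := ‖coeff (α + Finsupp.single l 1) a‖ with hx
  have hx0 : 0 ≤ x := norm_nonneg _
  rw [h8] at h3
  have h9 : ‖coeff α (pderiv l a)‖ * 4 ^ α.degree ≤ x * 2 ^ (α.degree + 1) * 4 ^ α.degree := by
    rw [h2]
    apply mul_le_mul_of_nonneg_right _ (by positivity)
    exact mul_le_mul_of_nonneg_left h4 hx0
  have h10 : ‖coeff α (reP (pderiv l a))‖ * 4 ^ α.degree ≤
      ‖coeff α (pderiv l a)‖ * 4 ^ α.degree := mul_le_mul_of_nonneg_right h1 (by positivity)
  have h11 : x * 2 ^ (α.degree + 1) * 4 ^ α.degree = x * (2 ^ (α.degree + 1) *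
      (4 * 4 ^ α.degree)) / 4 := by ring
  linarith

theorem approx (f : MvPolynomial (Fin 4) ℝ) (D : (Fin 4 → ℂ) → ℂ)
    (hD : AnalyticOnNhd ℂ D (ball 0 9)) (E : ℝ) (hE : ∀ z ∈ ball (0 : Fin 4 → ℂ) 9, ‖D z‖ ≤ E)
    (Z : Finset (Fin 4 → ℝ)) (hZ : ∀ p ∈ Z, ‖p‖ ≤ 1 / 4)
    (hcrit : ∀ p ∈ Z, ∀ l, (deriv (fun s : ℂ => D (cv p + s • (Pi.single l 1 : Fin 4 → ℂ))) 0).re +
      eval p (pderiv l f) = 0) (η : ℝ) (hη : 4 * E < η) :
    ∃ H : MvPolynomial (Fin 4) ℝ, (∀ l, pN 2 (pderiv l H - pderiv l f) ≤ η) ∧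
      ∀ p ∈ Z, ∀ l, eval p (pderiv l H) = 0 := by
  classical
  obtain ⟨Q, hQh, hQ⟩ := exists_expansion D 9 (by norm_num) hD
  have hE0 : 0 ≤ E := (norm_nonneg _).trans (hE 0 (mem_ball_self (by norm_num)))
  have hQE : ∀ z ∈ ball (0 : Fin 4 → ℂ) 9, ∀ d, ‖eval z (Q d)‖ ≤ E := fun z hz d =>
    (hQ z hz).2 E hE d
  set S : ℕ → MvPolynomial (Fin 4) ℂ := fun n => ∑ d ∈ Finset.range n, Q d with hS
  -- coefficient bound for the partial sums
  have hcoQ : ∀ d (α : Fin 4 →₀ ℕ), ‖coeff α (Q d)‖ * 8 ^ α.degree ≤ E := by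
    intro d α
    apply coeff_bound (Q d) 8 (by norm_num) E
    intro z hz
    apply hQE
    rw [mem_ball_zero_iff]
    refine lt_of_le_of_lt ((pi_norm_le_iff_of_nonneg (by norm_num : (0 : ℝ) ≤ 8)).mpr
      (fun i => (hz i).le)) (by norm_num)
  have hcoS : ∀ n (α : Fin 4 →₀ ℕ), ‖coeff α (S n)‖ * 8 ^ α.degree ≤ E := by
    intro n α
    have h1 : coeff α (S n) = if α.degree ∈ Finset.range n then coeff α (Q α.degree) else 0 := by
      rw [hS]
      simp only [coeff_sum]
      rw [← Finset.sum_ite_eq' (Finset.range n) α.degree (fun d => coeff α (Q d))]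
      apply Finset.sum_congr rfl
      intro d _
      split_ifs with h
      · rfl
      · exact (hQh d).coeff_eq_zero (Ne.symm h)
    rw [h1]
    split_ifs
    · exact hcoQ _ _
    · simpa using hE0
  -- uniform convergence on the ball of radius 2
  have hconv : ∀ n (z : Fin 4 → ℂ), ‖z‖ ≤ 2 → ‖eval z (S n) - D z‖ ≤ 2 * E * (1 / 2) ^ n := by
    intro n z hz
    have hz9 : z ∈ ball (0 : Fin 4 → ℂ) 9 := by
      rw [mem_ball_zero_iff]; linarith
    have h1 : ∀ d, ‖eval z (Q d)‖ ≤ E * (1 / 2) ^ d := by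
      intro d
      have h2 : z = (1 / 2 : ℂ) • ((2 : ℂ) • z) := by
        rw [smul_smul]; norm_num
      rw [h2, eval_smul_of_homog (hQh d), norm_mul, norm_pow]
      have h3 : ‖(1 / 2 : ℂ)‖ = 1 / 2 := by simp
      have h4 : ‖eval ((2 : ℂ) • z) (Q d)‖ ≤ E := by
        apply hQE
        rw [mem_ball_zero_iff, norm_smul]
        have : ‖(2 : ℂ)‖ = 2 := by simp
        rw [this]
        linarith
      rw [h3, mul_comm]
      exact mul_le_mul_of_nonneg_right h4 (by positivity)
    have h2 := norm_sub_le_of_geometric_bound_of_hasSum (by norm_num : (1 / 2 : ℝ) < 1) h1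
      (hQ z hz9).1 n
    have h3 : eval z (S n) = ∑ d ∈ Finset.range n, eval z (Q d) := by
      rw [hS]; simp only [map_sum]
    rw [h3]
    refine h2.trans (le_of_eq ?_)
    ring
  -- convergence of the gradient
  have hgrad : ∀ n, ∀ p ∈ Z, ∀ l, |eval p (pderiv l (f + reP (S n)))| ≤ 2 * E * (1 / 2) ^ n := by
    intro n p hp l
    have h1 : eval p (pderiv l (f + reP (S n))) =
        (eval (cv p) (pderiv l (S n)) -
          deriv (fun s : ℂ => D (cv p + s • (Pi.single l 1 : Fin 4 → ℂ))) 0).re := by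
      rw [map_add, map_add, pderiv_reP, eval_reP, Complex.sub_re]
      have := hcrit p hp l
      linarith
    rw [h1]
    refine (Complex.abs_re_le_norm _).trans ?_
    have hnorm : ∀ s : ℂ, ‖s‖ ≤ 1 → ‖cv p + s • (Pi.single l 1 : Fin 4 → ℂ)‖ ≤ 2 := by
      intro s hs
      refine (norm_add_le _ _).trans ?_
      rw [cv_norm, norm_smul]
      have h3 := hZ p hp
      have h4 : ‖(Pi.single l 1 : Fin 4 → ℂ)‖ ≤ 1 := by
        rw [pi_norm_le_iff_of_nonneg zero_le_one]
        intro i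
        by_cases h : i = l
        · subst h; simp
        · simp [h]
      nlinarith [norm_nonneg s, norm_nonneg (Pi.single l 1 : Fin 4 → ℂ)]
    have hdD : ∀ s : ℂ, ‖s‖ ≤ 1 →
        DifferentiableAt ℂ (fun s : ℂ => D (cv p + s • (Pi.single l 1 : Fin 4 → ℂ))) s := by
      intro s hs
      have h3 : cv p + s • (Pi.single l 1 : Fin 4 → ℂ) ∈ ball (0 : Fin 4 → ℂ) 9 := by
        rw [mem_ball_zero_iff]
        have := hnorm s hs
        linarith
      exact DifferentiableAt.comp (g := D) s (hD _ h3).differentiableAt (by fun_prop)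
    have h2 := hasDerivAt_eval (S n) (cv p) l 0
    rw [zero_smul, add_zero] at h2
    have h3 := (hdD 0 (by simp)).hasDerivAt
    have h4 := (h2.sub h3).deriv
    rw [← h4]
    have h5 := Complex.norm_deriv_le_of_forall_mem_sphere_norm_le (c := (0 : ℂ)) (R := 1)
      (C := 2 * E * (1 / 2) ^ n) (f := (fun s : ℂ => eval (cv p + s • (Pi.single l 1 : Fin 4 → ℂ)) (S n)) -
        fun s : ℂ => D (cv p + s • (Pi.single l 1 : Fin 4 → ℂ))) zero_lt_one ?_ ?_
    · rw [div_one] at h5
      exact h5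
    · apply DifferentiableOn.diffContOnCl_ball (U := closedBall 0 1) _ le_rfl
      intro s hs
      rw [mem_closedBall_zero_iff] at hs
      exact ((hasDerivAt_eval (S n) (cv p) l s).differentiableAt.sub
        (hdD s hs)).differentiableWithinAt
    · intro s hs
      rw [mem_sphere_zero_iff_norm] at hs
      exact hconv n _ (hnorm s hs.le)
  -- correction terms
  choose L hL1 hL2 using fun p => exists_lagrange Z p
  set B : (Fin 4 → ℝ) → Fin 4 → MvPolynomial (Fin 4) ℝ := fun p l => (X l - C (p l)) * L p ^ 2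
    with hB
  have hBeval : ∀ p ∈ Z, ∀ q ∈ Z, ∀ l m, eval q (pderiv m (B p l)) =
      if q = p ∧ m = l then 1 else 0 := by
    intro p _ q hq l m
    have h1 : pderiv m (B p l) = pderiv m (X l - C (p l)) * L p ^ 2 +
        (X l - C (p l)) * (2 * L p * pderiv m (L p)) := by
      rw [hB]
      simp only
      rw [pderiv_mul, pderiv_pow]
      ring
    rw [h1]
    by_cases hqp : q = p
    · subst hqp
      simp only [map_add, map_mul, map_sub, map_pow, eval_X, eval_C, sub_self, zero_mul, add_zero,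
        hL1, one_pow, mul_one, pderiv_C, sub_zero, true_and]
      rw [pderiv_X]
      by_cases hml : m = l
      · subst hml; simp
      · simp [hml]
    · rw [if_neg (fun h => hqp h.1)]
      simp [hL2 p q hq hqp]
  set W : ℝ := ∑ p ∈ Z, ∑ l, ∑ m, pN 2 (pderiv m (B p l)) with hW
  have hW0 : 0 ≤ W := Finset.sum_nonneg fun p _ => Finset.sum_nonneg fun l _ =>
    Finset.sum_nonneg fun m _ => pN_nonneg (by norm_num) _
  -- choice of `n`
  obtain ⟨n, hn⟩ : ∃ n : ℕ, 2 * E * (1 / 2) ^ n * W < η - 4 * E := by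
    have h1 : Tendsto (fun n : ℕ => 2 * E * (1 / 2 : ℝ) ^ n * W) atTop (𝓝 (2 * E * 0 * W)) :=
      ((tendsto_pow_atTop_nhds_zero_of_lt_one (by norm_num) (by norm_num)).const_mul _).mul_const _
    have h2 : 2 * E * 0 * W < η - 4 * E := by
      rw [mul_zero, zero_mul]; linarith
    exact (h1.eventually_lt_const h2).exists
  set v : (Fin 4 → ℝ) → Fin 4 → ℝ := fun p l => eval p (pderiv l (f + reP (S n))) with hv
  refine ⟨f + reP (S n) - ∑ p ∈ Z, ∑ l, C (v p l) * B p l, fun m => ?_, fun q hq m => ?_⟩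
  · have h1 : pderiv m (f + reP (S n) - ∑ p ∈ Z, ∑ l, C (v p l) * B p l) - pderiv m f =
        pderiv m (reP (S n)) - ∑ p ∈ Z, ∑ l, C (v p l) * pderiv m (B p l) := by
      rw [map_sub, map_add, map_sum]
      simp only [map_sum, pderiv_C_mul]
      ring
    rw [h1]
    refine (pN_sub_le (by norm_num) _ _).trans ?_
    have h2 : pN 2 (pderiv m (reP (S n))) ≤ 16 * (E / 4) :=
      pN_le_of_coeff _ _ (fun α => pderiv_coeff_bound (S n) E (hcoS n) m α)
    have h3 : pN 2 (∑ p ∈ Z, ∑ l, C (v p l) * pderiv m (B p l)) ≤ 2 * E * (1 / 2) ^ n * W := by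
      refine (pN_sum_le (by norm_num) _ _).trans ?_
      rw [hW, Finset.mul_sum]
      apply Finset.sum_le_sum
      intro p hp
      refine (pN_sum_le (by norm_num) _ _).trans ?_
      rw [Finset.mul_sum]
      apply Finset.sum_le_sum
      intro l _
      rw [pN_C_mul]
      apply mul_le_mul
      · exact hgrad n p hp l
      · exact Finset.single_le_sum (f := fun m => pN 2 (pderiv m (B p l)))
          (fun m _ => pN_nonneg (by norm_num) _) (Finset.mem_univ m)
      · exact pN_nonneg (by norm_num) _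
      · positivity
    linarith
  · rw [map_sub, map_sub, map_sum, map_sum]
    have h1 : ∀ p ∈ Z, eval q (pderiv m (∑ l, C (v p l) * B p l)) =
        if q = p then v q m else 0 := by
      intro p hp
      simp only [map_sum, pderiv_C_mul, map_mul, eval_C]
      have h2 : ∀ l, v p l * eval q (pderiv m (B p l)) =
          if l = m then (if q = p then v p m else 0) else 0 := by
        intro l
        rw [hBeval p hp q hq l m]
        by_cases hlm : l = m
        · subst hlm
          by_cases hqp : q = p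
          · simp [hqp]
          · simp [hqp]
        · simp [hlm, Ne.symm hlm]
      simp only [h2, Finset.sum_ite_eq', Finset.mem_univ, if_true]
      by_cases hqp : q = p
      · simp [hqp]
      · simp [hqp]
    rw [Finset.sum_congr rfl h1, Finset.sum_ite_eq, if_pos hq]
    simp [hv]

end

end Helper22.Mor
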