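import Mathlib
import Pool.Agent.Helper22.MorScale

/-!
# Rescaling around a critical point: the core estimate
-/

namespace Helper22.Mor

open MvPolynomial

noncomputable section

/-- scaling of the variables -/
def sc {𝕜 : Type*} [NormedField 𝕜] (ρ : 𝕜) :
    MvPolynomial (Fin 4) 𝕜 →ₐ[𝕜] MvPolynomial (Fin 4) 𝕜 := aeval (fun i => C ρ * X i)

lemma eval_sc {𝕜 : Type*} [NormedField 𝕜] (ρ : 𝕜) (z : Fin 4 → 𝕜) (a : MvPolynomial (Fin 4) 𝕜) :
    eval z (sc ρ a) = eval (ρ • z) a := by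
  induction a using MvPolynomial.induction_on with
  | C c => simp [sc]
  | add a b ha hb => simp [ha, hb]
  | mul_X a i ha => simp [sc] at ha ⊢; simp [ha]

lemma pN_sc_le {𝕜 : Type*} [NormedField 𝕜] (ρ : 𝕜) (a : MvPolynomial (Fin 4) 𝕜) :
    pN 1 (sc ρ a) ≤ pN ‖ρ‖ a := by
  classical
  conv_lhs => rw [a.as_sum, map_sum]
  refine (pN_sum_le zero_le_one _ _).trans ?_
  rw [pN]
  apply Finset.sum_le_sum
  intro α _
  have h1 : sc ρ (monomial α (coeff α a)) =
      C (coeff α a) * ∏ i, (C ρ * X i) ^ α i := by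
    rw [sc, aeval_monomial, Finsupp.prod_fintype _ _ (fun i => pow_zero _)]
    rfl
  rw [h1, pN_C_mul]
  apply mul_le_mul_of_nonneg_left _ (norm_nonneg _)
  refine (pN_prod_le zero_le_one _ _).trans ?_
  rw [Finsupp.degree_eq_sum, ← Finset.prod_pow_eq_pow_sum]
  apply Finset.prod_le_prod
  · intro i _; exact pN_nonneg zero_le_one _
  · intro i _
    refine (pN_pow_le zero_le_one _ _).trans ?_
    apply pow_le_pow_left₀ (pN_nonneg zero_le_one _)
    rw [pN_C_mul, pN_X, mul_one]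

lemma eval_zero_homog {n : ℕ} (hn : n ≠ 0) {a : MvPolynomial (Fin 4) ℝ} (ha : a.IsHomogeneous n) :
    eval 0 a = 0 := by
  have := eval_smul_of_homog ha 0 0
  rw [zero_smul, zero_pow hn, zero_mul] at this
  exact this

lemma base_bound (f : MvPolynomial (Fin 4) ℝ)
    (c₀ : ℝ) (hc₀ : 0 < c₀)
    (hgr : ∀ z : Fin 4 → ℂ, c₀ * ‖z‖ ^ 3 ≤ ∑ l, ‖eval z (cx (pderiv l f))‖)
    (τ : ℝ) (hτ : 0 < τ) :
    ∃ η : ℝ, 0 < η ∧ ∀ H : MvPolynomial (Fin 4) ℝ,
      (∀ l, pN 2 (pderiv l H - pderiv l f) ≤ η) →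
      ∀ p : Fin 4 → ℝ, ‖p‖ ≤ 1 / 4 → (∀ l, eval p (pderiv l H) = 0) →
      ∀ l, pN 1 (tr p (pderiv l H) - pderiv l f) ≤ τ := by
  choose K hK hKb using fun l => tr_sub_bound (pderiv l f)
  set KT : ℝ := ∑ l, K l with hKT
  have hKT0 : 0 ≤ KT := Finset.sum_nonneg fun l _ => hK l
  have hKl : ∀ l, K l ≤ KT := fun l =>
    Finset.single_le_sum (fun l _ => hK l) (Finset.mem_univ l)
  set s : ℝ := τ / (2 * (KT + 1)) with hs
  have hs0 : 0 < s := by positivity
  refine ⟨min (τ / 2) (c₀ * s ^ 3 / 4), by positivity, fun H hH p hp hpc l => ?_⟩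
  have h1 : ‖p‖ ≤ s := by
    by_contra hcon
    push Not at hcon
    have h2 := hgr (cv p)
    have h3 : ∀ l ∈ Finset.univ, ‖eval (cv p) (cx (pderiv l f))‖ ≤ c₀ * s ^ 3 / 4 := by
      intro l _
      rw [eval_cx, Complex.norm_real]
      have h4 : eval p (pderiv l f) = - eval p (pderiv l H - pderiv l f) := by
        rw [map_sub, hpc l]; ring
      rw [h4, norm_neg]
      refine (norm_eval_le (r := 2) (fun i => ?_) _).trans ((hH l).trans (min_le_right _ _))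
      exact (norm_le_pi_norm p i).trans (by linarith)
    have h5 := h2.trans (Finset.sum_le_sum h3)
    have h6 : ‖cv p‖ = ‖p‖ := by
      simp [cv, Pi.norm_def]
    rw [h6] at h5
    simp only [Finset.sum_const, Finset.card_univ, Fintype.card_fin, nsmul_eq_mul] at h5
    push_cast at h5
    have h7 : s ^ 3 < ‖p‖ ^ 3 := pow_lt_pow_left₀ hcon hs0.le (by norm_num)
    nlinarith
  have h2 : tr p (pderiv l H) - pderiv l f =
      tr p (pderiv l H - pderiv l f) + (tr p (pderiv l f) - pderiv l f) := by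
    rw [map_sub]; ring
  rw [h2]
  refine (pN_add_le zero_le_one _ _).trans ?_
  have h3 : pN 1 (tr p (pderiv l H - pderiv l f)) ≤ τ / 2 := by
    refine (pN_tr_le zero_le_one _ _).trans ?_
    refine (pN_mono (by positivity) (by linarith) _).trans ((hH l).trans (min_le_left _ _))
  have h4 : pN 1 (tr p (pderiv l f) - pderiv l f) ≤ τ / 2 := by
    refine (hKb l p (by linarith)).trans ?_
    calc K l * ‖p‖ ≤ KT * s := mul_le_mul (hKl l) h1 (norm_nonneg _) hKT0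
      _ ≤ (KT + 1) * s := by nlinarith
      _ = τ / 2 := by rw [hs]; field_simp
  linarith

/-- Taylor data of a polynomial with a critical point close to a quartic form -/
lemma taylor_data (f : MvPolynomial (Fin 4) ℝ) (hf : f.IsHomogeneous 4)
    (H : MvPolynomial (Fin 4) ℝ) (p : Fin 4 → ℝ) (hp : ∀ l, eval p (pderiv l H) = 0) (τ : ℝ)
    (hτ : ∀ l, pN 1 (tr p (pderiv l H) - pderiv l f) ≤ τ) :
    ∃ (c : Fin 4 → Fin 4 → Fin 4 → ℝ) (b : Fin 4 → Fin 4 → ℝ)
      (r : Fin 4 → MvPolynomial (Fin 4) ℝ),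
      (∀ l j, b l j = b j l) ∧ (∀ l j m, c l j m = c j l m) ∧ (∀ l j m, c l j m = c l m j) ∧
      ‖c‖ ≤ τ ∧ ‖b‖ ≤ τ ∧ (∀ l, ∀ α ∈ (r l).support, 3 ≤ α.degree) ∧ (∀ l, pN 1 (r l) ≤ τ) ∧
      ∀ l, tr p (pderiv l H) = pderiv l f + ∑ j, C (b l j) * X j +
        ∑ j, ∑ m, C (c l j m) * (X j * X m) + r l := by
  classical
  have hτ0 : 0 ≤ τ := (pN_nonneg zero_le_one _).trans (hτ 0)
  choose r hr1 hr2 hr3 using fun l => taylor2 (tr p (pderiv l H) - pderiv l f)
  have hf1 : ∀ l, (pderiv l f).IsHomogeneous 3 := fun l => hf.pderiv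
  have hf2 : ∀ l j, (pderiv j (pderiv l f)).IsHomogeneous 2 := fun l j => (hf1 l).pderiv
  have hf3 : ∀ l j m, (pderiv m (pderiv j (pderiv l f))).IsHomogeneous 1 :=
    fun l j m => (hf2 l j).pderiv
  have e0 : ∀ l, eval 0 (tr p (pderiv l H) - pderiv l f) = 0 := by
    intro l
    rw [map_sub, eval_tr, zero_add, hp l, eval_zero_homog (by norm_num) (hf1 l), sub_zero]
  have e1 : ∀ l j, eval 0 (pderiv j (tr p (pderiv l H) - pderiv l f)) =
      eval p (pderiv j (pderiv l H)) := by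
    intro l j
    rw [map_sub, map_sub, pderiv_tr, eval_tr, zero_add, eval_zero_homog (by norm_num) (hf2 l j),
      sub_zero]
  have e2 : ∀ l j m, eval 0 (pderiv m (pderiv j (tr p (pderiv l H) - pderiv l f))) =
      eval p (pderiv m (pderiv j (pderiv l H))) := by
    intro l j m
    rw [map_sub, map_sub, map_sub, pderiv_tr, pderiv_tr, eval_tr, zero_add,
      eval_zero_homog (by norm_num) (hf3 l j m), sub_zero]
  refine ⟨fun l j m => eval p (pderiv m (pderiv j (pderiv l H))) / 2,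
    fun l j => eval p (pderiv j (pderiv l H)), r, ?_, ?_, ?_, ?_, ?_, hr2,
    fun l => (hr3 l).trans (hτ l), ?_⟩
  · intro l j
    simp only
    rw [pderiv_pderiv_comm]
  · intro l j m
    simp only
    rw [pderiv_pderiv_comm j l]
  · intro l j m
    simp only
    rw [pderiv_pderiv_comm m j]
  · rw [pi_norm_le_iff_of_nonneg hτ0]
    intro l
    rw [pi_norm_le_iff_of_nonneg hτ0]
    intro j
    rw [pi_norm_le_iff_of_nonneg hτ0]
    intro m
    rw [← e2 l j m, eval_zero_eq, coeff_pderiv, coeff_pderiv]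
    set co := coeff (0 + Finsupp.single m 1 + Finsupp.single j 1)
      (tr p (pderiv l H) - pderiv l f) with hco
    have hcoτ : ‖co‖ ≤ τ := (norm_coeff_le _ _).trans (hτ l)
    have h1 : (((0 + Finsupp.single m 1 : Fin 4 →₀ ℕ) j : ℝ) + 1) ≤ 2 := by
      simp only [zero_add, Finsupp.single_apply]
      split_ifs <;> norm_num
    have h2 : (0 : ℝ) ≤ (((0 + Finsupp.single m 1 : Fin 4 →₀ ℕ) j : ℝ) + 1) := by positivity
    have h3 : (((0 : Fin 4 →₀ ℕ) m : ℝ) + 1) = 1 := by simp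
    rw [h3, mul_one, Real.norm_eq_abs, abs_div, abs_mul, abs_two, abs_of_nonneg h2]
    rw [Real.norm_eq_abs] at hcoτ
    have h4 := mul_le_mul hcoτ h1 h2 hτ0
    linarith
  · rw [pi_norm_le_iff_of_nonneg hτ0]
    intro l
    rw [pi_norm_le_iff_of_nonneg hτ0]
    intro j
    rw [← e1 l j, eval_zero_eq, coeff_pderiv]
    have h3 : (((0 : Fin 4 →₀ ℕ) j : ℝ) + 1) = 1 := by simp
    rw [h3, mul_one]
    exact (norm_coeff_le _ _).trans (hτ l)
  · intro l
    have h := hr1 l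
    rw [e0, C_0, zero_add] at h
    simp only [e1, e2] at h
    rw [sub_eq_iff_eq_add] at h
    rw [h]
    ring

/-- points of `Z` are close to the base point, in terms of the size of the Taylor data -/
lemma close_points (f : MvPolynomial (Fin 4) ℝ)
    (c₀ : ℝ)
    (hgr : ∀ z : Fin 4 → ℂ, c₀ * ‖z‖ ^ 3 ≤ ∑ l, ‖eval z (cx (pderiv l f))‖)
    (H : MvPolynomial (Fin 4) ℝ) (p : Fin 4 → ℝ) (τ κ' : ℝ) (hκ'0 : 0 < κ') (hκ'1 : κ' ≤ 1)
    (hκ'2 : 320 * κ' ≤ c₀) (hτ2 : 16 * τ ≤ c₀)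
    (c : Fin 4 → Fin 4 → Fin 4 → ℝ) (b : Fin 4 → Fin 4 → ℝ)
    (r : Fin 4 → MvPolynomial (Fin 4) ℝ)
    (hr : ∀ l, ∀ α ∈ (r l).support, 3 ≤ α.degree) (hrτ : ∀ l, pN 1 (r l) ≤ τ)
    (hT : ∀ l, tr p (pderiv l H) = pderiv l f + ∑ j, C (b l j) * X j +
        ∑ j, ∑ m, C (c l j m) * (X j * X m) + r l)
    (lam : ℝ) (hlam0 : 0 ≤ lam) (hlc : ‖c‖ ≤ lam) (hlb : ‖b‖ ≤ lam ^ 2)
    (w : Fin 4 → ℝ) (hw : ‖w‖ ≤ 1) (hwc : ∀ l, eval (w + p) (pderiv l H) = 0) :
    ‖w‖ ≤ lam / κ' := by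
  by_contra hcon
  push Not at hcon
  rw [div_lt_iff₀ hκ'0] at hcon
  have hw0 : 0 < ‖w‖ := by
    rcases (norm_nonneg w).lt_or_eq with h | h
    · exact h
    · rw [← h, zero_mul] at hcon; linarith
  have h6 : ‖cv w‖ = ‖w‖ := by
    simp [cv, Pi.norm_def]
  have h1 := hgr (cv w)
  rw [h6] at h1
  have h2 : ∀ l ∈ Finset.univ, ‖eval (cv w) (cx (pderiv l f))‖ ≤
      (20 * κ' + τ) * ‖w‖ ^ 3 := by
    intro l _
    have e1 : eval w (tr p (pderiv l H)) = 0 := by rw [eval_tr]; exact hwc l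
    rw [hT l] at e1
    simp only [map_add, map_sum, map_mul, eval_C, eval_X] at e1
    have e2 : eval w (pderiv l f) = -(∑ j, b l j * w j) - (∑ j, ∑ m, c l j m * (w j * w m)) -
        eval w (r l) := by linarith
    have h3 : ‖∑ j, b l j * w j‖ ≤ 4 * ‖b‖ * ‖w‖ := by
      have := bsum_le b (cv w) l
      rw [h6] at this
      convert! this using 1
      rw [← Complex.norm_real]
      push_cast
      rfl
    have h4 : ‖∑ j, ∑ m, c l j m * (w j * w m)‖ ≤ 16 * ‖c‖ * ‖w‖ ^ 2 := by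
      have := csum_le c (cv w) l
      rw [h6] at this
      convert! this using 1
      rw [← Complex.norm_real]
      push_cast
      rfl
    have h5 : ‖eval w (r l)‖ ≤ τ * ‖w‖ ^ 3 := by
      refine (norm_eval_le_pow (norm_nonneg w) hw (fun i => norm_le_pi_norm w i) (r l) 3
        (hr l)).trans ?_
      exact mul_le_mul_of_nonneg_right (hrτ l) (by positivity)
    rw [eval_cx, Complex.norm_real, e2]
    have h7 : ‖-(∑ j, b l j * w j) - (∑ j, ∑ m, c l j m * (w j * w m)) - eval w (r l)‖ ≤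
        ‖∑ j, b l j * w j‖ + ‖∑ j, ∑ m, c l j m * (w j * w m)‖ + ‖eval w (r l)‖ := by
      refine (norm_sub_le _ _).trans ?_
      refine add_le_add ((norm_sub_le _ _).trans ?_) le_rfl
      rw [norm_neg]
    refine h7.trans ?_
    have h8 : 4 * ‖b‖ * ‖w‖ ≤ 4 * κ' * ‖w‖ ^ 3 := by
      have : ‖b‖ ≤ κ' * ‖w‖ ^ 2 := by
        calc ‖b‖ ≤ lam ^ 2 := hlb
          _ ≤ (‖w‖ * κ') ^ 2 := pow_le_pow_left₀ hlam0 hcon.le 2
          _ = κ' ^ 2 * ‖w‖ ^ 2 := by ring
          _ ≤ κ' * ‖w‖ ^ 2 := by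
            apply mul_le_mul_of_nonneg_right _ (by positivity)
            nlinarith
      nlinarith
    have h9 : 16 * ‖c‖ * ‖w‖ ^ 2 ≤ 16 * κ' * ‖w‖ ^ 3 := by
      have : ‖c‖ ≤ ‖w‖ * κ' := hlc.trans hcon.le
      have h10 := mul_le_mul_of_nonneg_right this (sq_nonneg ‖w‖)
      nlinarith
    nlinarith
  have h3 := h1.trans (Finset.sum_le_sum h2)
  simp only [Finset.sum_const, Finset.card_univ, Fintype.card_fin, nsmul_eq_mul] at h3
  push_cast at h3
  have h4 : 0 < ‖w‖ ^ 3 := by positivity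
  nlinarith

lemma cv_injective : Function.Injective cv := by
  intro x y h
  ext i
  have := congrFun h i
  simpa [cv] using this

/-- the outcome of the rescaling, with error `τ` -/
def Out (g : Fin 4 → (Fin 4 → ℂ) → ℂ) (κ' K' : ℝ) (μ : ℕ) (τ : ℝ)
    (c : Fin 4 → Fin 4 → Fin 4 → ℝ) (b : Fin 4 → Fin 4 → ℝ) : Prop :=
  (∀ l j, b l j = b j l) ∧ (∀ l j m, c l j m = c j l m) ∧ (∀ l j m, c l j m = c l m j) ∧
      ‖c‖ ≤ κ' ∧ ‖b‖ ≤ κ' ^ 2 ∧ (‖c‖ = κ' ∨ ‖b‖ = κ' ^ 2) ∧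
      ∀ z : Fin 4 → ℂ, (∀ i, ‖z i‖ ≤ 1) → ∀ i,
        |(z i).im| ^ μ ≤ K' * (∑ l, ‖Vf g c b z l‖ + 4 * τ)

lemma eval_D (g : MvPolynomial (Fin 4) ℝ) (c : Fin 4 → Fin 4 → Fin 4 → ℝ) (b : Fin 4 → Fin 4 → ℝ)
    (R : MvPolynomial (Fin 4) ℝ) (z : Fin 4 → ℂ) (l : Fin 4) :
    eval z (cx (g + ∑ j, C (b l j) * X j + ∑ j, ∑ m, C (c l j m) * (X j * X m) + R)) =
      (eval z (cx g) + ∑ j, (b l j : ℂ) * z j + ∑ j, ∑ m, (c l j m : ℂ) * (z j * z m)) +
      eval z (cx R) := by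
  simp only [map_add, map_sum, map_mul, map_C, map_X, eval_C, eval_X]
  rfl

lemma rescale_core (f : MvPolynomial (Fin 4) ℝ) (hf : f.IsHomogeneous 4)
    (V : Submodule ℂ (MvPolynomial (Fin 4) ℂ)) [Module.Finite ℂ V] (K : ℝ) (hK : 0 ≤ K)
    (hdiv : ∀ a : MvPolynomial (Fin 4) ℂ,
      ∃ v ∈ V, ∃ b : Fin 4 → MvPolynomial (Fin 4) ℂ,
      a = v + ∑ l, b l * cx (pderiv l f) ∧ ∀ l, pN 1 (b l) ≤ K * pN 1 a)
    (μ : ℕ) (hμ : 2 ≤ μ) (hV : Module.finrank ℂ V ≤ μ)
    (c₀ : ℝ)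
    (hgr : ∀ z : Fin 4 → ℂ, c₀ * ‖z‖ ^ 3 ≤ ∑ l, ‖eval z (cx (pderiv l f))‖)
    (κ' : ℝ) (hκ'0 : 0 < κ') (hκ'1 : κ' ≤ 1)
    (hκ'2 : 320 * κ' ≤ c₀) (hκ'3 : 8 * K * (40 * κ') ≤ 1)
    (τ : ℝ) (hτ1 : τ ≤ κ' ^ 2) (hτ2 : 16 * τ ≤ c₀)
    (H : MvPolynomial (Fin 4) ℝ) (Z : Finset (Fin 4 → ℝ)) (hZμ : Z.card = μ)
    (hZ4 : ∀ p ∈ Z, ‖p‖ ≤ 1 / 4) (hZc : ∀ p ∈ Z, ∀ l, eval p (pderiv l H) = 0)
    (p : Fin 4 → ℝ) (hpZ : p ∈ Z) (hτ : ∀ l, pN 1 (tr p (pderiv l H) - pderiv l f) ≤ τ) :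
    ∃ (c : Fin 4 → Fin 4 → Fin 4 → ℝ) (b : Fin 4 → Fin 4 → ℝ),
      Out (fun l z => eval z (cx (pderiv l f))) κ' (2 * K * 2 ^ μ) μ τ c b := by
  classical
  have hτ0 : 0 ≤ τ := (pN_nonneg zero_le_one _).trans (hτ 0)
  obtain ⟨c, b, r, hbs, hcs1, hcs2, hcτ, hbτ, hr, hrτ, hT⟩ :=
    taylor_data f hf H p (hZc p hpZ) τ hτ
  set lam : ℝ := max ‖c‖ (Real.sqrt ‖b‖) with hlam
  have hlam0 : 0 ≤ lam := (norm_nonneg c).trans (le_max_left _ _)
  have hlc : ‖c‖ ≤ lam := le_max_left _ _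
  have hlb : ‖b‖ ≤ lam ^ 2 := by
    have := le_max_right ‖c‖ (Real.sqrt ‖b‖)
    calc ‖b‖ = Real.sqrt ‖b‖ ^ 2 := (Real.sq_sqrt (norm_nonneg b)).symm
      _ ≤ lam ^ 2 := pow_le_pow_left₀ (Real.sqrt_nonneg _) this 2
  have hclose : ∀ q ∈ Z, ‖q - p‖ ≤ lam / κ' := by
    intro q hq
    apply close_points f c₀ hgr H p τ κ' hκ'0 hκ'1 hκ'2 hτ2 c b r hr hrτ hT lam hlam0 hlc hlb
    · refine (norm_sub_le _ _).trans ?_
      have h1 := hZ4 q hq
      have h2 := hZ4 p hpZ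
      linarith
    · intro l
      rw [sub_add_cancel]
      exact hZc q hq l
  -- `lam > 0`
  have hlampos : 0 < lam := by
    rcases hlam0.lt_or_eq with h | h
    · exact h
    · exfalso
      have h1 : 1 < Z.card := by omega
      obtain ⟨q, hq, hqp⟩ := Finset.exists_mem_ne h1 p
      have h2 := hclose q hq
      rw [← h, zero_div] at h2
      exact hqp (sub_eq_zero.mp (norm_le_zero_iff.mp h2))
  have hlamκ : lam ≤ κ' := by
    apply max_le
    · refine hcτ.trans (hτ1.trans ?_)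
      nlinarith
    · rw [Real.sqrt_le_left hκ'0.le]
      exact hbτ.trans hτ1
  set ρ : ℝ := lam / κ' with hρ
  have hρ0 : 0 < ρ := by positivity
  have hρ1 : ρ ≤ 1 := by rw [hρ, div_le_one hκ'0]; exact hlamκ
  set c' : Fin 4 → Fin 4 → Fin 4 → ℝ := ρ⁻¹ • c with hc'
  set b' : Fin 4 → Fin 4 → ℝ := (ρ ^ 2)⁻¹ • b with hb'
  have hnc : ‖c'‖ = κ' * (‖c‖ / lam) := by
    rw [hc', norm_smul, norm_inv, Real.norm_eq_abs, abs_of_pos hρ0, hρ]
    field_simp
  have hnb : ‖b'‖ = κ' ^ 2 * (‖b‖ / lam ^ 2) := by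
    rw [hb', norm_smul, norm_inv, Real.norm_eq_abs, abs_of_pos (by positivity), hρ]
    field_simp
  -- rescaled polynomials
  set R : Fin 4 → MvPolynomial (Fin 4) ℝ := fun l => C (ρ⁻¹ ^ 3) * sc ρ (r l) with hR
  have hRτ : ∀ l, pN 1 (R l) ≤ τ := by
    intro l
    rw [hR]
    simp only
    rw [pN_C_mul]
    have h1 : pN 1 (sc ρ (r l)) ≤ ρ ^ 3 * pN 1 (r l) := by
      refine (pN_sc_le ρ (r l)).trans ?_
      rw [Real.norm_eq_abs, abs_of_pos hρ0, pN, pN, Finset.mul_sum]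
      apply Finset.sum_le_sum
      intro α hα
      have h2 : ρ ^ α.degree ≤ ρ ^ 3 := pow_le_pow_of_le_one hρ0.le hρ1 (hr l α hα)
      have h3 := mul_le_mul_of_nonneg_left h2 (norm_nonneg (coeff α (r l)))
      simp only [one_pow, mul_one]
      linarith
    have h2 : ‖ρ⁻¹ ^ 3‖ = ρ⁻¹ ^ 3 := by
      rw [Real.norm_eq_abs, abs_of_pos (by positivity)]
    rw [h2]
    calc ρ⁻¹ ^ 3 * pN 1 (sc ρ (r l)) ≤ ρ⁻¹ ^ 3 * (ρ ^ 3 * pN 1 (r l)) :=
          mul_le_mul_of_nonneg_left h1 (by positivity)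
      _ = pN 1 (r l) := by field_simp
      _ ≤ τ := hrτ l
  set D : Fin 4 → MvPolynomial (Fin 4) ℝ := fun l => pderiv l f + ∑ j, C (b' l j) * X j +
        ∑ j, ∑ m, C (c' l j m) * (X j * X m) + R l with hD
  have hDcrit : ∀ q ∈ Z, ∀ l, eval (ρ⁻¹ • (q - p)) (D l) = 0 := by
    intro q hq l
    have e1 : eval (q - p) (tr p (pderiv l H)) = 0 := by
      rw [eval_tr, sub_add_cancel]; exact hZc q hq l
    have e2 : eval (ρ⁻¹ • (q - p)) (D l) = ρ⁻¹ ^ 3 * eval (q - p) (tr p (pderiv l H)) := by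
      rw [hT l, hD]
      simp only [map_add, map_sum, map_mul, eval_C, eval_X, hR, eval_sc]
      rw [eval_smul_of_homog (hf.pderiv : (pderiv l f).IsHomogeneous 3)]
      have h3 : ρ • ρ⁻¹ • (q - p) = q - p := by
        rw [smul_smul, mul_inv_cancel₀ hρ0.ne', one_smul]
      rw [h3]
      simp only [hb', hc', Pi.smul_apply, smul_eq_mul, mul_add, Finset.mul_sum]
      congr 2
      · congr 1
        apply Finset.sum_congr rfl
        intro j _
        rw [inv_pow]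
        ring
      · apply Finset.sum_congr rfl
        intro j _
        apply Finset.sum_congr rfl
        intro m _
        ring
    rw [e2, e1, mul_zero]
  have hDnear : ∀ l, pN 1 (cx (D l) - cx (pderiv l f)) ≤ 40 * κ' := by
    intro l
    rw [← map_sub, pN_cx]
    have h1 : D l - pderiv l f = ∑ j, C (b' l j) * X j +
        ∑ j, ∑ m, C (c' l j m) * (X j * X m) + R l := by
      rw [hD]; ring
    rw [h1]
    have hb1 : pN 1 (∑ j, C (b' l j) * X j : MvPolynomial (Fin 4) ℝ) ≤ 4 * ‖b'‖ := by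
      refine (pN_sum_le zero_le_one _ _).trans ?_
      have : ∀ j ∈ Finset.univ, pN 1 (C (b' l j) * X j : MvPolynomial (Fin 4) ℝ) ≤ ‖b'‖ := by
        intro j _
        rw [pN_C_mul, pN_X, mul_one]
        exact abs_b_le b' l j
      refine (Finset.sum_le_sum this).trans ?_
      simp
    have hc1 : pN 1 (∑ j, ∑ m, C (c' l j m) * (X j * X m) : MvPolynomial (Fin 4) ℝ) ≤
        16 * ‖c'‖ := by
      refine (pN_sum_le zero_le_one _ _).trans ?_
      have : ∀ j ∈ Finset.univ,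
          pN 1 (∑ m, C (c' l j m) * (X j * X m) : MvPolynomial (Fin 4) ℝ) ≤ 4 * ‖c'‖ := by
        intro j _
        refine (pN_sum_le zero_le_one _ _).trans ?_
        have : ∀ m ∈ Finset.univ,
            pN 1 (C (c' l j m) * (X j * X m) : MvPolynomial (Fin 4) ℝ) ≤ ‖c'‖ := by
          intro m _
          rw [pN_C_mul]
          have h2 : pN 1 (X j * X m : MvPolynomial (Fin 4) ℝ) ≤ 1 := by
            refine (pN_mul_le zero_le_one _ _).trans ?_
            rw [pN_X, pN_X, mul_one]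
          calc ‖c' l j m‖ * pN 1 (X j * X m : MvPolynomial (Fin 4) ℝ) ≤ ‖c'‖ * 1 :=
                mul_le_mul (abs_c_le c' l j m) h2 (pN_nonneg zero_le_one _) (norm_nonneg _)
            _ = ‖c'‖ := mul_one _
        refine (Finset.sum_le_sum this).trans ?_
        simp
      refine (Finset.sum_le_sum this).trans ?_
      simp only [Finset.sum_const, Finset.card_univ, Fintype.card_fin, nsmul_eq_mul]
      push_cast
      linarith
    have h2 := pN_add_le zero_le_one (∑ j, C (b' l j) * X j +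
        ∑ j, ∑ m, C (c' l j m) * (X j * X m) : MvPolynomial (Fin 4) ℝ) (R l)
    have h3 := pN_add_le zero_le_one (∑ j, C (b' l j) * X j : MvPolynomial (Fin 4) ℝ)
        (∑ j, ∑ m, C (c' l j m) * (X j * X m) : MvPolynomial (Fin 4) ℝ)
    have h4 := hRτ l
    have h5 : ‖b'‖ ≤ κ' := by
      rw [hnb]
      have : ‖b‖ / lam ^ 2 ≤ 1 := (div_le_one (by positivity)).mpr hlb
      nlinarith [sq_nonneg κ', mul_le_mul_of_nonneg_left this (sq_nonneg κ')]
    have h6 : ‖c'‖ ≤ κ' := by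
      rw [hnc]
      have : ‖c‖ / lam ≤ 1 := (div_le_one (by positivity)).mpr hlc
      nlinarith
    have h7 : τ ≤ κ' := hτ1.trans (by nlinarith)
    linarith
  -- the set of rescaled critical points
  set Z' : Finset (Fin 4 → ℂ) := Z.image (fun q => cv (ρ⁻¹ • (q - p))) with hZ'
  have hinj : Function.Injective (fun q : Fin 4 → ℝ => cv (ρ⁻¹ • (q - p))) := by
    intro q q' h
    have h1 := cv_injective h
    have h2 : ρ • ρ⁻¹ • (q - p) = ρ • ρ⁻¹ • (q' - p) := by rw [h1]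
    rw [smul_smul, smul_smul, mul_inv_cancel₀ hρ0.ne', one_smul, one_smul] at h2
    exact sub_left_injective h2
  have hZ'card : Z'.card = μ := by
    rw [hZ', Finset.card_image_of_injective _ hinj, hZμ]
  have hZ'1 : ∀ y ∈ Z', ∀ i, ‖y i‖ ≤ 1 := by
    intro y hy i
    rw [hZ', Finset.mem_image] at hy
    obtain ⟨q, hq, rfl⟩ := hy
    simp only [cv, Complex.norm_real]
    refine (norm_le_pi_norm (ρ⁻¹ • (q - p)) i).trans ?_
    rw [norm_smul, norm_inv, Real.norm_eq_abs, abs_of_pos hρ0]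
    have := hclose q hq
    rw [inv_mul_le_iff₀ hρ0, mul_one]
    exact this
  have hZ'D : ∀ y ∈ Z', ∀ l, eval y (cx (D l)) = 0 := by
    intro y hy l
    rw [hZ', Finset.mem_image] at hy
    obtain ⟨q, hq, rfl⟩ := hy
    rw [eval_cx, hDcrit q hq l]
    simp
  have hZ'im : ∀ y ∈ Z', ∀ i, (y i).im = 0 := by
    intro y hy i
    rw [hZ', Finset.mem_image] at hy
    obtain ⟨q, hq, rfl⟩ := hy
    simp [cv]
  refine ⟨c', b', ?_, ?_, ?_, ?_, ?_, ?_, ?_⟩
  · intro l j; simp only [hb', Pi.smul_apply]; rw [hbs]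
  · intro l j m; simp only [hc', Pi.smul_apply]; rw [hcs1]
  · intro l j m; simp only [hc', Pi.smul_apply]; rw [hcs2]
  · rw [hnc]
    have : ‖c‖ / lam ≤ 1 := (div_le_one (by positivity)).mpr hlc
    nlinarith
  · rw [hnb]
    have : ‖b‖ / lam ^ 2 ≤ 1 := (div_le_one (by positivity)).mpr hlb
    nlinarith [sq_nonneg κ', mul_le_mul_of_nonneg_left this (sq_nonneg κ')]
  · rcases max_choice ‖c‖ (Real.sqrt ‖b‖) with h | h
    · left
      rw [hnc, hlam, h, div_self, mul_one]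
      rw [← h, ← hlam]; exact hlampos.ne'
    · right
      rw [hnb]
      have h1 : ‖b‖ = lam ^ 2 := by
        rw [hlam, h, Real.sq_sqrt (norm_nonneg b)]
      rw [h1, div_self (by positivity), mul_one]
  · intro z hz i
    set a : MvPolynomial (Fin 4) ℂ := ∏ y ∈ Z', (X i - C (y i)) with ha
    have ha0 : ∀ y ∈ Z', eval y a = 0 := by
      intro y hy
      rw [ha, map_prod]
      apply Finset.prod_eq_zero hy
      simp
    have hchi := chi_bound (fun l => cx (pderiv l f)) V K hK hdiv (fun l => cx (D l))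
      (40 * κ') hκ'3 hDnear Z' hZ'1 hZ'D (by rw [hZ'card]; exact hV) a ha0 z hz
    have haN : pN 1 a ≤ 2 ^ μ := by
      rw [ha]
      refine (pN_prod_le zero_le_one _ _).trans ?_
      rw [← hZ'card, ← Finset.prod_const]
      apply Finset.prod_le_prod
      · intro y _; exact pN_nonneg zero_le_one _
      intro y hy
      refine (pN_sub_le zero_le_one _ _).trans ?_
      rw [pN_X, pN_C]
      have := hZ'1 y hy i
      linarith
    have hlow : |(z i).im| ^ μ ≤ ‖eval z a‖ := by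
      rw [ha, map_prod, norm_prod, ← hZ'card, ← Finset.prod_const]
      apply Finset.prod_le_prod
      · intro y _; exact abs_nonneg _
      · intro y hy
        simp only [map_sub, eval_X, eval_C]
        have h1 := Complex.abs_im_le_norm (z i - y i)
        rw [Complex.sub_im, hZ'im y hy i, sub_zero] at h1
        exact h1
    have hsum : ∑ l, ‖eval z (cx (D l))‖ ≤
        ∑ l, ‖Vf (fun l z => eval z (cx (pderiv l f))) c' b' z l‖ + 4 * τ := by
      have h1 : ∀ l ∈ Finset.univ, ‖eval z (cx (D l))‖ ≤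
          ‖Vf (fun l z => eval z (cx (pderiv l f))) c' b' z l‖ + τ := by
        intro l _
        have h2 : eval z (cx (D l)) =
            Vf (fun l z => eval z (cx (pderiv l f))) c' b' z l + eval z (cx (R l)) := by
          exact eval_D (pderiv l f) c' b' (R l) z l
        rw [h2]
        refine (norm_add_le _ _).trans ?_
        refine add_le_add le_rfl ?_
        refine (norm_eval_le hz _).trans ?_
        rw [pN_cx]
        exact hRτ l
      refine (Finset.sum_le_sum h1).trans ?_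
      rw [Finset.sum_add_distrib]
      simp
    calc |(z i).im| ^ μ ≤ ‖eval z a‖ := hlow
      _ ≤ 2 * K * pN 1 a * ∑ l, ‖eval z (cx (D l))‖ := hchi
      _ ≤ 2 * K * 2 ^ μ * (∑ l, ‖Vf (fun l z => eval z (cx (pderiv l f))) c' b' z l‖ + 4 * τ) := by
        apply mul_le_mul _ hsum (Finset.sum_nonneg fun l _ => norm_nonneg _) (by positivity)
        exact mul_le_mul_of_nonneg_left haN (by positivity)

end

end Helper22.Mor
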