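import Mathlib
import Pool.Agent.Helper22.MorCore

/-!
# The limit of the rescaled perturbations
-/

namespace Helper22.Mor

open MvPolynomial Filter Topology

noncomputable section

/-- real polynomials arbitrarily close to `f` with `μ` real critical points -/
def ManyCrit (f : MvPolynomial (Fin 4) ℝ) (μ : ℕ) : Prop :=
  ∀ η : ℝ, 0 < η → ∃ H : MvPolynomial (Fin 4) ℝ,
    (∀ l, pN 2 (pderiv l H - pderiv l f) ≤ η) ∧
    ∃ Z : Finset (Fin 4 → ℝ), Z.card = μ ∧ (∀ p ∈ Z, ‖p‖ ≤ 1 / 4) ∧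
      ∀ p ∈ Z, ∀ l, eval p (pderiv l H) = 0

lemma continuous_Vf (g : Fin 4 → (Fin 4 → ℂ) → ℂ) (z : Fin 4 → ℂ) (l : Fin 4) :
    Continuous fun x : (Fin 4 → Fin 4 → Fin 4 → ℝ) × (Fin 4 → Fin 4 → ℝ) =>
      Vf g x.1 x.2 z l := by
  unfold Vf
  fun_prop

theorem realRooted_of_many (f : MvPolynomial (Fin 4) ℝ) (hf : f.IsHomogeneous 4)
    (hns : ∀ z : Fin 4 → ℂ, (∀ l, eval z (cx (pderiv l f)) = 0) → z = 0)
    (V : Submodule ℂ (MvPolynomial (Fin 4) ℂ)) [Module.Finite ℂ V]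
    (hVc : IsCompl ((jI fun l => cx (pderiv l f)).restrictScalars ℂ) V)
    (μ : ℕ) (hμ : 2 ≤ μ) (hV : Module.finrank ℂ V ≤ μ)
    (hmany : ManyCrit f μ) :
    ∃ (c : Fin 4 → Fin 4 → Fin 4 → ℝ) (b : Fin 4 → Fin 4 → ℝ),
      (∀ l j, b l j = b j l) ∧ (∀ l j m, c l j m = c j l m) ∧ (∀ l j m, c l j m = c l m j) ∧
      ‖c‖ ≤ 1 ∧ ‖b‖ ≤ 1 ∧ (‖c‖ = 1 ∨ ‖b‖ = 1) ∧
      ∀ z : Fin 4 → ℂ, (∀ l, Vf (fun l z => eval z (cx (pderiv l f))) c b z l = 0) →
        ∀ i, (z i).im = 0 := by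
  classical
  obtain ⟨K, hK, hdiv⟩ := div_poly (fun l => cx (pderiv l f)) hns V hVc
  have hhom : ∀ l, (cx (pderiv l f)).IsHomogeneous 3 := fun l =>
    (hf.pderiv : (pderiv l f).IsHomogeneous 3).map _
  obtain ⟨c₀, hc₀, hgr⟩ := growth (fun l => cx (pderiv l f)) hhom hns
  set g : Fin 4 → (Fin 4 → ℂ) → ℂ := fun l z => eval z (cx (pderiv l f)) with hg
  set κ' : ℝ := min 1 (min (c₀ / 320) (1 / (320 * (K + 1)))) with hκ'
  have hκ'0 : 0 < κ' := by positivity
  have hκ'1 : κ' ≤ 1 := min_le_left _ _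
  have hκ'2 : 320 * κ' ≤ c₀ := by
    have : κ' ≤ c₀ / 320 := (min_le_right _ _).trans (min_le_left _ _)
    linarith
  have hκ'3 : 8 * K * (40 * κ') ≤ 1 := by
    have h1 : κ' ≤ 1 / (320 * (K + 1)) := (min_le_right _ _).trans (min_le_right _ _)
    rw [le_div_iff₀ (by positivity)] at h1
    nlinarith
  set τ : ℕ → ℝ := fun n => min (κ' ^ 2) (c₀ / 16) * (1 / ((n : ℝ) + 1)) with hτ
  have hτpos : ∀ n, 0 < τ n := fun n => by positivity
  have hm0 : 0 ≤ min (κ' ^ 2) (c₀ / 16) := by positivity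
  have hτle : ∀ n, τ n ≤ min (κ' ^ 2) (c₀ / 16) := by
    intro n
    have : 1 / ((n : ℝ) + 1) ≤ 1 := by
      rw [div_le_one (by positivity)]
      have : (0 : ℝ) ≤ n := Nat.cast_nonneg n
      linarith
    calc τ n ≤ min (κ' ^ 2) (c₀ / 16) * 1 := mul_le_mul_of_nonneg_left this hm0
      _ = _ := mul_one _
  have hτlim : Tendsto τ atTop (𝓝 0) := by
    have := (tendsto_one_div_add_atTop_nhds_zero_nat (𝕜 := ℝ)).const_mul (min (κ' ^ 2) (c₀ / 16))
    rw [mul_zero] at this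
    exact this
  have hout : ∀ n, ∃ x : (Fin 4 → Fin 4 → Fin 4 → ℝ) × (Fin 4 → Fin 4 → ℝ),
      Out g κ' (2 * K * 2 ^ μ) μ (τ n) x.1 x.2 := by
    intro n
    obtain ⟨η, hη, hηb⟩ := base_bound f c₀ hc₀ hgr (τ n) (hτpos n)
    obtain ⟨H, hH, Z, hZμ, hZ4, hZc⟩ := hmany η hη
    have hZne : Z.Nonempty := by
      rw [← Finset.card_pos]; omega
    obtain ⟨p, hpZ⟩ := hZne
    have h1 := hηb H hH p (hZ4 p hpZ) (hZc p hpZ)
    obtain ⟨c, b, hcb⟩ := rescale_core f hf V K hK hdiv μ hμ hV c₀ hgr κ' hκ'0 hκ'1 hκ'2 hκ'3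
      (τ n) ((hτle n).trans (min_le_left _ _))
      (by have := (hτle n).trans (min_le_right _ _); linarith) H Z hZμ hZ4 hZc p hpZ h1
    exact ⟨(c, b), hcb⟩
  choose x hx using hout
  have hcomp : IsCompact ((Metric.closedBall (0 : Fin 4 → Fin 4 → Fin 4 → ℝ) κ') ×ˢ
      (Metric.closedBall (0 : Fin 4 → Fin 4 → ℝ) (κ' ^ 2))) :=
    (isCompact_closedBall _ _).prod (isCompact_closedBall _ _)
  have hmem : ∀ n, x n ∈ ((Metric.closedBall (0 : Fin 4 → Fin 4 → Fin 4 → ℝ) κ') ×ˢ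
      (Metric.closedBall (0 : Fin 4 → Fin 4 → ℝ) (κ' ^ 2))) := by
    intro n
    rw [Set.mem_prod, mem_closedBall_zero_iff, mem_closedBall_zero_iff]
    exact ⟨(hx n).2.2.2.1, (hx n).2.2.2.2.1⟩
  obtain ⟨⟨c, b⟩, hcbmem, φ, hφ, hlim⟩ := hcomp.tendsto_subseq hmem
  rw [Set.mem_prod, mem_closedBall_zero_iff, mem_closedBall_zero_iff] at hcbmem
  simp only at hcbmem
  have hlimc : Tendsto (fun n => (x (φ n)).1) atTop (𝓝 c) := (continuous_fst.tendsto _).comp hlim
  have hlimb : Tendsto (fun n => (x (φ n)).2) atTop (𝓝 b) := (continuous_snd.tendsto _).comp hlim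
  have hb1 : ∀ l j, Tendsto (fun n => (x (φ n)).2 l j) atTop (𝓝 (b l j)) := fun l j =>
    (tendsto_pi_nhds.mp ((tendsto_pi_nhds.mp hlimb) l)) j
  have hc1 : ∀ l j m, Tendsto (fun n => (x (φ n)).1 l j m) atTop (𝓝 (c l j m)) := fun l j m =>
    (tendsto_pi_nhds.mp ((tendsto_pi_nhds.mp ((tendsto_pi_nhds.mp hlimc) l)) j)) m
  have hbs : ∀ l j, b l j = b j l := fun l j => by
    refine tendsto_nhds_unique (hb1 l j) ?_
    refine (hb1 j l).congr fun n => ?_
    exact ((hx (φ n)).1 j l)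
  have hcs1 : ∀ l j m, c l j m = c j l m := fun l j m => by
    refine tendsto_nhds_unique (hc1 l j m) ?_
    refine (hc1 j l m).congr fun n => ?_
    exact ((hx (φ n)).2.1 j l m)
  have hcs2 : ∀ l j m, c l j m = c l m j := fun l j m => by
    refine tendsto_nhds_unique (hc1 l j m) ?_
    refine (hc1 l m j).congr fun n => ?_
    exact ((hx (φ n)).2.2.1 l m j)
  have hor : ‖c‖ = κ' ∨ ‖b‖ = κ' ^ 2 := by
    have h1 : Tendsto (fun n => (‖(x (φ n)).1‖ - κ') * (‖(x (φ n)).2‖ - κ' ^ 2)) atTop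
        (𝓝 ((‖c‖ - κ') * (‖b‖ - κ' ^ 2))) :=
      (hlimc.norm.sub_const κ').mul (hlimb.norm.sub_const (κ' ^ 2))
    have h2 : ∀ n, (‖(x (φ n)).1‖ - κ') * (‖(x (φ n)).2‖ - κ' ^ 2) = 0 := by
      intro n
      rcases (hx (φ n)).2.2.2.2.2.1 with h | h
      · rw [h, sub_self, zero_mul]
      · rw [h, sub_self, mul_zero]
    simp_rw [h2] at h1
    have h3 := tendsto_nhds_unique h1 tendsto_const_nhds
    rcases mul_eq_zero.mp h3 with h | h
    · left; linarith
    · right; linarith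
  have hineq : ∀ z : Fin 4 → ℂ, (∀ i, ‖z i‖ ≤ 1) → ∀ i,
        |(z i).im| ^ μ ≤ (2 * K * 2 ^ μ) * (∑ l, ‖Vf g c b z l‖ + 4 * 0) := by
    intro z hz i
    have h1 : Tendsto (fun n => (2 * K * 2 ^ μ) *
        (∑ l, ‖Vf g (x (φ n)).1 (x (φ n)).2 z l‖ + 4 * τ (φ n))) atTop
        (𝓝 ((2 * K * 2 ^ μ) * (∑ l, ‖Vf g c b z l‖ + 4 * 0))) := by
      apply Tendsto.const_mul
      apply Tendsto.add
      · apply tendsto_finsetSum
        intro l _
        have := ((continuous_Vf g z l).tendsto (c, b)).comp hlim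
        exact this.norm
      · exact (hτlim.comp hφ.tendsto_atTop).const_mul 4
    exact ge_of_tendsto' h1 fun n => (hx (φ n)).2.2.2.2.2.2 z hz i
  -- zeros of the limit field are real
  have hreal : ∀ z : Fin 4 → ℂ, (∀ l, Vf g c b z l = 0) → ∀ i, (z i).im = 0 := by
    intro z hz i
    have hz1 : ‖z‖ ≤ 1 := by
      by_contra hcon
      push Not at hcon
      have h1 := hgr z
      have h2 : ∀ l ∈ Finset.univ, ‖eval z (cx (pderiv l f))‖ ≤ 20 * κ' * ‖z‖ ^ 3 := by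
        intro l _
        have h3 := hz l
        unfold Vf at h3
        have h4 : eval z (cx (pderiv l f)) = -(∑ j, (b l j : ℂ) * z j) -
            ∑ j, ∑ m, (c l j m : ℂ) * (z j * z m) := by
          have : g l z = eval z (cx (pderiv l f)) := rfl
          rw [← this]
          linear_combination h3
        rw [h4]
        refine (norm_sub_le _ _).trans ?_
        rw [norm_neg]
        have h5 := bsum_le b z l
        have h6 := csum_le c z l
        have h7 : ‖z‖ ≤ ‖z‖ ^ 3 := by nlinarith [sq_nonneg ‖z‖]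
        have h8 : ‖z‖ ^ 2 ≤ ‖z‖ ^ 3 := by nlinarith [sq_nonneg ‖z‖]
        have h9 : ‖b‖ ≤ κ' := hcbmem.2.trans (by nlinarith)
        have h10 : 4 * ‖b‖ * ‖z‖ ≤ 4 * κ' * ‖z‖ ^ 3 :=
          mul_le_mul (by linarith) h7 (norm_nonneg _) (by positivity)
        have h11 : 16 * ‖c‖ * ‖z‖ ^ 2 ≤ 16 * κ' * ‖z‖ ^ 3 :=
          mul_le_mul (by linarith [hcbmem.1]) h8 (by positivity) (by positivity)
        linarith
      have h3 := h1.trans (Finset.sum_le_sum h2)
      simp only [Finset.sum_const, Finset.card_univ, Fintype.card_fin, nsmul_eq_mul] at h3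
      push_cast at h3
      have h4 : 0 < ‖z‖ ^ 3 := by positivity
      nlinarith
    have h1 := hineq z (fun i => (norm_le_pi_norm z i).trans hz1) i
    have h2 : ∑ l, ‖Vf g c b z l‖ = 0 := by
      apply Finset.sum_eq_zero
      intro l _
      rw [hz l, norm_zero]
    rw [h2] at h1
    simp only [mul_zero, add_zero] at h1
    have h3 : |(z i).im| ^ μ = 0 := le_antisymm h1 (by positivity)
    exact abs_eq_zero.mp (pow_eq_zero_iff (by omega) |>.mp h3)
  -- normalisation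
  refine ⟨κ'⁻¹ • c, (κ' ^ 2)⁻¹ • b, ?_, ?_, ?_, ?_, ?_, ?_, ?_⟩
  · intro l j; simp only [Pi.smul_apply]; rw [hbs]
  · intro l j m; simp only [Pi.smul_apply]; rw [hcs1]
  · intro l j m; simp only [Pi.smul_apply]; rw [hcs2]
  · rw [norm_smul, norm_inv, Real.norm_eq_abs, abs_of_pos hκ'0, inv_mul_le_iff₀ hκ'0, mul_one]
    exact hcbmem.1
  · rw [norm_smul, norm_inv, Real.norm_eq_abs, abs_of_pos (by positivity),
      inv_mul_le_iff₀ (by positivity), mul_one]
    exact hcbmem.2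
  · rcases hor with h | h
    · left
      rw [norm_smul, norm_inv, Real.norm_eq_abs, abs_of_pos hκ'0, h, inv_mul_cancel₀ hκ'0.ne']
    · right
      rw [norm_smul, norm_inv, Real.norm_eq_abs, abs_of_pos (by positivity), h,
        inv_mul_cancel₀ (by positivity)]
  · intro z hz i
    have h1 : ∀ l, Vf g c b ((κ' : ℂ) • z) l = 0 := by
      intro l
      have h2 := hz l
      have h3 : Vf g c b ((κ' : ℂ) • z) l =
          (κ' : ℂ) ^ 3 * Vf g (κ'⁻¹ • c) ((κ' ^ 2)⁻¹ • b) z l := by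
        have hκC : (κ' : ℂ) ≠ 0 := by exact_mod_cast hκ'0.ne'
        unfold Vf
        have h4 : g l ((κ' : ℂ) • z) = (κ' : ℂ) ^ 3 * g l z := eval_smul_of_homog (hhom l) _ _
        rw [h4]
        simp only [Pi.smul_apply, smul_eq_mul, mul_add, Finset.mul_sum]
        push_cast
        congr 2
        · apply Finset.sum_congr rfl
          intro j _
          field_simp
        · funext j
          apply Finset.sum_congr rfl
          intro m _
          field_simp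
      rw [h3, h2, mul_zero]
    have h2 := hreal _ h1 i
    simp only [Pi.smul_apply, smul_eq_mul, Complex.mul_im, Complex.ofReal_re, Complex.ofReal_im,
      zero_mul, add_zero] at h2
    rcases mul_eq_zero.mp h2 with h | h
    · exact absurd h hκ'0.ne'
    · exact h

end

end Helper22.Mor
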