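import Mathlib

/-!
# Persistence of isolated zeros of corank at most one
-/

namespace Helper22.Mor

open Filter Topology Metric

noncomputable section

lemma exists_zero_of_small (g : ℂ → ℂ) (δ c : ℝ) (hδ : 0 < δ) (hc : 0 < c)
    (hg : DifferentiableOn ℂ g (closedBall 0 δ)) (hs : ∀ s ∈ sphere (0 : ℂ) δ, c ≤ ‖g s‖)
    (h0 : ‖g 0‖ < c) : ∃ s ∈ ball (0 : ℂ) δ, g s = 0 := by
  by_contra hcon
  push Not at hcon
  have hne : ∀ s ∈ closedBall (0 : ℂ) δ, g s ≠ 0 := by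
    intro s hs'
    rw [← ball_union_sphere] at hs'
    rcases hs' with h | h
    · exact hcon s h
    · intro h2
      have := hs s h
      rw [h2, norm_zero] at this
      linarith
  have hd : DiffContOnCl ℂ (fun s => (g s)⁻¹) (ball 0 δ) := by
    have h1 : DifferentiableOn ℂ (fun s => (g s)⁻¹) (closedBall 0 δ) := hg.inv hne
    exact h1.diffContOnCl_ball le_rfl
  have h1 : ∀ z ∈ frontier (ball (0 : ℂ) δ), ‖(fun s => (g s)⁻¹) z‖ ≤ c⁻¹ := by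
    intro z hz
    rw [frontier_ball _ hδ.ne'] at hz
    simp only [norm_inv]
    exact inv_anti₀ hc (hs z hz)
  have h2 := Complex.norm_le_of_forall_mem_frontier_norm_le isBounded_ball hd h1
    (subset_closure (mem_ball_self hδ))
  simp only [norm_inv] at h2
  have h3 : g 0 ≠ 0 := hne 0 (mem_closedBall_self hδ.le)
  have h4 : 0 < ‖g 0‖ := norm_pos_iff.mpr h3
  have h5 := (inv_le_inv₀ h4 hc).mp h2
  linarith

theorem persist {Θ E F : Type*} [NormedAddCommGroup Θ] [NormedSpace ℂ Θ] [CompleteSpace Θ]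
    [NormedAddCommGroup E] [NormedSpace ℂ E] [CompleteSpace E]
    [NormedAddCommGroup F] [NormedSpace ℂ F] [CompleteSpace F]
    (Φ : (Θ × ℂ) × E → F) (e : (Θ × ℂ) × E → ℂ) (θ₀ : Θ) (x₀ : E)
    (hΦ : ContDiff ℂ 1 Φ) (he : ContDiff ℂ 1 e)
    (h0 : Φ ((θ₀, 0), x₀) = 0) (h0e : e ((θ₀, 0), x₀) = 0)
    (hinv : (fderiv ℂ Φ ((θ₀, 0), x₀) ∘L .inr ℂ (Θ × ℂ) E).IsInvertible)
    (hiso : ∀ᶠ (p : ℂ × E) in 𝓝 (0, x₀), p.1 ≠ 0 → Φ ((θ₀, p.1), p.2) = 0 →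
      e ((θ₀, p.1), p.2) ≠ 0)
    (W : Set (ℂ × E)) (hW : W ∈ 𝓝 ((0 : ℂ), x₀)) :
    ∀ᶠ θ in 𝓝 θ₀, ∃ p ∈ W, Φ ((θ, p.1), p.2) = 0 ∧ e ((θ, p.1), p.2) = 0 := by
  have hΦa : ContDiffAt ℂ 1 Φ ((θ₀, (0 : ℂ)), x₀) := hΦ.contDiffAt
  set ψ : Θ × ℂ → E := hΦa.implicitFunction one_ne_zero hinv with hψ
  have hψ0 : ψ (θ₀, 0) = x₀ := hΦa.implicitFunction_apply_self one_ne_zero hinv
  have hψeq : ∀ᶠ y in 𝓝 (θ₀, (0 : ℂ)), Φ (y, ψ y) = 0 := by
    have := hΦa.eventually_apply_implicitFunction one_ne_zero hinv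
    rw [h0] at this
    exact this
  have hψc : ContDiffAt ℂ 1 ψ (θ₀, (0 : ℂ)) := hΦa.contDiffAt_implicitFunction one_ne_zero hinv
  have hψc' : ∀ᶠ y in 𝓝 (θ₀, (0 : ℂ)), ContDiffAt ℂ 1 ψ y := hψc.eventually (by norm_num)
  have htend : Tendsto (fun y : Θ × ℂ => (y.2, ψ y)) (𝓝 (θ₀, (0 : ℂ))) (𝓝 (0, x₀)) := by
    rw [nhds_prod_eq (x := (0 : ℂ))]
    apply Tendsto.prodMk
    · exact continuous_snd.tendsto _
    · have := hψc.continuousAt.tendsto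
      rw [hψ0] at this
      exact this
  have hW' : ∀ᶠ y in 𝓝 (θ₀, (0 : ℂ)), (y.2, ψ y) ∈ W := htend.eventually hW
  have hiso' : ∀ᶠ y in 𝓝 (θ₀, (0 : ℂ)), y.2 ≠ 0 → Φ ((θ₀, y.2), ψ y) = 0 →
      e ((θ₀, y.2), ψ y) ≠ 0 := htend.eventually hiso
  have hall := ((hψeq.and hψc').and hW').and hiso'
  obtain ⟨r, hr, hball⟩ := Metric.eventually_nhds_iff_ball.mp hall
  set δ : ℝ := r / 2 with hδ
  have hδ0 : 0 < δ := by positivity
  have hmem : ∀ θ ∈ ball θ₀ r, ∀ s ∈ closedBall (0 : ℂ) δ, (θ, s) ∈ ball (θ₀, (0 : ℂ)) r := by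
    intro θ hθ s hs
    rw [mem_ball, Prod.dist_eq, max_lt_iff]
    refine ⟨hθ, ?_⟩
    have : dist s 0 ≤ δ := hs
    simp only
    linarith
  set g : Θ × ℂ → ℂ := fun y => e (y, ψ y) with hg
  have hgc : ∀ y ∈ ball (θ₀, (0 : ℂ)) r, ContDiffAt ℂ 1 g y := by
    intro y hy
    have h1 : ContDiffAt ℂ 1 ψ y := (hball y hy).1.1.2
    exact he.contDiffAt.comp y (contDiffAt_id.prodMk h1)
  have hg0 : g (θ₀, 0) = 0 := by
    simp only [hg]
    rw [hψ0]; exact h0e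
  have hgne : ∀ s ∈ closedBall (0 : ℂ) δ, s ≠ 0 → g (θ₀, s) ≠ 0 := by
    intro s hs hs0
    have h1 := hball (θ₀, s) (hmem θ₀ (mem_ball_self hr) s hs)
    exact h1.2 hs0 h1.1.1.1
  -- minimum on the sphere
  have hcont0 : ContinuousOn (fun s : ℂ => ‖g (θ₀, s)‖) (sphere 0 δ) := by
    intro s hs
    have h1 := (hgc (θ₀, s) (hmem θ₀ (mem_ball_self hr) s (sphere_subset_closedBall hs)))
    have h2 : ContinuousAt (fun s : ℂ => g (θ₀, s)) s :=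
      ContinuousAt.comp (f := fun s : ℂ => (θ₀, s)) (g := g) h1.continuousAt (by fun_prop)
    exact h2.norm.continuousWithinAt
  obtain ⟨s₀, hs₀, hmin⟩ := (isCompact_sphere (0 : ℂ) δ).exists_isMinOn
    (NormedSpace.sphere_nonempty.mpr hδ0.le) hcont0
  set c : ℝ := ‖g (θ₀, s₀)‖ with hc
  have hc0 : 0 < c := by
    apply norm_pos_iff.mpr
    apply hgne s₀ (sphere_subset_closedBall hs₀)
    intro h
    rw [h] at hs₀
    simp at hs₀
    exact hδ0.ne hs₀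
  have hev1 : ∀ᶠ θ in 𝓝 θ₀, ∀ s ∈ sphere (0 : ℂ) δ, c / 2 ≤ ‖g (θ, s)‖ := by
    apply (isCompact_sphere (0 : ℂ) δ).eventually_forall_of_forall_eventually
    intro s hs
    have h1 := (hgc (θ₀, s) (hmem θ₀ (mem_ball_self hr) s (sphere_subset_closedBall hs)))
    have h2 : c / 2 < ‖g (θ₀, s)‖ := by
      have : c ≤ ‖g (θ₀, s)‖ := hmin hs
      linarith
    have h3 : ∀ᶠ y in 𝓝 (θ₀, s), c / 2 < ‖g y‖ :=
      h1.continuousAt.norm.eventually (lt_mem_nhds h2)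
    exact h3.mono fun y hy => hy.le
  have hev2 : ∀ᶠ θ in 𝓝 θ₀, ‖g (θ, 0)‖ < c / 2 := by
    have h1 := (hgc (θ₀, 0) (mem_ball_self hr)).continuousAt
    have h2 : ContinuousAt (fun θ : Θ => g (θ, 0)) θ₀ :=
      ContinuousAt.comp (f := fun θ : Θ => (θ, (0 : ℂ))) (g := g) h1 (by fun_prop)
    have h3 : ‖g (θ₀, 0)‖ < c / 2 := by
      rw [hg0, norm_zero]
      positivity
    exact h2.norm.eventually (gt_mem_nhds h3)
  filter_upwards [hev1, hev2, ball_mem_nhds θ₀ hr] with θ h1 h2 h3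
  have hdiff : DifferentiableOn ℂ (fun s => g (θ, s)) (closedBall 0 δ) := by
    intro s hs
    have h4 := (hgc (θ, s) (hmem θ h3 s hs)).differentiableAt (by norm_num)
    have h5 : DifferentiableAt ℂ (fun s : ℂ => g (θ, s)) s :=
      DifferentiableAt.comp (f := fun s : ℂ => (θ, s)) (g := g) s h4 (by fun_prop)
    exact h5.differentiableWithinAt
  obtain ⟨s, hs, hs0⟩ := exists_zero_of_small (fun s => g (θ, s)) δ (c / 2) hδ0 (by positivity)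
    hdiff h1 h2
  have h6 := hball (θ, s) (hmem θ h3 s (ball_subset_closedBall hs))
  exact ⟨(s, ψ (θ, s)), h6.1.2, h6.1.1.1, hs0⟩

end

end Helper22.Mor
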