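import Mathlib
import Pool.Agent.Helper22.MorPersist

/-!
# The Kummer quartic: nodes and persistence
-/

namespace Helper22.Mor

open Filter Topology Metric

noncomputable section

/-- signs -/
def sg : Fin 4 → ℂ := ![1, 1, -1, -1]

/-- the quadratic form -/
def Sq (x : Fin 4 → ℂ) : ℂ := x 0 ^ 2 + x 1 ^ 2 - x 2 ^ 2 - x 3 ^ 2

/-- gradient of `(3+δ) ∑ xᵢ⁴ - Sq x ²` -/
def gk (δ : ℂ) (x : Fin 4 → ℂ) (l : Fin 4) : ℂ := 4 * x l * ((3 + δ) * x l ^ 2 - sg l * Sq x)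

/-- polar form of `Sq` -/
def Sp (x v : Fin 4 → ℂ) : ℂ := x 0 * v 0 + x 1 * v 1 - x 2 * v 2 - x 3 * v 3

/-- derivative of `gk 0` -/
def Dg (x v : Fin 4 → ℂ) (l : Fin 4) : ℂ :=
  4 * v l * (3 * x l ^ 2 - sg l * Sq x) + 4 * x l * (6 * x l * v l - 2 * sg l * Sp x v)

abbrev T3 := Fin 4 → Fin 4 → Fin 4 → ℂ
abbrev T2 := Fin 4 → Fin 4 → ℂ
abbrev Th := ℂ × T3 × T2

/-- vector field -/
def Vc (θ : Th) (x : Fin 4 → ℂ) (l : Fin 4) : ℂ :=
  gk θ.1 x l + ∑ j, θ.2.2 l j * x j + ∑ j, ∑ m, θ.2.1 l j m * (x j * x m)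

/-- homogenised vector field -/
def Fg (θ : Th) (s : ℂ) (x : Fin 4 → ℂ) (l : Fin 4) : ℂ :=
  gk θ.1 x l + s ^ 2 * ∑ j, θ.2.2 l j * x j + s * ∑ j, ∑ m, θ.2.1 l j m * (x j * x m)

/-- homogenised and translated vector field -/
def Fh (a : Fin 4 → ℂ) (θ : Th) (s : ℂ) (x : Fin 4 → ℂ) (l : Fin 4) : ℂ :=
  Fg θ s (x - s • a) l

lemma gk_smul (δ s : ℂ) (x : Fin 4 → ℂ) (l : Fin 4) : gk δ (s • x) l = s ^ 3 * gk δ x l := by
  simp only [gk, Sq, Pi.smul_apply, smul_eq_mul]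
  ring

lemma Fg_smul (θ : Th) (s : ℂ) (z : Fin 4 → ℂ) (l : Fin 4) :
    Fg θ s (s • z) l = s ^ 3 * Vc θ z l := by
  simp only [Fg, Vc, gk_smul, Pi.smul_apply, smul_eq_mul, mul_add, Finset.mul_sum]
  congr 2
  · apply Finset.sum_congr rfl
    intro j _; ring
  · funext j
    apply Finset.sum_congr rfl
    intro m _; ring

lemma continuous_gk (δ : ℂ) : Continuous (gk δ) := by
  unfold gk Sq
  fun_prop

lemma contDiff_Fh (a : Fin 4 → ℂ) (l : Fin 4) :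
    ContDiff ℂ 1 (fun y : (Th × ℂ) × (Fin 4 → ℂ) => Fh a y.1.1 y.1.2 y.2 l) := by
  unfold Fh Fg gk Sq
  simp only [Pi.sub_apply, Pi.smul_apply, smul_eq_mul]
  fun_prop

lemma sg_sq (i : Fin 4) : sg i ^ 2 = 1 := by
  fin_cases i <;> simp [sg]

/-- nodes of the Kummer quartic: one coordinate zero, the others with `sg i * P i ^ 2 = 1` -/
def IsNode (t : Fin 4) (P : Fin 4 → ℂ) : Prop := P t = 0 ∧ ∀ i, i ≠ t → sg i * P i ^ 2 = 1

lemma Sq_eq_sum (x : Fin 4 → ℂ) : Sq x = ∑ i, sg i * x i ^ 2 := by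
  simp [Sq, sg, Fin.sum_univ_four]; ring

lemma Sp_eq_sum (x v : Fin 4 → ℂ) : Sp x v = ∑ i, sg i * (x i * v i) := by
  simp [Sp, sg, Fin.sum_univ_four]; ring

lemma IsNode.Sq {t : Fin 4} {P : Fin 4 → ℂ} (h : IsNode t P) : Sq P = 3 := by
  rw [Sq_eq_sum, ← Finset.add_sum_erase _ _ (Finset.mem_univ t), h.1]
  rw [Finset.sum_congr rfl (g := fun _ => (1 : ℂ))]
  · simp
  · intro i hi
    exact h.2 i (Finset.ne_of_mem_erase hi)

lemma IsNode.sq {t : Fin 4} {P : Fin 4 → ℂ} (h : IsNode t P) {i : Fin 4} (hi : i ≠ t) :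
    P i ^ 2 = sg i := by
  have h1 := h.2 i hi
  have h2 := sg_sq i
  linear_combination sg i * h1 - P i ^ 2 * h2

lemma IsNode.gk {t : Fin 4} {P : Fin 4 → ℂ} (h : IsNode t P) (l : Fin 4) : gk 0 P l = 0 := by
  unfold Mor.gk
  by_cases hl : l = t
  · subst hl; rw [h.1]; ring
  · rw [h.sq hl, h.Sq]; ring

lemma IsNode.Dg_self {t : Fin 4} {P : Fin 4 → ℂ} (h : IsNode t P) (v : Fin 4 → ℂ) :
    Dg P v t = -12 * sg t * v t := by
  unfold Dg
  rw [h.1, h.Sq]; ring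

lemma IsNode.Dg_ne {t : Fin 4} {P : Fin 4 → ℂ} (h : IsNode t P) (v : Fin 4 → ℂ) {l : Fin 4}
    (hl : l ≠ t) : Dg P v l = 8 * sg l * (3 * v l - P l * Sp P v) := by
  unfold Dg
  rw [h.Sq]
  have := h.sq hl
  linear_combination (36 * v l) * this

lemma sg_ne (i : Fin 4) : sg i ≠ 0 := by
  intro h
  have := sg_sq i
  rw [h] at this
  norm_num at this

/-- nondegeneracy of the node -/
lemma IsNode.inj {t : Fin 4} {P : Fin 4 → ℂ} (h : IsNode t P) {i₀ : Fin 4} (hi : i₀ ≠ t)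
    (v : Fin 4 → ℂ) (hv : v i₀ = 0) (hD : ∀ l, l ≠ i₀ → Dg P v l = 0) : v = 0 := by
  have h1 : v t = 0 := by
    have := hD t hi.symm
    rw [h.Dg_self] at this
    simpa [sg_ne] using this
  have h2 : ∀ l, l ≠ t → l ≠ i₀ → v l = P l * Sp P v / 3 := by
    intro l hlt hli
    have := hD l hli
    rw [h.Dg_ne v hlt] at this
    have h3 : 3 * v l - P l * Sp P v = 0 := by
      simpa [sg_ne] using this
    linear_combination h3 / 3
  have h3 : Sp P v = 0 := by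
    have e1 : Sp P v = ∑ i, sg i * (P i * v i) := Sp_eq_sum P v
    have e2 : ∀ i, i ≠ t → i ≠ i₀ → sg i * (P i * v i) = Sp P v / 3 := by
      intro i hit hii
      rw [h2 i hit hii]
      have := h.2 i hit
      linear_combination (Sp P v / 3) * this
    have e3 : ∑ i, sg i * (P i * v i) = 2 * (Sp P v / 3) := by
      rw [← Finset.add_sum_erase _ _ (Finset.mem_univ t), h1,
        ← Finset.add_sum_erase _ _ (Finset.mem_erase.mpr ⟨hi, Finset.mem_univ i₀⟩), hv]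
      rw [Finset.sum_congr rfl (g := fun _ => Sp P v / 3)]
      · rw [Finset.sum_const, Finset.card_erase_of_mem (Finset.mem_erase.mpr
          ⟨hi, Finset.mem_univ i₀⟩), Finset.card_erase_of_mem (Finset.mem_univ t)]
        simp
      · intro i hi'
        have h5 := Finset.mem_erase.mp hi'
        have h6 := Finset.mem_erase.mp h5.2
        exact e2 i h6.1 h5.1
    rw [e3] at e1
    linear_combination 3 * e1
  ext l
  by_cases hlt : l = t
  · rw [hlt, h1]; rfl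
  · by_cases hli : l = i₀
    · rw [hli, hv]; rfl
    · rw [h2 l hlt hli, h3]; simp

/-- `4 f₀ = x · gk 0 x` vanishes to second order at a node -/
lemma IsNode.euler {t : Fin 4} {P : Fin 4 → ℂ} (h : IsNode t P) (u : Fin 4 → ℂ) :
    ∑ l, (P + u) l * Mor.gk 0 (P + u) l =
      4 * (-6 * (sg t * u t ^ 2) + 3 * ∑ l, (2 * P l * u l + u l ^ 2) ^ 2 -
        (∑ l, sg l * (2 * P l * u l + u l ^ 2)) ^ 2) := by
  have e1 : Mor.Sq (P + u) = 3 + ∑ l, sg l * (2 * P l * u l + u l ^ 2) := by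
    rw [← h.Sq, Sq_eq_sum, Sq_eq_sum, ← Finset.sum_add_distrib]
    apply Finset.sum_congr rfl
    intro l _
    simp only [Pi.add_apply]
    ring
  have e2 : ∀ l, (P + u) l * Mor.gk 0 (P + u) l =
      4 * (3 * (P + u) l ^ 4 - (sg l * (P + u) l ^ 2) * Mor.Sq (P + u)) := by
    intro l
    unfold Mor.gk
    ring
  have e3 : ∑ l, (P + u) l * Mor.gk 0 (P + u) l =
      4 * (3 * ∑ l, (P + u) l ^ 4 - Mor.Sq (P + u) ^ 2) := by
    rw [Finset.sum_congr rfl (fun l _ => e2 l), ← Finset.mul_sum, Finset.sum_sub_distrib,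
      ← Finset.sum_mul, ← Sq_eq_sum, ← Finset.mul_sum]
    ring
  have e4 : ∑ l, (P + u) l ^ 4 = 3 + 2 * (∑ l, sg l * (2 * P l * u l + u l ^ 2) -
      sg t * u t ^ 2) + ∑ l, (2 * P l * u l + u l ^ 2) ^ 2 := by
    have e5 : ∀ l, l ≠ t → (P + u) l ^ 4 = 1 + 2 * (sg l * (2 * P l * u l + u l ^ 2)) +
        (2 * P l * u l + u l ^ 2) ^ 2 := by
      intro l hl
      have h1 := h.sq hl
      have h2 := sg_sq l
      simp only [Pi.add_apply]
      linear_combination (P l ^ 2 + sg l + 2 * (2 * P l * u l + u l ^ 2)) * h1 + h2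
    rw [← Finset.add_sum_erase _ _ (Finset.mem_univ t),
      Finset.sum_congr rfl (fun l hl => e5 l (Finset.ne_of_mem_erase hl))]
    rw [← Finset.add_sum_erase _ (fun l => sg l * (2 * P l * u l + u l ^ 2)) (Finset.mem_univ t),
      ← Finset.add_sum_erase _ (fun l => (2 * P l * u l + u l ^ 2) ^ 2) (Finset.mem_univ t)]
    simp only [Finset.sum_add_distrib, ← Finset.mul_sum, Finset.sum_const,
      Finset.card_erase_of_mem (Finset.mem_univ t), Finset.card_univ, Fintype.card_fin,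
      Pi.add_apply, h.1]
    simp
    ring
  rw [e3, e1, e4]
  ring

lemma norm_sg (i : Fin 4) : ‖sg i‖ = 1 := by
  fin_cases i <;> simp [sg]

lemma IsNode.norm_le {t : Fin 4} {P : Fin 4 → ℂ} (h : IsNode t P) (i : Fin 4) : ‖P i‖ ≤ 1 := by
  by_cases hi : i = t
  · rw [hi, h.1]; simp
  · have h1 := congrArg norm (h.sq hi)
    rw [norm_pow, norm_sg] at h1
    have h2 := norm_nonneg (P i)
    nlinarith

lemma IsNode.euler_bound {t : Fin 4} {P : Fin 4 → ℂ} (h : IsNode t P) (x : Fin 4 → ℂ)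
    (hx : ‖x - P‖ ≤ 1) : ‖∑ l, x l * Mor.gk 0 x l‖ ≤ 1032 * ‖x - P‖ ^ 2 := by
  set u := x - P with hu
  have hxu : x = P + u := by rw [hu]; abel
  rw [hxu, h.euler u]
  have h0 : ∀ l, ‖u l‖ ≤ ‖u‖ := fun l => norm_le_pi_norm u l
  have h1 : ∀ l, ‖2 * P l * u l + u l ^ 2‖ ≤ 3 * ‖u‖ := by
    intro l
    refine (norm_add_le _ _).trans ?_
    rw [norm_mul, norm_mul, norm_pow]
    have h2 := h.norm_le l
    have h3 := h0 l
    have h4 := norm_nonneg (u l)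
    have h5 : ‖(2 : ℂ)‖ = 2 := by simp
    rw [h5]
    have h6 : ‖u l‖ ^ 2 ≤ ‖u‖ := by nlinarith
    have h7 : 2 * ‖P l‖ * ‖u l‖ ≤ 2 * ‖u‖ := by nlinarith [norm_nonneg (P l)]
    linarith
  have h2 : ‖(∑ l, (2 * P l * u l + u l ^ 2) ^ 2 : ℂ)‖ ≤ 36 * ‖u‖ ^ 2 := by
    refine (norm_sum_le _ _).trans ?_
    have : ∀ l ∈ Finset.univ, ‖((2 * P l * u l + u l ^ 2) ^ 2 : ℂ)‖ ≤ 9 * ‖u‖ ^ 2 := by
      intro l _
      rw [norm_pow]
      have := pow_le_pow_left₀ (norm_nonneg _) (h1 l) 2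
      linarith [this]
    refine (Finset.sum_le_sum this).trans ?_
    simp only [Finset.sum_const, Finset.card_univ, Fintype.card_fin, nsmul_eq_mul]
    push_cast
    linarith
  have h3 : ‖(∑ l, sg l * (2 * P l * u l + u l ^ 2) : ℂ)‖ ≤ 12 * ‖u‖ := by
    refine (norm_sum_le _ _).trans ?_
    have : ∀ l ∈ Finset.univ, ‖(sg l * (2 * P l * u l + u l ^ 2) : ℂ)‖ ≤ 3 * ‖u‖ := by
      intro l _
      rw [norm_mul, norm_sg, one_mul]
      exact h1 l
    refine (Finset.sum_le_sum this).trans ?_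
    simp only [Finset.sum_const, Finset.card_univ, Fintype.card_fin, nsmul_eq_mul]
    push_cast
    linarith
  have h4 : ‖(sg t * u t ^ 2 : ℂ)‖ ≤ ‖u‖ ^ 2 := by
    rw [norm_mul, norm_sg, one_mul, norm_pow]
    exact pow_le_pow_left₀ (norm_nonneg _) (h0 t) 2
  have h5 : ‖(∑ l, sg l * (2 * P l * u l + u l ^ 2) : ℂ) ^ 2‖ ≤ 144 * ‖u‖ ^ 2 := by
    rw [norm_pow]
    have := pow_le_pow_left₀ (norm_nonneg _) h3 2
    linarith [this]
  rw [norm_mul]
  have h6 : ‖(-6 * (sg t * u t ^ 2) + 3 * ∑ l, (2 * P l * u l + u l ^ 2) ^ 2 -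
        (∑ l, sg l * (2 * P l * u l + u l ^ 2)) ^ 2 : ℂ)‖ ≤
        6 * ‖u‖ ^ 2 + 3 * (36 * ‖u‖ ^ 2) + 144 * ‖u‖ ^ 2 := by
    refine (norm_sub_le _ _).trans (add_le_add ((norm_add_le _ _).trans (add_le_add ?_ ?_)) h5)
    · rw [norm_mul]
      have : ‖(-6 : ℂ)‖ = 6 := by simp
      rw [this]
      linarith
    · rw [norm_mul]
      have : ‖(3 : ℂ)‖ = 3 := by simp
      rw [this]
      linarith
  have h7 : ‖(4 : ℂ)‖ = 4 := by simp
  rw [h7]
  linarith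

/-- the map used to fix the coordinate `i₀` -/
def G0 (P : Fin 4 → ℂ) (i₀ : Fin 4) (x : Fin 4 → ℂ) (l : Fin 4) : ℂ :=
  if l = i₀ then x i₀ - P i₀ else gk 0 x l

/-- its derivative -/
def DG0 (P : Fin 4 → ℂ) (i₀ : Fin 4) (v : Fin 4 → ℂ) (l : Fin 4) : ℂ :=
  if l = i₀ then v i₀ else Dg P v l

lemma gk_line (P v : Fin 4 → ℂ) (t : ℂ) (l : Fin 4) :
    gk 0 (P + t • v) l = gk 0 P l + t * Dg P v l + t ^ 2 * Dg v P l + t ^ 3 * gk 0 v l := by
  simp only [gk, Dg, Sq, Sp, Pi.add_apply, Pi.smul_apply, smul_eq_mul]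
  ring

lemma hasDerivAt_gk_line (P v : Fin 4 → ℂ) (l : Fin 4) :
    HasDerivAt (fun t : ℂ => gk 0 (P + t • v) l) (Dg P v l) 0 := by
  have h1 : (fun t : ℂ => gk 0 (P + t • v) l) =
      fun t => gk 0 P l + t * Dg P v l + t ^ 2 * Dg v P l + t ^ 3 * gk 0 v l := by
    funext t
    exact gk_line P v t l
  rw [h1]
  have h2 : HasDerivAt (fun t : ℂ => gk 0 P l + t * Dg P v l + t ^ 2 * Dg v P l +
      t ^ 3 * gk 0 v l) (0 + 1 * Dg P v l + ((2 : ℕ) * (0 : ℂ) ^ (2 - 1) * 1) * Dg v P l +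
      ((3 : ℕ) * (0 : ℂ) ^ (3 - 1) * 1) * gk 0 v l) 0 := by
    refine ((((hasDerivAt_const _ _).add ((hasDerivAt_id _).mul_const _)).add
      (((hasDerivAt_id _).pow 2).mul_const _)).add (((hasDerivAt_id _).pow 3).mul_const _))
  convert! h2 using 1
  simp

lemma contDiff_G0 (P : Fin 4 → ℂ) (i₀ : Fin 4) : ContDiff ℂ 1 (G0 P i₀) := by
  rw [contDiff_pi]
  intro l
  by_cases hl : l = i₀
  · simp only [G0, hl, if_true]
    fun_prop
  · simp only [G0, hl, if_false]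
    unfold gk Sq
    fun_prop

lemma hasDerivAt_G0_line (P v : Fin 4 → ℂ) (i₀ : Fin 4) :
    HasDerivAt (fun t : ℂ => G0 P i₀ (P + t • v)) (DG0 P i₀ v) 0 := by
  rw [hasDerivAt_pi]
  intro l
  by_cases hl : l = i₀
  · simp only [G0, DG0, hl, if_true, Pi.add_apply, Pi.smul_apply, smul_eq_mul]
    have h2 : HasDerivAt (fun t : ℂ => P i₀ + t * v i₀ - P i₀) (0 + 1 * v i₀) 0 :=
      (((hasDerivAt_const _ _).add ((hasDerivAt_id _).mul_const _)).sub_const _)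
    convert! h2 using 1
    simp
  · simp only [G0, DG0, hl, if_false]
    exact hasDerivAt_gk_line P v l

lemma hasDerivAt_line (P v : Fin 4 → ℂ) : HasDerivAt (fun t : ℂ => P + t • v) v 0 := by
  have h2 : HasDerivAt (fun t : ℂ => P + t • v) (0 + (1 : ℂ) • v) 0 :=
    (hasDerivAt_const _ _).add ((hasDerivAt_id _).smul_const _)
  convert! h2 using 1
  simp

lemma fderiv_G0 (P v : Fin 4 → ℂ) (i₀ : Fin 4) : fderiv ℂ (G0 P i₀) P v = DG0 P i₀ v := by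
  have h1 : HasFDerivAt (G0 P i₀) (fderiv ℂ (G0 P i₀) P) (P + (0 : ℂ) • v) := by
    rw [zero_smul, add_zero]
    exact ((contDiff_G0 P i₀).differentiable (by norm_num) P).hasFDerivAt
  have h2 := h1.comp_hasDerivAt (0 : ℂ) (hasDerivAt_line P v)
  exact h2.unique (hasDerivAt_G0_line P v i₀)

lemma DG0_inj {t : Fin 4} {P : Fin 4 → ℂ} (h : IsNode t P) {i₀ : Fin 4} (hi : i₀ ≠ t)
    (v : Fin 4 → ℂ) (hv : DG0 P i₀ v = 0) : v = 0 := by
  apply h.inj hi v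
  · have := congrFun hv i₀
    simpa [DG0] using this
  · intro l hl
    have := congrFun hv l
    simpa [DG0, hl] using this

lemma isInvertible_of_eq {t : Fin 4} {P : Fin 4 → ℂ} (h : IsNode t P) {i₀ : Fin 4} (hi : i₀ ≠ t)
    (D : (Fin 4 → ℂ) →L[ℂ] (Fin 4 → ℂ)) (hD : ∀ v, D v = DG0 P i₀ v) : D.IsInvertible := by
  have hinj : Function.Injective (D : (Fin 4 → ℂ) →ₗ[ℂ] (Fin 4 → ℂ)) := by
    rw [← LinearMap.ker_eq_bot, LinearMap.ker_eq_bot']
    intro v hv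
    apply DG0_inj h hi
    rw [← hD v]
    exact hv
  refine ⟨(LinearEquiv.ofInjectiveEndo (D : (Fin 4 → ℂ) →ₗ[ℂ] (Fin 4 → ℂ))
    hinj).toContinuousLinearEquiv, ?_⟩
  ext v
  rfl

lemma IsNode.lower {t : Fin 4} {P : Fin 4 → ℂ} (h : IsNode t P) {i₀ : Fin 4} (hi : i₀ ≠ t) :
    ∃ K : ℝ, 0 < K ∧ ∀ᶠ x in 𝓝 P, x i₀ = P i₀ → ‖x - P‖ ≤ K * ‖Mor.gk 0 x‖ := by
  have hF : HasFDerivAt (G0 P i₀) (fderiv ℂ (G0 P i₀) P) P :=
    ((contDiff_G0 P i₀).differentiable (by norm_num) P).hasFDerivAt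
  obtain ⟨M, hM⟩ := isInvertible_of_eq h hi _ (fun v => fderiv_G0 P v i₀)
  have hind : Topology.IsInducing (fderiv ℂ (G0 P i₀) P) := by
    rw [← hM]
    exact M.toHomeomorph.isInducing
  have hO := (hF.isTheta_sub hind).isBigO_symm
  obtain ⟨K, hK, hKb⟩ := hO.exists_pos
  refine ⟨K, hK, ?_⟩
  have h2 := hKb.bound
  filter_upwards [h2] with x hx hxi
  refine hx.trans (mul_le_mul_of_nonneg_left ?_ hK.le)
  have h3 : G0 P i₀ P = 0 := by
    ext l
    simp only [G0, sub_self, h.gk l, ite_self]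
    rfl
  rw [h3, sub_zero, pi_norm_le_iff_of_nonneg (norm_nonneg _)]
  intro l
  by_cases hl : l = i₀
  · simp only [G0, hl, if_true, hxi, sub_self, norm_zero]
    exact norm_nonneg _
  · simp only [G0, hl, if_false]
    exact norm_le_pi_norm _ l

lemma IsNode.isolated {t : Fin 4} {P : Fin 4 → ℂ} (h : IsNode t P) {i₀ : Fin 4} (hi : i₀ ≠ t)
    (k : ℕ) (hk : k ≠ 0) (R : ℂ × (Fin 4 → ℂ) → Fin 4 → ℂ) (hR : Continuous R)
    (hPR : ∑ l, P l * R (0, P) l ≠ 0) :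
    ∀ᶠ p : ℂ × (Fin 4 → ℂ) in 𝓝 (0, P), p.1 ≠ 0 →
      (∀ l, Mor.gk 0 p.2 l + p.1 ^ k * R p l = 0) → p.2 i₀ = P i₀ → False := by
  obtain ⟨K, hK, hlow⟩ := h.lower hi
  set M : ℝ := ‖R (0, P)‖ + 1 with hM
  have hM0 : 0 < M := by positivity
  set r : ℝ := ‖∑ l, P l * R (0, P) l‖ / 2 with hr
  have hr0 : 0 < r := by
    have := norm_pos_iff.mpr hPR
    positivity
  have e1 : ∀ᶠ p : ℂ × (Fin 4 → ℂ) in 𝓝 (0, P), ‖R p‖ < M := by
    exact (hR.norm.tendsto ((0 : ℂ), P)).eventually_lt_const (by rw [hM]; linarith)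
  have e2 : ∀ᶠ p : ℂ × (Fin 4 → ℂ) in 𝓝 (0, P), r < ‖∑ l, p.2 l * R p l‖ := by
    have hc : Continuous fun p : ℂ × (Fin 4 → ℂ) => ‖∑ l, p.2 l * R p l‖ := by
      apply Continuous.norm
      apply continuous_finsetSum
      intro l _
      exact ((continuous_apply l).comp continuous_snd).mul ((continuous_apply l).comp hR)
    refine (hc.tendsto ((0 : ℂ), P)).eventually_const_lt ?_
    have := norm_pos_iff.mpr hPR
    simp only [hr]
    linarith
  have e3 : ∀ᶠ p : ℂ × (Fin 4 → ℂ) in 𝓝 (0, P), 1032 * (K * M) ^ 2 * ‖p.1‖ ^ k < r := by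
    have hc : Continuous fun p : ℂ × (Fin 4 → ℂ) => 1032 * (K * M) ^ 2 * ‖p.1‖ ^ k := by
      fun_prop
    refine (hc.tendsto ((0 : ℂ), P)).eventually_lt_const ?_
    simp only [norm_zero, zero_pow hk, mul_zero]
    exact hr0
  have e4 : ∀ᶠ p : ℂ × (Fin 4 → ℂ) in 𝓝 (0, P), ‖p.2 - P‖ < 1 := by
    have hc : Continuous fun p : ℂ × (Fin 4 → ℂ) => ‖p.2 - P‖ := by fun_prop
    refine (hc.tendsto ((0 : ℂ), P)).eventually_lt_const ?_
    simp
  have e5 : ∀ᶠ p : ℂ × (Fin 4 → ℂ) in 𝓝 (0, P), p.2 i₀ = P i₀ →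
      ‖p.2 - P‖ ≤ K * ‖Mor.gk 0 p.2‖ :=
    (continuous_snd.tendsto ((0 : ℂ), P)).eventually hlow
  filter_upwards [e1, e2, e3, e4, e5] with p h1 h2 h3 h4 h5 hp hz hpi
  have h6 : ‖Mor.gk 0 p.2‖ ≤ ‖p.1‖ ^ k * M := by
    rw [pi_norm_le_iff_of_nonneg (by positivity)]
    intro l
    have h7 : Mor.gk 0 p.2 l = -(p.1 ^ k * R p l) := by linear_combination hz l
    rw [h7, norm_neg, norm_mul, norm_pow]
    exact mul_le_mul_of_nonneg_left ((norm_le_pi_norm (R p) l).trans h1.le) (by positivity)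
  have h7 : ‖p.2 - P‖ ≤ K * M * ‖p.1‖ ^ k := by
    refine (h5 hpi).trans ?_
    calc K * ‖Mor.gk 0 p.2‖ ≤ K * (‖p.1‖ ^ k * M) := mul_le_mul_of_nonneg_left h6 hK.le
      _ = _ := by ring
  have h8 := h.euler_bound p.2 h4.le
  have h9 : ∑ l, p.2 l * Mor.gk 0 p.2 l = -(p.1 ^ k * ∑ l, p.2 l * R p l) := by
    rw [Finset.mul_sum, ← Finset.sum_neg_distrib]
    apply Finset.sum_congr rfl
    intro l _
    linear_combination p.2 l * hz l
  rw [h9, norm_neg, norm_mul, norm_pow] at h8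
  have h10 : 0 < ‖p.1‖ ^ k := by
    have := norm_pos_iff.mpr hp
    positivity
  have h11 : ‖p.2 - P‖ ^ 2 ≤ (K * M * ‖p.1‖ ^ k) ^ 2 := pow_le_pow_left₀ (norm_nonneg _) h7 2
  have h12 : ‖p.1‖ ^ k * ‖∑ l, p.2 l * R p l‖ ≤
      ‖p.1‖ ^ k * (1032 * (K * M) ^ 2 * ‖p.1‖ ^ k) := by
    nlinarith
  have h13 := le_of_mul_le_mul_left h12 h10
  linarith

lemma exists_idx (t : Fin 4) : ∃ i₀ i₁ : Fin 4, i₀ ≠ t ∧ i₁ ≠ t ∧ sg i₀ = 1 ∧ sg i₁ = -1 := by
  fin_cases t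
  · exact ⟨1, 2, by decide, by decide, by simp [sg], by simp [sg]⟩
  · exact ⟨0, 2, by decide, by decide, by simp [sg], by simp [sg]⟩
  · exact ⟨0, 3, by decide, by decide, by simp [sg], by simp [sg]⟩
  · exact ⟨0, 2, by decide, by decide, by simp [sg], by simp [sg]⟩

theorem node_persist (a : Fin 4 → ℝ) (θ₀ : Th) (k : ℕ) (hk : k ≠ 0)
    (R : ℂ × (Fin 4 → ℂ) → Fin 4 → ℂ) (hR : Continuous R)
    (hF : ∀ s x l, Fh (fun i => (a i : ℂ)) θ₀ s x l = gk 0 x l + s ^ k * R (s, x) l)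
    {t : Fin 4} {P : Fin 4 → ℂ} (h : IsNode t P) (hPR : ∑ l, P l * R (0, P) l ≠ 0) :
    ∀ᶠ θ in 𝓝 θ₀, (∀ x, (∀ l, gk θ.1 x l = 0) → x = 0) →
      ∃ z, (∀ l, Vc θ z l = 0) ∧ ∃ i, (z i).im ≠ 0 := by
  obtain ⟨i₀, i₁, hi₀, hi₁, hs₀, hs₁⟩ := exists_idx t
  set aC : Fin 4 → ℂ := fun i => (a i : ℂ) with haC
  set Φ : (Th × ℂ) × (Fin 4 → ℂ) → (Fin 4 → ℂ) := fun y l =>
    if l = i₀ then y.2 i₀ - P i₀ else Fh aC y.1.1 y.1.2 y.2 l with hΦ
  set e : (Th × ℂ) × (Fin 4 → ℂ) → ℂ := fun y => Fh aC y.1.1 y.1.2 y.2 i₀ with he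
  have hΦc : ContDiff ℂ 1 Φ := by
    rw [contDiff_pi]
    intro l
    by_cases hl : l = i₀
    · simp only [hΦ, hl, if_true]
      fun_prop
    · simp only [hΦ, hl, if_false]
      exact contDiff_Fh aC l
  have hec : ContDiff ℂ 1 e := contDiff_Fh aC i₀
  have hF0 : ∀ x l, Fh aC θ₀ 0 x l = gk 0 x l := by
    intro x l
    rw [hF, zero_pow hk, zero_mul, add_zero]
  have h0 : Φ ((θ₀, 0), P) = 0 := by
    ext l
    simp only [hΦ, sub_self, hF0, h.gk, ite_self]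
    rfl
  have h0e : e ((θ₀, 0), P) = 0 := by
    simp only [he, hF0, h.gk]
  have hinv : (fderiv ℂ Φ ((θ₀, 0), P) ∘L .inr ℂ (Th × ℂ) (Fin 4 → ℂ)).IsInvertible := by
    apply isInvertible_of_eq h hi₀
    intro v
    have h1 : HasFDerivAt Φ (fderiv ℂ Φ ((θ₀, 0), P)) ((θ₀, (0 : ℂ)), P + (0 : ℂ) • v) := by
      rw [zero_smul, add_zero]
      exact (hΦc.differentiable (by norm_num) _).hasFDerivAt
    have h2 : HasDerivAt (fun t : ℂ => (((θ₀, (0 : ℂ)) : Th × ℂ), P + t • v))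
        ((0 : Th × ℂ), v) 0 := (hasDerivAt_const _ _).prodMk (hasDerivAt_line P v)
    have h3 := h1.comp_hasDerivAt (0 : ℂ) h2
    have h4 : (Φ ∘ fun t : ℂ => (((θ₀, (0 : ℂ)) : Th × ℂ), P + t • v)) =
        fun t : ℂ => G0 P i₀ (P + t • v) := by
      funext t l
      simp only [Function.comp, hΦ, G0, hF0]
    rw [h4] at h3
    exact h3.unique (hasDerivAt_G0_line P v i₀)
  have hiso : ∀ᶠ (p : ℂ × (Fin 4 → ℂ)) in 𝓝 (0, P), p.1 ≠ 0 → Φ ((θ₀, p.1), p.2) = 0 →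
      e ((θ₀, p.1), p.2) ≠ 0 := by
    filter_upwards [h.isolated hi₀ k hk R hR hPR] with p hp hp1 hp2 hp3
    apply hp hp1
    · intro l
      by_cases hl : l = i₀
      · rw [hl, ← hF p.1 p.2 i₀]; exact hp3
      · have := congrFun hp2 l
        simp only [hΦ, hl, if_false, Pi.zero_apply] at this
        rw [← hF p.1 p.2 l]
        exact this
    · have := congrFun hp2 i₀
      simp only [hΦ, if_true, Pi.zero_apply] at this
      exact sub_eq_zero.mp this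
  have hW : {p : ℂ × (Fin 4 → ℂ) | ‖p.2 - P‖ < 1} ∈ 𝓝 ((0 : ℂ), P) := by
    have hc : Continuous fun p : ℂ × (Fin 4 → ℂ) => ‖p.2 - P‖ := by fun_prop
    refine (hc.tendsto ((0 : ℂ), P)).eventually_lt_const ?_
    simp
  have hper := persist Φ e θ₀ P hΦc hec h0 h0e hinv hiso _ hW
  filter_upwards [hper] with θ hθ hns
  obtain ⟨⟨s, x⟩, hxW, hx1, hx2⟩ := hθ
  have hxW' : ‖x - P‖ < 1 := hxW
  have hxi₀ : x i₀ = P i₀ := by
    have := congrFun hx1 i₀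
    simp only [hΦ, if_true, Pi.zero_apply] at this
    exact sub_eq_zero.mp this
  have hFz : ∀ l, Fh aC θ s x l = 0 := by
    intro l
    by_cases hl : l = i₀
    · rw [hl]; exact hx2
    · have := congrFun hx1 l
      simpa only [hΦ, hl, if_false, Pi.zero_apply] using this
  have hP0 : P i₀ ^ 2 = 1 := by rw [h.sq hi₀, hs₀]
  have hP1 : P i₁ ^ 2 = -1 := by rw [h.sq hi₁, hs₁]
  have hP0ne : P i₀ ≠ 0 := by
    intro h'
    rw [h'] at hP0
    norm_num at hP0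
  have hs : s ≠ 0 := by
    intro hs
    apply hP0ne
    rw [← hxi₀]
    have : x = 0 := by
      apply hns
      intro l
      have := hFz l
      rw [hs] at this
      simpa [Fh, Fg] using this
    rw [this]; rfl
  set z : Fin 4 → ℂ := s⁻¹ • (x - s • aC) with hz
  have hsz : s • z = x - s • aC := by
    rw [hz, smul_smul, mul_inv_cancel₀ hs, one_smul]
  refine ⟨z, fun l => ?_, ?_⟩
  · have h1 := hFz l
    unfold Fh at h1
    rw [← hsz, Fg_smul] at h1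
    rcases mul_eq_zero.mp h1 with h2 | h2
    · exact absurd (pow_eq_zero_iff (by norm_num) |>.mp h2) hs
    · exact h2
  · by_contra hcon
    push Not at hcon
    have hx' : ∀ i, x i = s * (z i + aC i) := by
      intro i
      have := congrFun hsz i
      simp only [Pi.smul_apply, Pi.sub_apply, smul_eq_mul] at this
      linear_combination -this
    have him : ∀ i, (z i + aC i).im = 0 := by
      intro i
      simp [haC, hcon i]
    -- `s` is real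
    have hP0im : (P i₀).im = 0 := by
      have : P i₀ ^ 2 = 1 ^ 2 := by rw [hP0]; norm_num
      rcases sq_eq_sq_iff_eq_or_eq_neg.mp this with h' | h' <;> simp [h']
    have hP1im : |(P i₁).im| = 1 := by
      have : P i₁ ^ 2 = Complex.I ^ 2 := by rw [hP1, Complex.I_sq]
      rcases sq_eq_sq_iff_eq_or_eq_neg.mp this with h' | h' <;> simp [h']
    have hr0 : (z i₀ + aC i₀).re ≠ 0 := by
      intro h'
      apply hP0ne
      rw [← hxi₀, hx' i₀]
      have : z i₀ + aC i₀ = 0 := Complex.ext h' (him i₀)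
      rw [this, mul_zero]
    have hsim : s.im = 0 := by
      have h1 : (s * (z i₀ + aC i₀)).im = 0 := by
        rw [← hx' i₀, hxi₀, hP0im]
      rw [Complex.mul_im, him i₀, mul_zero, zero_add] at h1
      rcases mul_eq_zero.mp h1 with h2 | h2
      · exact h2
      · exact absurd h2 hr0
    have hx1im : (x i₁).im = 0 := by
      rw [hx' i₁, Complex.mul_im, him i₁, hsim]
      ring
    have h1 : |(x i₁ - P i₁).im| < 1 :=
      (Complex.abs_im_le_norm _).trans_lt ((norm_le_pi_norm (x - P) i₁).trans_lt hxW')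
    rw [Complex.sub_im, hx1im, zero_sub, abs_neg, hP1im] at h1
    exact lt_irrefl _ h1

end

end Helper22.Mor
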