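import Mathlib
import Pool.Agent.Helper22.MorKummer

/-!
# Rigidity of the nodes of the Kummer quartic
-/

namespace Helper22.Mor

open Complex

set_option linter.unusedSimpArgs false

noncomputable section

lemma cubic_expand (c : Fin 4 → Fin 4 → Fin 4 → ℝ) (h1 : ∀ l j m, c l j m = c j l m)
    (h2 : ∀ l j m, c l j m = c l m j) (x : Fin 4 → ℂ) :
    ∑ l, x l * ∑ j, ∑ m, (c l j m : ℂ) * (x j * x m) =
      1 * (c 0 0 0 : ℂ) * (x 0 * x 0 * x 0) +
      3 * (c 0 0 1 : ℂ) * (x 0 * x 0 * x 1) +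
      3 * (c 0 0 2 : ℂ) * (x 0 * x 0 * x 2) +
      3 * (c 0 0 3 : ℂ) * (x 0 * x 0 * x 3) +
      3 * (c 0 1 1 : ℂ) * (x 0 * x 1 * x 1) +
      6 * (c 0 1 2 : ℂ) * (x 0 * x 1 * x 2) +
      6 * (c 0 1 3 : ℂ) * (x 0 * x 1 * x 3) +
      3 * (c 0 2 2 : ℂ) * (x 0 * x 2 * x 2) +
      6 * (c 0 2 3 : ℂ) * (x 0 * x 2 * x 3) +
      3 * (c 0 3 3 : ℂ) * (x 0 * x 3 * x 3) +
      1 * (c 1 1 1 : ℂ) * (x 1 * x 1 * x 1) +
      3 * (c 1 1 2 : ℂ) * (x 1 * x 1 * x 2) +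
      3 * (c 1 1 3 : ℂ) * (x 1 * x 1 * x 3) +
      3 * (c 1 2 2 : ℂ) * (x 1 * x 2 * x 2) +
      6 * (c 1 2 3 : ℂ) * (x 1 * x 2 * x 3) +
      3 * (c 1 3 3 : ℂ) * (x 1 * x 3 * x 3) +
      1 * (c 2 2 2 : ℂ) * (x 2 * x 2 * x 2) +
      3 * (c 2 2 3 : ℂ) * (x 2 * x 2 * x 3) +
      3 * (c 2 3 3 : ℂ) * (x 2 * x 3 * x 3) +
      1 * (c 3 3 3 : ℂ) * (x 3 * x 3 * x 3) := by
  have e010 : c 0 1 0 = c 0 0 1 := (h2 0 1 0)
  have e020 : c 0 2 0 = c 0 0 2 := (h2 0 2 0)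
  have e021 : c 0 2 1 = c 0 1 2 := (h2 0 2 1)
  have e030 : c 0 3 0 = c 0 0 3 := (h2 0 3 0)
  have e031 : c 0 3 1 = c 0 1 3 := (h2 0 3 1)
  have e032 : c 0 3 2 = c 0 2 3 := (h2 0 3 2)
  have e100 : c 1 0 0 = c 0 0 1 := ((h1 1 0 0).trans (h2 0 1 0))
  have e101 : c 1 0 1 = c 0 1 1 := (h1 1 0 1)
  have e102 : c 1 0 2 = c 0 1 2 := (h1 1 0 2)
  have e103 : c 1 0 3 = c 0 1 3 := (h1 1 0 3)
  have e110 : c 1 1 0 = c 0 1 1 := ((h2 1 1 0).trans (h1 1 0 1))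
  have e120 : c 1 2 0 = c 0 1 2 := ((h2 1 2 0).trans (h1 1 0 2))
  have e121 : c 1 2 1 = c 1 1 2 := (h2 1 2 1)
  have e130 : c 1 3 0 = c 0 1 3 := ((h2 1 3 0).trans (h1 1 0 3))
  have e131 : c 1 3 1 = c 1 1 3 := (h2 1 3 1)
  have e132 : c 1 3 2 = c 1 2 3 := (h2 1 3 2)
  have e200 : c 2 0 0 = c 0 0 2 := ((h1 2 0 0).trans (h2 0 2 0))
  have e201 : c 2 0 1 = c 0 1 2 := ((h1 2 0 1).trans (h2 0 2 1))
  have e202 : c 2 0 2 = c 0 2 2 := (h1 2 0 2)
  have e203 : c 2 0 3 = c 0 2 3 := (h1 2 0 3)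
  have e210 : c 2 1 0 = c 0 1 2 := (((h1 2 1 0).trans (h2 1 2 0)).trans (h1 1 0 2))
  have e211 : c 2 1 1 = c 1 1 2 := ((h1 2 1 1).trans (h2 1 2 1))
  have e212 : c 2 1 2 = c 1 2 2 := (h1 2 1 2)
  have e213 : c 2 1 3 = c 1 2 3 := (h1 2 1 3)
  have e220 : c 2 2 0 = c 0 2 2 := ((h2 2 2 0).trans (h1 2 0 2))
  have e221 : c 2 2 1 = c 1 2 2 := ((h2 2 2 1).trans (h1 2 1 2))
  have e230 : c 2 3 0 = c 0 2 3 := ((h2 2 3 0).trans (h1 2 0 3))
  have e231 : c 2 3 1 = c 1 2 3 := ((h2 2 3 1).trans (h1 2 1 3))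
  have e232 : c 2 3 2 = c 2 2 3 := (h2 2 3 2)
  have e300 : c 3 0 0 = c 0 0 3 := ((h1 3 0 0).trans (h2 0 3 0))
  have e301 : c 3 0 1 = c 0 1 3 := ((h1 3 0 1).trans (h2 0 3 1))
  have e302 : c 3 0 2 = c 0 2 3 := ((h1 3 0 2).trans (h2 0 3 2))
  have e303 : c 3 0 3 = c 0 3 3 := (h1 3 0 3)
  have e310 : c 3 1 0 = c 0 1 3 := (((h1 3 1 0).trans (h2 1 3 0)).trans (h1 1 0 3))
  have e311 : c 3 1 1 = c 1 1 3 := ((h1 3 1 1).trans (h2 1 3 1))
  have e312 : c 3 1 2 = c 1 2 3 := ((h1 3 1 2).trans (h2 1 3 2))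
  have e313 : c 3 1 3 = c 1 3 3 := (h1 3 1 3)
  have e320 : c 3 2 0 = c 0 2 3 := (((h1 3 2 0).trans (h2 2 3 0)).trans (h1 2 0 3))
  have e321 : c 3 2 1 = c 1 2 3 := (((h1 3 2 1).trans (h2 2 3 1)).trans (h1 2 1 3))
  have e322 : c 3 2 2 = c 2 2 3 := ((h1 3 2 2).trans (h2 2 3 2))
  have e323 : c 3 2 3 = c 2 3 3 := (h1 3 2 3)
  have e330 : c 3 3 0 = c 0 3 3 := ((h2 3 3 0).trans (h1 3 0 3))
  have e331 : c 3 3 1 = c 1 3 3 := ((h2 3 3 1).trans (h1 3 1 3))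
  have e332 : c 3 3 2 = c 2 3 3 := ((h2 3 3 2).trans (h1 3 2 3))
  simp only [Fin.sum_univ_four, e010, e020, e021, e030, e031, e032, e100, e101, e102, e103, e110, e120, e121, e130, e131, e132, e200, e201, e202, e203, e210, e211, e212, e213, e220, e221, e230, e231, e232, e300, e301, e302, e303, e310, e311, e312, e313, e320, e321, e322, e323, e330, e331, e332]
  ring

lemma quad_expand (b : Fin 4 → Fin 4 → ℝ) (h1 : ∀ l j, b l j = b j l) (x : Fin 4 → ℂ) :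
    ∑ l, x l * ∑ j, (b l j : ℂ) * x j =
      1 * (b 0 0 : ℂ) * (x 0 * x 0) +
      2 * (b 0 1 : ℂ) * (x 0 * x 1) +
      2 * (b 0 2 : ℂ) * (x 0 * x 2) +
      2 * (b 0 3 : ℂ) * (x 0 * x 3) +
      1 * (b 1 1 : ℂ) * (x 1 * x 1) +
      2 * (b 1 2 : ℂ) * (x 1 * x 2) +
      2 * (b 1 3 : ℂ) * (x 1 * x 3) +
      1 * (b 2 2 : ℂ) * (x 2 * x 2) +
      2 * (b 2 3 : ℂ) * (x 2 * x 3) +
      1 * (b 3 3 : ℂ) * (x 3 * x 3) := by
  simp only [Fin.sum_univ_four, h1 1 0, h1 2 0, h1 2 1, h1 3 0, h1 3 1, h1 3 2]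
  ring

lemma node0 : IsNode 0 ![0, 1, I, I] := by
  refine ⟨by simp, fun i hi => ?_⟩
  fin_cases i <;> simp_all [sg]

lemma node1 : IsNode 0 ![0, 1, I, -I] := by
  refine ⟨by simp, fun i hi => ?_⟩
  fin_cases i <;> simp_all [sg]

lemma node2 : IsNode 0 ![0, 1, -I, I] := by
  refine ⟨by simp, fun i hi => ?_⟩
  fin_cases i <;> simp_all [sg]

lemma node3 : IsNode 0 ![0, 1, -I, -I] := by
  refine ⟨by simp, fun i hi => ?_⟩
  fin_cases i <;> simp_all [sg]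

lemma node4 : IsNode 1 ![1, 0, I, I] := by
  refine ⟨by simp, fun i hi => ?_⟩
  fin_cases i <;> simp_all [sg]

lemma node5 : IsNode 1 ![1, 0, I, -I] := by
  refine ⟨by simp, fun i hi => ?_⟩
  fin_cases i <;> simp_all [sg]

lemma node6 : IsNode 1 ![1, 0, -I, I] := by
  refine ⟨by simp, fun i hi => ?_⟩
  fin_cases i <;> simp_all [sg]

lemma node7 : IsNode 1 ![1, 0, -I, -I] := by
  refine ⟨by simp, fun i hi => ?_⟩
  fin_cases i <;> simp_all [sg]

lemma node8 : IsNode 2 ![1, 1, 0, I] := by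
  refine ⟨by simp, fun i hi => ?_⟩
  fin_cases i <;> simp_all [sg]

lemma node9 : IsNode 2 ![1, 1, 0, -I] := by
  refine ⟨by simp, fun i hi => ?_⟩
  fin_cases i <;> simp_all [sg]

lemma node10 : IsNode 2 ![1, -1, 0, I] := by
  refine ⟨by simp, fun i hi => ?_⟩
  fin_cases i <;> simp_all [sg]

lemma node11 : IsNode 2 ![1, -1, 0, -I] := by
  refine ⟨by simp, fun i hi => ?_⟩
  fin_cases i <;> simp_all [sg]

lemma node12 : IsNode 3 ![1, 1, I, 0] := by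
  refine ⟨by simp, fun i hi => ?_⟩
  fin_cases i <;> simp_all [sg]

lemma node13 : IsNode 3 ![1, 1, -I, 0] := by
  refine ⟨by simp, fun i hi => ?_⟩
  fin_cases i <;> simp_all [sg]

lemma node14 : IsNode 3 ![1, -1, I, 0] := by
  refine ⟨by simp, fun i hi => ?_⟩
  fin_cases i <;> simp_all [sg]

lemma node15 : IsNode 3 ![1, -1, -I, 0] := by
  refine ⟨by simp, fun i hi => ?_⟩
  fin_cases i <;> simp_all [sg]

lemma cubic_rigid (c : Fin 4 → Fin 4 → Fin 4 → ℝ) (h1 : ∀ l j m, c l j m = c j l m)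
    (h2 : ∀ l j m, c l j m = c l m j)
    (hN : ∀ t P, IsNode t P → ∑ l, P l * ∑ j, ∑ m, (c l j m : ℂ) * (P j * P m) = 0) :
    ∃ a : Fin 4 → ℝ, ∀ (x : Fin 4 → ℂ) (l : Fin 4),
      ∑ j, ∑ m, (c l j m : ℂ) * (x j * x m) = Dg x (fun i => (a i : ℂ)) l := by
  have q0 := hN _ _ node0
  rw [cubic_expand c h1 h2] at q0
  simp [Complex.ext_iff] at q0
  obtain ⟨r0, i0⟩ := q0
  have q1 := hN _ _ node1
  rw [cubic_expand c h1 h2] at q1
  simp [Complex.ext_iff] at q1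
  obtain ⟨r1, i1⟩ := q1
  have q2 := hN _ _ node2
  rw [cubic_expand c h1 h2] at q2
  simp [Complex.ext_iff] at q2
  obtain ⟨r2, i2⟩ := q2
  have q3 := hN _ _ node3
  rw [cubic_expand c h1 h2] at q3
  simp [Complex.ext_iff] at q3
  obtain ⟨r3, i3⟩ := q3
  have q4 := hN _ _ node4
  rw [cubic_expand c h1 h2] at q4
  simp [Complex.ext_iff] at q4
  obtain ⟨r4, i4⟩ := q4
  have q5 := hN _ _ node5
  rw [cubic_expand c h1 h2] at q5
  simp [Complex.ext_iff] at q5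
  obtain ⟨r5, i5⟩ := q5
  have q6 := hN _ _ node6
  rw [cubic_expand c h1 h2] at q6
  simp [Complex.ext_iff] at q6
  obtain ⟨r6, i6⟩ := q6
  have q7 := hN _ _ node7
  rw [cubic_expand c h1 h2] at q7
  simp [Complex.ext_iff] at q7
  obtain ⟨r7, i7⟩ := q7
  have q8 := hN _ _ node8
  rw [cubic_expand c h1 h2] at q8
  simp [Complex.ext_iff] at q8
  obtain ⟨r8, i8⟩ := q8
  have q9 := hN _ _ node9
  rw [cubic_expand c h1 h2] at q9
  simp [Complex.ext_iff] at q9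
  obtain ⟨r9, i9⟩ := q9
  have q10 := hN _ _ node10
  rw [cubic_expand c h1 h2] at q10
  simp [Complex.ext_iff] at q10
  obtain ⟨r10, i10⟩ := q10
  have q11 := hN _ _ node11
  rw [cubic_expand c h1 h2] at q11
  simp [Complex.ext_iff] at q11
  obtain ⟨r11, i11⟩ := q11
  have q12 := hN _ _ node12
  rw [cubic_expand c h1 h2] at q12
  simp [Complex.ext_iff] at q12
  obtain ⟨r12, i12⟩ := q12
  have q13 := hN _ _ node13
  rw [cubic_expand c h1 h2] at q13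
  simp [Complex.ext_iff] at q13
  obtain ⟨r13, i13⟩ := q13
  have q14 := hN _ _ node14
  rw [cubic_expand c h1 h2] at q14
  simp [Complex.ext_iff] at q14
  obtain ⟨r14, i14⟩ := q14
  have q15 := hN _ _ node15
  rw [cubic_expand c h1 h2] at q15
  simp [Complex.ext_iff] at q15
  obtain ⟨r15, i15⟩ := q15
  have z01 : c 0 1 1 = -(1 / 6) * c 0 0 0 := by linarith
  have z02 : c 0 2 2 = (1 / 6) * c 0 0 0 := by linarith
  have z03 : c 0 3 3 = (1 / 6) * c 0 0 0 := by linarith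
  have z10 : c 0 0 1 = -(1 / 6) * c 1 1 1 := by linarith
  have z12 : c 1 2 2 = (1 / 6) * c 1 1 1 := by linarith
  have z13 : c 1 3 3 = (1 / 6) * c 1 1 1 := by linarith
  have z20 : c 0 0 2 = (1 / 6) * c 2 2 2 := by linarith
  have z21 : c 1 1 2 = (1 / 6) * c 2 2 2 := by linarith
  have z23 : c 2 3 3 = -(1 / 6) * c 2 2 2 := by linarith
  have z30 : c 0 0 3 = (1 / 6) * c 3 3 3 := by linarith
  have z31 : c 1 1 3 = (1 / 6) * c 3 3 3 := by linarith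
  have z32 : c 2 2 3 = -(1 / 6) * c 3 3 3 := by linarith
  have w012 : c 0 1 2 = 0 := by linarith
  have w013 : c 0 1 3 = 0 := by linarith
  have w023 : c 0 2 3 = 0 := by linarith
  have w123 : c 1 2 3 = 0 := by linarith
  have e010 : c 0 1 0 = c 0 0 1 := (h2 0 1 0)
  have e020 : c 0 2 0 = c 0 0 2 := (h2 0 2 0)
  have e021 : c 0 2 1 = c 0 1 2 := (h2 0 2 1)
  have e030 : c 0 3 0 = c 0 0 3 := (h2 0 3 0)
  have e031 : c 0 3 1 = c 0 1 3 := (h2 0 3 1)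
  have e032 : c 0 3 2 = c 0 2 3 := (h2 0 3 2)
  have e100 : c 1 0 0 = c 0 0 1 := ((h1 1 0 0).trans (h2 0 1 0))
  have e101 : c 1 0 1 = c 0 1 1 := (h1 1 0 1)
  have e102 : c 1 0 2 = c 0 1 2 := (h1 1 0 2)
  have e103 : c 1 0 3 = c 0 1 3 := (h1 1 0 3)
  have e110 : c 1 1 0 = c 0 1 1 := ((h2 1 1 0).trans (h1 1 0 1))
  have e120 : c 1 2 0 = c 0 1 2 := ((h2 1 2 0).trans (h1 1 0 2))
  have e121 : c 1 2 1 = c 1 1 2 := (h2 1 2 1)
  have e130 : c 1 3 0 = c 0 1 3 := ((h2 1 3 0).trans (h1 1 0 3))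
  have e131 : c 1 3 1 = c 1 1 3 := (h2 1 3 1)
  have e132 : c 1 3 2 = c 1 2 3 := (h2 1 3 2)
  have e200 : c 2 0 0 = c 0 0 2 := ((h1 2 0 0).trans (h2 0 2 0))
  have e201 : c 2 0 1 = c 0 1 2 := ((h1 2 0 1).trans (h2 0 2 1))
  have e202 : c 2 0 2 = c 0 2 2 := (h1 2 0 2)
  have e203 : c 2 0 3 = c 0 2 3 := (h1 2 0 3)
  have e210 : c 2 1 0 = c 0 1 2 := (((h1 2 1 0).trans (h2 1 2 0)).trans (h1 1 0 2))
  have e211 : c 2 1 1 = c 1 1 2 := ((h1 2 1 1).trans (h2 1 2 1))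
  have e212 : c 2 1 2 = c 1 2 2 := (h1 2 1 2)
  have e213 : c 2 1 3 = c 1 2 3 := (h1 2 1 3)
  have e220 : c 2 2 0 = c 0 2 2 := ((h2 2 2 0).trans (h1 2 0 2))
  have e221 : c 2 2 1 = c 1 2 2 := ((h2 2 2 1).trans (h1 2 1 2))
  have e230 : c 2 3 0 = c 0 2 3 := ((h2 2 3 0).trans (h1 2 0 3))
  have e231 : c 2 3 1 = c 1 2 3 := ((h2 2 3 1).trans (h1 2 1 3))
  have e232 : c 2 3 2 = c 2 2 3 := (h2 2 3 2)
  have e300 : c 3 0 0 = c 0 0 3 := ((h1 3 0 0).trans (h2 0 3 0))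
  have e301 : c 3 0 1 = c 0 1 3 := ((h1 3 0 1).trans (h2 0 3 1))
  have e302 : c 3 0 2 = c 0 2 3 := ((h1 3 0 2).trans (h2 0 3 2))
  have e303 : c 3 0 3 = c 0 3 3 := (h1 3 0 3)
  have e310 : c 3 1 0 = c 0 1 3 := (((h1 3 1 0).trans (h2 1 3 0)).trans (h1 1 0 3))
  have e311 : c 3 1 1 = c 1 1 3 := ((h1 3 1 1).trans (h2 1 3 1))
  have e312 : c 3 1 2 = c 1 2 3 := ((h1 3 1 2).trans (h2 1 3 2))
  have e313 : c 3 1 3 = c 1 3 3 := (h1 3 1 3)
  have e320 : c 3 2 0 = c 0 2 3 := (((h1 3 2 0).trans (h2 2 3 0)).trans (h1 2 0 3))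
  have e321 : c 3 2 1 = c 1 2 3 := (((h1 3 2 1).trans (h2 2 3 1)).trans (h1 2 1 3))
  have e322 : c 3 2 2 = c 2 2 3 := ((h1 3 2 2).trans (h2 2 3 2))
  have e323 : c 3 2 3 = c 2 3 3 := (h1 3 2 3)
  have e330 : c 3 3 0 = c 0 3 3 := ((h2 3 3 0).trans (h1 3 0 3))
  have e331 : c 3 3 1 = c 1 3 3 := ((h2 3 3 1).trans (h1 3 1 3))
  have e332 : c 3 3 2 = c 2 3 3 := ((h2 3 3 2).trans (h1 3 2 3))
  refine ⟨fun i => c i i i / 24, fun x l => ?_⟩
  have hall : ∀ l, ∑ j, ∑ m, (c l j m : ℂ) * (x j * x m) = Dg x (fun i => ((c i i i / 24 : ℝ) : ℂ)) l := by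
    intro l
    unfold Dg Sq Sp
    fin_cases l
    · simp only [Fin.sum_univ_four, Fin.zero_eta, Fin.mk_one, Fin.reduceFinMk, sg, e010, e020, e021, e030, e031, e032, e100, e101, e102, e103, e110, e120, e121, e130, e131, e132, e200, e201, e202, e203, e210, e211, e212, e213, e220, e221, e230, e231, e232, e300, e301, e302, e303, e310, e311, e312, e313, e320, e321, e322, e323, e330, e331, e332, z01, z02, z03, z10, z12, z13, z20, z21, z23, z30, z31, z32, w012, w013, w023, w123]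
      push_cast
      simp
      ring
    · simp only [Fin.sum_univ_four, Fin.zero_eta, Fin.mk_one, Fin.reduceFinMk, sg, e010, e020, e021, e030, e031, e032, e100, e101, e102, e103, e110, e120, e121, e130, e131, e132, e200, e201, e202, e203, e210, e211, e212, e213, e220, e221, e230, e231, e232, e300, e301, e302, e303, e310, e311, e312, e313, e320, e321, e322, e323, e330, e331, e332, z01, z02, z03, z10, z12, z13, z20, z21, z23, z30, z31, z32, w012, w013, w023, w123]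
      push_cast
      simp
      ring
    · simp only [Fin.sum_univ_four, Fin.zero_eta, Fin.mk_one, Fin.reduceFinMk, sg, e010, e020, e021, e030, e031, e032, e100, e101, e102, e103, e110, e120, e121, e130, e131, e132, e200, e201, e202, e203, e210, e211, e212, e213, e220, e221, e230, e231, e232, e300, e301, e302, e303, e310, e311, e312, e313, e320, e321, e322, e323, e330, e331, e332, z01, z02, z03, z10, z12, z13, z20, z21, z23, z30, z31, z32, w012, w013, w023, w123]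
      push_cast
      simp
      ring
    · simp only [Fin.sum_univ_four, Fin.zero_eta, Fin.mk_one, Fin.reduceFinMk, sg, e010, e020, e021, e030, e031, e032, e100, e101, e102, e103, e110, e120, e121, e130, e131, e132, e200, e201, e202, e203, e210, e211, e212, e213, e220, e221, e230, e231, e232, e300, e301, e302, e303, e310, e311, e312, e313, e320, e321, e322, e323, e330, e331, e332, z01, z02, z03, z10, z12, z13, z20, z21, z23, z30, z31, z32, w012, w013, w023, w123]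
      push_cast
      simp
      ring
  exact hall l

lemma quad_rigid (b : Fin 4 → Fin 4 → ℝ) (h1 : ∀ l j, b l j = b j l)
    (hN : ∀ t P, IsNode t P → ∑ l, P l * ∑ j, (b l j : ℂ) * P j = 0) : b = 0 := by
  have q0 := hN _ _ node0
  rw [quad_expand b h1] at q0
  simp [Complex.ext_iff] at q0
  obtain ⟨r0, i0⟩ := q0
  have q1 := hN _ _ node1
  rw [quad_expand b h1] at q1
  simp [Complex.ext_iff] at q1
  obtain ⟨r1, i1⟩ := q1
  have q2 := hN _ _ node2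
  rw [quad_expand b h1] at q2
  simp [Complex.ext_iff] at q2
  obtain ⟨r2, i2⟩ := q2
  have q3 := hN _ _ node3
  rw [quad_expand b h1] at q3
  simp [Complex.ext_iff] at q3
  obtain ⟨r3, i3⟩ := q3
  have q4 := hN _ _ node4
  rw [quad_expand b h1] at q4
  simp [Complex.ext_iff] at q4
  obtain ⟨r4, i4⟩ := q4
  have q5 := hN _ _ node5
  rw [quad_expand b h1] at q5
  simp [Complex.ext_iff] at q5
  obtain ⟨r5, i5⟩ := q5
  have q6 := hN _ _ node6
  rw [quad_expand b h1] at q6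
  simp [Complex.ext_iff] at q6
  obtain ⟨r6, i6⟩ := q6
  have q7 := hN _ _ node7
  rw [quad_expand b h1] at q7
  simp [Complex.ext_iff] at q7
  obtain ⟨r7, i7⟩ := q7
  have q8 := hN _ _ node8
  rw [quad_expand b h1] at q8
  simp [Complex.ext_iff] at q8
  obtain ⟨r8, i8⟩ := q8
  have q9 := hN _ _ node9
  rw [quad_expand b h1] at q9
  simp [Complex.ext_iff] at q9
  obtain ⟨r9, i9⟩ := q9
  have q10 := hN _ _ node10
  rw [quad_expand b h1] at q10
  simp [Complex.ext_iff] at q10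
  obtain ⟨r10, i10⟩ := q10
  have q11 := hN _ _ node11
  rw [quad_expand b h1] at q11
  simp [Complex.ext_iff] at q11
  obtain ⟨r11, i11⟩ := q11
  have q12 := hN _ _ node12
  rw [quad_expand b h1] at q12
  simp [Complex.ext_iff] at q12
  obtain ⟨r12, i12⟩ := q12
  have q13 := hN _ _ node13
  rw [quad_expand b h1] at q13
  simp [Complex.ext_iff] at q13
  obtain ⟨r13, i13⟩ := q13
  have q14 := hN _ _ node14
  rw [quad_expand b h1] at q14
  simp [Complex.ext_iff] at q14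
  obtain ⟨r14, i14⟩ := q14
  have q15 := hN _ _ node15
  rw [quad_expand b h1] at q15
  simp [Complex.ext_iff] at q15
  obtain ⟨r15, i15⟩ := q15
  have w00 : b 0 0 = 0 := by linarith
  have w01 : b 0 1 = 0 := by linarith
  have w02 : b 0 2 = 0 := by linarith
  have w03 : b 0 3 = 0 := by linarith
  have w11 : b 1 1 = 0 := by linarith
  have w12 : b 1 2 = 0 := by linarith
  have w13 : b 1 3 = 0 := by linarith
  have w22 : b 2 2 = 0 := by linarith
  have w23 : b 2 3 = 0 := by linarith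
  have w33 : b 3 3 = 0 := by linarith
  funext l j
  fin_cases l <;> fin_cases j <;> simp [h1 1 0, h1 2 0, h1 3 0, h1 2 1, h1 3 1, h1 3 2, w00, w01, w02, w03, w11, w12, w13, w22, w23, w33]

lemma lin_rigid (v : Fin 4 → ℝ) (hN : ∀ t P, IsNode t P → ∑ l, P l * (v l : ℂ) = 0) : v = 0 := by
  have q0 := hN _ _ node0
  simp [Fin.sum_univ_four, Complex.ext_iff] at q0
  obtain ⟨r0, i0⟩ := q0
  have q1 := hN _ _ node1
  simp [Fin.sum_univ_four, Complex.ext_iff] at q1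
  obtain ⟨r1, i1⟩ := q1
  have q2 := hN _ _ node2
  simp [Fin.sum_univ_four, Complex.ext_iff] at q2
  obtain ⟨r2, i2⟩ := q2
  have q3 := hN _ _ node3
  simp [Fin.sum_univ_four, Complex.ext_iff] at q3
  obtain ⟨r3, i3⟩ := q3
  have q4 := hN _ _ node4
  simp [Fin.sum_univ_four, Complex.ext_iff] at q4
  obtain ⟨r4, i4⟩ := q4
  have q5 := hN _ _ node5
  simp [Fin.sum_univ_four, Complex.ext_iff] at q5
  obtain ⟨r5, i5⟩ := q5
  have q6 := hN _ _ node6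
  simp [Fin.sum_univ_four, Complex.ext_iff] at q6
  obtain ⟨r6, i6⟩ := q6
  have q7 := hN _ _ node7
  simp [Fin.sum_univ_four, Complex.ext_iff] at q7
  obtain ⟨r7, i7⟩ := q7
  have q8 := hN _ _ node8
  simp [Fin.sum_univ_four, Complex.ext_iff] at q8
  obtain ⟨r8, i8⟩ := q8
  have q9 := hN _ _ node9
  simp [Fin.sum_univ_four, Complex.ext_iff] at q9
  obtain ⟨r9, i9⟩ := q9
  have q10 := hN _ _ node10
  simp [Fin.sum_univ_four, Complex.ext_iff] at q10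
  obtain ⟨r10, i10⟩ := q10
  have q11 := hN _ _ node11
  simp [Fin.sum_univ_four, Complex.ext_iff] at q11
  obtain ⟨r11, i11⟩ := q11
  have q12 := hN _ _ node12
  simp [Fin.sum_univ_four, Complex.ext_iff] at q12
  obtain ⟨r12, i12⟩ := q12
  have q13 := hN _ _ node13
  simp [Fin.sum_univ_four, Complex.ext_iff] at q13
  obtain ⟨r13, i13⟩ := q13
  have q14 := hN _ _ node14
  simp [Fin.sum_univ_four, Complex.ext_iff] at q14
  obtain ⟨r14, i14⟩ := q14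
  have q15 := hN _ _ node15
  simp [Fin.sum_univ_four, Complex.ext_iff] at q15
  obtain ⟨r15, i15⟩ := q15
  have w0 : v 0 = 0 := by linarith
  have w1 : v 1 = 0 := by linarith
  have w2 : v 2 = 0 := by linarith
  have w3 : v 3 = 0 := by linarith
  funext l
  fin_cases l <;> simp [w0, w1, w2, w3]

end

end Helper22.Mor
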