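import Mathlib
import Pool.Agent.Helper22.MorRigid

/-!
# No real-rooted perturbations of the forms near the Kummer quartic
-/

namespace Helper22.Mor

open Filter Topology Metric

noncomputable section

lemma gk_nonsing (δ : ℝ) (h0 : 0 < δ) (h1 : δ < 1) (x : Fin 4 → ℂ) (hx : ∀ l, gk δ x l = 0) :
    x = 0 := by
  have hk : ∀ l, ∃ k : ℕ, (3 + (δ : ℂ)) * (sg l * x l ^ 2) = k * Sq x := by
    intro l
    have h := hx l
    unfold gk at h
    rcases mul_eq_zero.mp h with h2 | h2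
    · have h3 : x l = 0 := by simpa using h2
      exact ⟨0, by rw [h3]; simp⟩
    · refine ⟨1, ?_⟩
      have h3 := sg_sq l
      push_cast
      linear_combination sg l * h2 + Sq x * h3
  choose k hk using hk
  have h3 : (3 + (δ : ℂ) - ((∑ l, k l : ℕ) : ℂ)) * Sq x = 0 := by
    have : (3 + (δ : ℂ)) * Sq x = ((∑ l, k l : ℕ) : ℂ) * Sq x := by
      conv_lhs => rw [Sq_eq_sum, Finset.mul_sum]
      rw [Finset.sum_congr rfl (fun l _ => hk l), ← Finset.sum_mul]
      push_cast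
      rfl
    linear_combination this
  have hS : Sq x = 0 := by
    rcases mul_eq_zero.mp h3 with h4 | h4
    · exfalso
      have h5 : (3 : ℝ) + δ - ((∑ l, k l : ℕ) : ℝ) = 0 := by exact_mod_cast h4
      have h6 : (3 : ℝ) < ((∑ l, k l : ℕ) : ℝ) := by linarith
      have h7 : ((∑ l, k l : ℕ) : ℝ) < 4 := by linarith
      have h8 : 3 < ∑ l, k l := by exact_mod_cast h6
      have h9 : ∑ l, k l < 4 := by exact_mod_cast h7
      omega
    · exact h4
  ext l
  have h4 := hx l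
  unfold gk at h4
  rw [hS, mul_zero, sub_zero] at h4
  have h5 : (3 + (δ : ℂ)) ≠ 0 := by
    intro h
    have : (3 : ℝ) + δ = 0 := by exact_mod_cast h
    linarith
  simp only [mul_eq_zero, OfNat.ofNat_ne_zero, false_or, h5, pow_eq_zero_iff, ne_eq,
    not_false_eq_true] at h4
  simpa using h4

/-- real version of the gradient at `δ = 0` -/
def gR (a : Fin 4 → ℝ) (l : Fin 4) : ℝ :=
  4 * a l * (3 * a l ^ 2 - (![1, 1, -1, -1] : Fin 4 → ℝ) l *
    (a 0 ^ 2 + a 1 ^ 2 - a 2 ^ 2 - a 3 ^ 2))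

lemma gk_ofReal (a : Fin 4 → ℝ) (l : Fin 4) : gk 0 (fun i => (a i : ℂ)) l = ((gR a l : ℝ) : ℂ) := by
  unfold gk gR Sq sg
  fin_cases l <;> simp

lemma gR_eq_zero (a : Fin 4 → ℝ) (h : ∀ l, gR a l = 0) : a = 0 := by
  have h1 : a 0 * gR a 0 + a 1 * gR a 1 + a 2 * gR a 2 + a 3 * gR a 3 = 0 := by
    rw [h, h, h, h]; ring
  have h2 : a 0 * gR a 0 + a 1 * gR a 1 + a 2 * gR a 2 + a 3 * gR a 3 =
      4 * (3 * (a 0 ^ 4 + a 1 ^ 4 + a 2 ^ 4 + a 3 ^ 4) -
        (a 0 ^ 2 + a 1 ^ 2 - a 2 ^ 2 - a 3 ^ 2) ^ 2) := by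
    unfold gR
    simp
    ring
  have h3 : a 0 ^ 4 + a 1 ^ 4 + a 2 ^ 4 + a 3 ^ 4 ≤ 0 := by
    nlinarith [sq_nonneg (a 0 ^ 2 - a 1 ^ 2), sq_nonneg (a 2 ^ 2 - a 3 ^ 2),
      mul_nonneg (add_nonneg (sq_nonneg (a 0)) (sq_nonneg (a 1)))
        (add_nonneg (sq_nonneg (a 2)) (sq_nonneg (a 3)))]
  have p0 : 0 ≤ a 0 ^ 4 := by positivity
  have p1 : 0 ≤ a 1 ^ 4 := by positivity
  have p2 : 0 ≤ a 2 ^ 4 := by positivity
  have p3 : 0 ≤ a 3 ^ 4 := by positivity
  have q0 : a 0 = 0 := pow_eq_zero_iff (n := 4) (by norm_num) |>.mp (by linarith)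
  have q1 : a 1 = 0 := pow_eq_zero_iff (n := 4) (by norm_num) |>.mp (by linarith)
  have q2 : a 2 = 0 := pow_eq_zero_iff (n := 4) (by norm_num) |>.mp (by linarith)
  have q3 : a 3 = 0 := pow_eq_zero_iff (n := 4) (by norm_num) |>.mp (by linarith)
  funext l
  fin_cases l <;> simp [q0, q1, q2, q3]

/-- Hessian matrix of the Kummer form -/
def Hs (a : Fin 4 → ℝ) (l j : Fin 4) : ℝ :=
  if l = j then 4 * (3 * a l ^ 2 - (![1, 1, -1, -1] : Fin 4 → ℝ) l *
    (a 0 ^ 2 + a 1 ^ 2 - a 2 ^ 2 - a 3 ^ 2)) + 16 * a l ^ 2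
  else -8 * (![1, 1, -1, -1] : Fin 4 → ℝ) l * (![1, 1, -1, -1] : Fin 4 → ℝ) j * a l * a j

lemma Hs_symm (a : Fin 4 → ℝ) (l j : Fin 4) : Hs a l j = Hs a j l := by
  unfold Hs
  by_cases h : l = j
  · subst h; rfl
  · rw [if_neg h, if_neg (Ne.symm h)]; ring

lemma Dg_eq_Hs (a : Fin 4 → ℝ) (x : Fin 4 → ℂ) (l : Fin 4) :
    Dg (fun i => (a i : ℂ)) x l = ∑ j, (Hs a l j : ℂ) * x j := by
  unfold Dg Hs Sq Sp sg
  fin_cases l <;> simp [Fin.sum_univ_four] <;> ring

lemma Dg_self' (x : Fin 4 → ℂ) (l : Fin 4) : Dg x x l = 3 * gk 0 x l := by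
  unfold Dg gk Sq Sp
  ring

lemma Dg_zero_right (x : Fin 4 → ℂ) (l : Fin 4) : Dg x 0 l = 0 := by
  simp [Dg, Sp]

lemma gk_sub (x a : Fin 4 → ℂ) (s : ℂ) (l : Fin 4) :
    gk 0 (x - s • a) l + s * Dg (x - s • a) a l =
      gk 0 x l + s ^ 2 * (-Dg a x l) + s ^ 3 * (2 * gk 0 a l) := by
  simp only [gk, Dg, Sq, Sp, Pi.sub_apply, Pi.smul_apply, smul_eq_mul]
  ring

/-- complexification of tensors -/
def c3 (c : Fin 4 → Fin 4 → Fin 4 → ℝ) : T3 := fun l j m => (c l j m : ℂ)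
def c2 (b : Fin 4 → Fin 4 → ℝ) : T2 := fun l j => (b l j : ℂ)

lemma continuous_c3 : Continuous c3 := by
  unfold c3
  fun_prop

lemma continuous_c2 : Continuous c2 := by
  unfold c2
  fun_prop

/-- a limit of real-rooted perturbations -/
theorem limit_rigid (c : Fin 4 → Fin 4 → Fin 4 → ℝ) (b : Fin 4 → Fin 4 → ℝ)
    (hbs : ∀ l j, b l j = b j l) (hcs1 : ∀ l j m, c l j m = c j l m)
    (hcs2 : ∀ l j m, c l j m = c l m j)
    (hper : ¬ ∀ᶠ θ in 𝓝 (((0 : ℂ), c3 c, c2 b) : Th), (∀ x, (∀ l, gk θ.1 x l = 0) → x = 0) →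
      ∃ z, (∀ l, Vc θ z l = 0) ∧ ∃ i, (z i).im ≠ 0) : c = 0 ∧ b = 0 := by
  -- step 1: the cubic part
  have s1 : ∀ t P, IsNode t P → ∑ l, P l * ∑ j, ∑ m, (c l j m : ℂ) * (P j * P m) = 0 := by
    intro t P hP
    by_contra hne
    apply hper
    refine node_persist (fun _ => 0) _ 1 one_ne_zero
      (fun p l => ∑ j, ∑ m, (c l j m : ℂ) * (p.2 j * p.2 m) + p.1 * ∑ j, (b l j : ℂ) * p.2 j)
      (by fun_prop) ?_ hP ?_
    · intro s x l
      unfold Fh Fg c3 c2
      have : x - s • (fun _ : Fin 4 => ((0 : ℝ) : ℂ)) = x := by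
        ext i; simp
      rw [this]
      ring
    · simpa using hne
  obtain ⟨a, ha⟩ := cubic_rigid c hcs1 hcs2 s1
  set aC : Fin 4 → ℂ := fun i => (a i : ℂ) with haC
  -- step 2: the quadratic part
  have hlin : ∀ (l : Fin 4) (x : Fin 4 → ℂ), ∑ j, (((fun l j => b l j - Hs a l j) l j : ℝ) : ℂ) * x j =
      ∑ j, (b l j : ℂ) * x j - Dg aC x l := by
    intro l x
    rw [Dg_eq_Hs, ← Finset.sum_sub_distrib]
    apply Finset.sum_congr rfl
    intro j _
    push_cast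
    ring
  have hbsub : ∀ (s : ℂ) (x : Fin 4 → ℂ) (l : Fin 4), ∑ j, (b l j : ℂ) * (x - s • aC) j =
      ∑ j, (b l j : ℂ) * x j - s * ∑ j, (b l j : ℂ) * aC j := by
    intro s x l
    rw [Finset.mul_sum, ← Finset.sum_sub_distrib]
    apply Finset.sum_congr rfl
    intro j _
    simp only [Pi.sub_apply, Pi.smul_apply, smul_eq_mul]
    ring
  have hFh : ∀ (s : ℂ) (x : Fin 4 → ℂ) (l : Fin 4), Fh aC (((0 : ℂ), c3 c, c2 b) : Th) s x l =
      gk 0 x l + s ^ 2 * (∑ j, (b l j : ℂ) * x j - Dg aC x l) +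
        s ^ 3 * (2 * gk 0 aC l - ∑ j, (b l j : ℂ) * aC j) := by
    intro s x l
    have h1 := gk_sub x aC s l
    have h2 := ha (x - s • aC) l
    have h3 := hbsub s x l
    unfold Fh Fg c3 c2
    simp only at h1 h2 h3 ⊢
    rw [h2, h3]
    linear_combination h1
  have s2 : ∀ t P, IsNode t P →
      ∑ l, P l * ∑ j, (((fun l j => b l j - Hs a l j) l j : ℝ) : ℂ) * P j = 0 := by
    intro t P hP
    by_contra hne
    apply hper
    refine node_persist a _ 2 two_ne_zero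
      (fun p l => (∑ j, (((fun l j => b l j - Hs a l j) l j : ℝ) : ℂ) * p.2 j) +
        p.1 * (2 * gk 0 aC l - ∑ j, (b l j : ℂ) * aC j))
      (by fun_prop) ?_ hP ?_
    · intro s x l
      rw [hFh]
      simp only
      rw [hlin]
      ring
    · simpa using hne
  have hb0 := quad_rigid (fun l j => b l j - Hs a l j)
    (fun l j => by
      rw [hbs, Hs_symm]) s2
  have hb1 : ∀ l j, b l j = Hs a l j := by
    intro l j
    have := congrFun (congrFun hb0 l) j
    simp only [Pi.zero_apply] at this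
    linarith
  have hbx : ∀ (l : Fin 4) (x : Fin 4 → ℂ), ∑ j, (b l j : ℂ) * x j = Dg aC x l := by
    intro l x
    rw [Dg_eq_Hs]
    simp only [hb1]
  -- step 3: the linear part
  have s3 : ∀ t P, IsNode t P → ∑ l, P l * ((gR a l : ℝ) : ℂ) = 0 := by
    intro t P hP
    by_contra hne
    apply hper
    refine node_persist a _ 3 three_ne_zero (fun _ l => -((gR a l : ℝ) : ℂ))
      (by fun_prop) ?_ hP ?_
    · intro s x l
      rw [hFh, hbx, hbx, Dg_self', gk_ofReal]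
      ring
    · intro h
      apply hne
      simp only [mul_neg, Finset.sum_neg_distrib, neg_eq_zero] at h
      exact h
  have ha0 : a = 0 := gR_eq_zero a (fun l => congrFun (lin_rigid (gR a) s3) l)
  have haC0 : aC = 0 := by
    rw [haC, ha0]; ext i; simp
  have hc0 : ∀ (x : Fin 4 → ℂ) (l : Fin 4), ∑ j, ∑ m, (c l j m : ℂ) * (x j * x m) = 0 := by
    intro x l
    rw [ha x l, haC0, Dg_zero_right]
  have hcd : ∀ l j, c l j j = 0 := by
    intro l j
    have := hc0 (Pi.single j 1) l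
    simp only [Pi.single_apply, mul_ite, mul_one, mul_zero, Finset.sum_ite_eq',
      Finset.mem_univ, if_true] at this
    exact_mod_cast this
  have hcz : c = 0 := by
    funext l j m
    by_cases hjm : j = m
    · subst hjm; exact hcd l j
    · have h1 := hc0 (Pi.single j 1 + Pi.single m 1) l
      have h2 : ∑ j', ∑ m', (c l j' m' : ℂ) * ((Pi.single j 1 + Pi.single m 1 : Fin 4 → ℂ) j' *
          (Pi.single j 1 + Pi.single m 1 : Fin 4 → ℂ) m') =
          (c l j j : ℂ) + c l j m + c l m j + c l m m := by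
        simp only [Pi.add_apply, Pi.single_apply, mul_add, mul_ite, mul_one,
          mul_zero, Finset.sum_add_distrib, Finset.sum_ite_eq',
          Finset.mem_univ, if_true]
        ring
      rw [h2, hcd l j, hcd l m, hcs2 l m j] at h1
      have h3 : ((c l j m : ℝ) : ℂ) = 0 := by
        push_cast at h1
        linear_combination h1 / 2
      exact_mod_cast h3
  refine ⟨hcz, ?_⟩
  funext l j
  have := hbx l (Pi.single j 1)
  rw [haC0] at this
  simp only [Pi.single_apply, mul_ite, mul_one, mul_zero, Finset.sum_ite_eq',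
      Finset.mem_univ, if_true] at this
  have h4 : Dg (0 : Fin 4 → ℂ) (fun i => if i = j then 1 else 0) l = 0 := by
    simp [Dg, Sq]
  have h5 : (Pi.single j 1 : Fin 4 → ℂ) = fun i => if i = j then 1 else 0 := by
    ext i; simp [Pi.single_apply]
  rw [h5, h4] at this
  exact_mod_cast this

end

end Helper22.Mor
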