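import Mathlib
import Pool.Agent.Helper22.MorSeq
import Pool.Agent.Helper22.MorLimit

/-!
# A quartic form without real-rooted lower order perturbations
-/

namespace Helper22.Mor

open Filter Topology MvPolynomial

noncomputable section

/-- the quartic forms `(3+δ) ∑ xᵢ⁴ - (x₀²+x₁²-x₂²-x₃²)²` -/
def kf (δ : ℝ) : MvPolynomial (Fin 4) ℝ :=
  C (3 + δ) * (X 0 ^ 4 + X 1 ^ 4 + X 2 ^ 4 + X 3 ^ 4) - (X 0 ^ 2 + X 1 ^ 2 - X 2 ^ 2 - X 3 ^ 2) ^ 2

lemma kf_homog (δ : ℝ) : (kf δ).IsHomogeneous 4 := by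
  unfold kf
  have hX : ∀ (i : Fin 4) (n : ℕ), (X i ^ n : MvPolynomial (Fin 4) ℝ).IsHomogeneous n := by
    intro i n
    have := (isHomogeneous_X ℝ i).pow n
    simpa using this
  apply IsHomogeneous.sub
  · have h1 := (isHomogeneous_C (Fin 4) (3 + δ)).mul
      ((((hX 0 4).add (hX 1 4)).add (hX 2 4)).add (hX 3 4))
    simpa using h1
  · have h2 := ((((hX 0 2).add (hX 1 2)).sub (hX 2 2)).sub (hX 3 2)).pow 2
    simpa using h2

lemma eval_pderiv_kf (δ : ℝ) (z : Fin 4 → ℂ) (l : Fin 4) :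
    eval z (cx (pderiv l (kf δ))) = gk δ z l := by
  unfold kf gk Sq sg
  fin_cases l <;>
  · simp [pderiv_X]
    ring

/-- the property we want to refute -/
def RealRooted (f : MvPolynomial (Fin 4) ℝ) : Prop :=
  ∃ (c : Fin 4 → Fin 4 → Fin 4 → ℝ) (b : Fin 4 → Fin 4 → ℝ),
      (∀ l j, b l j = b j l) ∧ (∀ l j m, c l j m = c j l m) ∧ (∀ l j m, c l j m = c l m j) ∧
      ‖c‖ ≤ 1 ∧ ‖b‖ ≤ 1 ∧ (‖c‖ = 1 ∨ ‖b‖ = 1) ∧
      ∀ z : Fin 4 → ℂ, (∀ l, Vf (fun l z => eval z (cx (pderiv l f))) c b z l = 0) →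
        ∀ i, (z i).im = 0

theorem exists_not_realRooted :
    ∃ δ₀ : ℝ, 0 < δ₀ ∧ δ₀ ≤ 1 ∧ ∀ δ : ℝ, 0 < δ → δ < δ₀ → ¬ RealRooted (kf δ) := by
  by_contra hcon
  push Not at hcon
  have hcon' : ∀ n : ℕ, ∃ δ : ℝ, 0 < δ ∧ δ < 1 / ((n : ℝ) + 1) ∧ RealRooted (kf δ) := by
    intro n
    apply hcon (1 / ((n : ℝ) + 1)) (by positivity)
    rw [div_le_one (by positivity)]
    have : (0 : ℝ) ≤ n := Nat.cast_nonneg n
    linarith
  choose δ hδ0 hδn hRR using hcon'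
  have hδ1 : ∀ n, δ n < 1 := by
    intro n
    have : 1 / ((n : ℝ) + 1) ≤ 1 := by
      rw [div_le_one (by positivity)]
      have : (0 : ℝ) ≤ n := Nat.cast_nonneg n
      linarith
    exact (hδn n).trans_le this
  have hδlim : Tendsto δ atTop (𝓝 0) :=
    squeeze_zero (fun n => (hδ0 n).le) (fun n => (hδn n).le)
      (tendsto_one_div_add_atTop_nhds_zero_nat (𝕜 := ℝ))
  choose c b hbs hcs1 hcs2 hc1 hb1 hor hreal using hRR
  have hcomp : IsCompact ((Metric.closedBall (0 : Fin 4 → Fin 4 → Fin 4 → ℝ) 1) ×ˢ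
      (Metric.closedBall (0 : Fin 4 → Fin 4 → ℝ) 1)) :=
    (isCompact_closedBall _ _).prod (isCompact_closedBall _ _)
  have hmem : ∀ n, (c n, b n) ∈ ((Metric.closedBall (0 : Fin 4 → Fin 4 → Fin 4 → ℝ) 1) ×ˢ
      (Metric.closedBall (0 : Fin 4 → Fin 4 → ℝ) 1)) := by
    intro n
    rw [Set.mem_prod, mem_closedBall_zero_iff, mem_closedBall_zero_iff]
    exact ⟨hc1 n, hb1 n⟩
  obtain ⟨⟨c', b'⟩, _, φ, hφ, hlim⟩ := hcomp.tendsto_subseq hmem
  have hlimc : Tendsto (fun n => c (φ n)) atTop (𝓝 c') := (continuous_fst.tendsto _).comp hlim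
  have hlimb : Tendsto (fun n => b (φ n)) atTop (𝓝 b') := (continuous_snd.tendsto _).comp hlim
  have hb1 : ∀ l j, Tendsto (fun n => b (φ n) l j) atTop (𝓝 (b' l j)) := fun l j =>
    (tendsto_pi_nhds.mp ((tendsto_pi_nhds.mp hlimb) l)) j
  have hc1 : ∀ l j m, Tendsto (fun n => c (φ n) l j m) atTop (𝓝 (c' l j m)) := fun l j m =>
    (tendsto_pi_nhds.mp ((tendsto_pi_nhds.mp ((tendsto_pi_nhds.mp hlimc) l)) j)) m
  have hbs' : ∀ l j, b' l j = b' j l := fun l j => by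
    refine tendsto_nhds_unique (hb1 l j) ?_
    exact (hb1 j l).congr fun n => hbs (φ n) j l
  have hcs1' : ∀ l j m, c' l j m = c' j l m := fun l j m => by
    refine tendsto_nhds_unique (hc1 l j m) ?_
    exact (hc1 j l m).congr fun n => hcs1 (φ n) j l m
  have hcs2' : ∀ l j m, c' l j m = c' l m j := fun l j m => by
    refine tendsto_nhds_unique (hc1 l j m) ?_
    exact (hc1 l m j).congr fun n => hcs2 (φ n) l m j
  have hper : ¬ ∀ᶠ θ in 𝓝 (((0 : ℂ), c3 c', c2 b') : Th),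
      (∀ x, (∀ l, gk θ.1 x l = 0) → x = 0) →
      ∃ z, (∀ l, Vc θ z l = 0) ∧ ∃ i, (z i).im ≠ 0 := by
    intro hev
    have ht : Tendsto (fun n => (((δ (φ n) : ℝ) : ℂ), c3 (c (φ n)), c2 (b (φ n)))) atTop
        (𝓝 (((0 : ℂ), c3 c', c2 b') : Th)) := by
      apply Tendsto.prodMk_nhds
      · have h1 : Tendsto (fun n => δ (φ n)) atTop (𝓝 0) := hδlim.comp hφ.tendsto_atTop
        have h2 := (Complex.continuous_ofReal.tendsto 0).comp h1
        rw [Complex.ofReal_zero] at h2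
        exact h2
      · apply Tendsto.prodMk_nhds
        · exact (continuous_c3.tendsto _).comp hlimc
        · exact (continuous_c2.tendsto _).comp hlimb
    obtain ⟨n, hn⟩ := (ht.eventually hev).exists
    obtain ⟨z, hz, i, hi⟩ := hn (fun x hx => gk_nonsing (δ (φ n)) (hδ0 _) (hδ1 _) x hx)
    apply hi
    apply hreal (φ n) z
    intro l
    have := hz l
    unfold Vf
    beta_reduce
    rw [eval_pderiv_kf]
    exact this
  obtain ⟨hc0, hb0⟩ := limit_rigid c' b' hbs' hcs1' hcs2' hper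
  have h1 : Tendsto (fun n => (‖c (φ n)‖ - 1) * (‖b (φ n)‖ - 1)) atTop
        (𝓝 ((‖c'‖ - 1) * (‖b'‖ - 1))) :=
      (hlimc.norm.sub_const 1).mul (hlimb.norm.sub_const 1)
  have h2 : ∀ n, (‖c (φ n)‖ - 1) * (‖b (φ n)‖ - 1) = 0 := by
    intro n
    rcases hor (φ n) with h | h
    · rw [h, sub_self, zero_mul]
    · rw [h, sub_self, mul_zero]
  simp_rw [h2] at h1
  have h3 := tendsto_nhds_unique h1 tendsto_const_nhds
  rw [hc0, hb0] at h3
  simp at h3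

end

end Helper22.Mor
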