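import Mathlib
import Pool.Agent.Helper22.MorApprox
import Pool.Agent.Helper22.MorLimit

/-!
# From analytic deformations to polynomial perturbations
-/

namespace Helper22.Mor

open MvPolynomial Filter Topology Metric

noncomputable section

/-- complexification of vectors as a continuous real linear map -/
def cvL : (Fin 4 → ℝ) →L[ℝ] (Fin 4 → ℂ) :=
  ContinuousLinearMap.pi fun i => Complex.ofRealCLM.comp (ContinuousLinearMap.proj i)

lemma cvL_apply (x : Fin 4 → ℝ) : cvL x = cv x := rfl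

lemma continuous_cv : Continuous cv := cvL.continuous

lemma cv_single (l : Fin 4) : cv (Pi.single l 1) = Pi.single l 1 := by
  ext i
  simp only [cv]
  by_cases h : i = l
  · subst h; simp
  · simp [h]

/-- a real critical point of the real part is a complex critical point -/
lemma crit_complex (G : (Fin 4 → ℂ) → ℂ) (U : Set (Fin 4 → ℂ)) (hU : IsOpen U)
    (hG : AnalyticOnNhd ℂ G U) (hreal : ∀ x : Fin 4 → ℝ, cv x ∈ U → (G (cv x)).im = 0)
    (x : Fin 4 → ℝ) (hx : cv x ∈ U) (hc : fderiv ℝ (fun y : Fin 4 → ℝ => (G (cv y)).re) x = 0)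
    (l : Fin 4) :
    HasDerivAt (fun s : ℂ => G (cv x + s • (Pi.single l 1 : Fin 4 → ℂ))) 0 0 := by
  have hGd : HasFDerivAt G (fderiv ℂ G (cv x)) (cv x) := (hG _ hx).differentiableAt.hasFDerivAt
  have h1 : HasFDerivAt (fun y : Fin 4 → ℝ => G (cv y))
      (((fderiv ℂ G (cv x)).restrictScalars ℝ).comp cvL) x := by
    have h2 : HasFDerivAt G ((fderiv ℂ G (cv x)).restrictScalars ℝ) (cvL x) :=
      hGd.restrictScalars ℝ
    exact h2.comp x cvL.hasFDerivAt
  have hre : HasFDerivAt (fun y : Fin 4 → ℝ => (G (cv y)).re)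
      (Complex.reCLM.comp (((fderiv ℂ G (cv x)).restrictScalars ℝ).comp cvL)) x :=
    Complex.reCLM.hasFDerivAt.comp x h1
  have him : HasFDerivAt (fun y : Fin 4 → ℝ => (G (cv y)).im)
      (Complex.imCLM.comp (((fderiv ℂ G (cv x)).restrictScalars ℝ).comp cvL)) x :=
    Complex.imCLM.hasFDerivAt.comp x h1
  have him0 : HasFDerivAt (fun y : Fin 4 → ℝ => (G (cv y)).im)
      (0 : (Fin 4 → ℝ) →L[ℝ] ℝ) x := by
    have h3 : (fun y : Fin 4 → ℝ => (G (cv y)).im) =ᶠ[𝓝 x] fun _ => (0 : ℝ) := by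
      have h4 : ∀ᶠ y in 𝓝 x, cv y ∈ U := continuous_cv.continuousAt.eventually (hU.mem_nhds hx)
      filter_upwards [h4] with y hy
      exact hreal y hy
    exact (hasFDerivAt_const (0 : ℝ) x).congr_of_eventuallyEq h3
  have e1 := hre.fderiv
  rw [hc] at e1
  have e2 := him.unique him0
  have e3 : (fderiv ℂ G (cv x) (Pi.single l 1)).re = 0 := by
    have := congrArg (fun L : (Fin 4 → ℝ) →L[ℝ] ℝ => L (Pi.single l 1)) e1
    simp only [_root_.zero_apply, ContinuousLinearMap.comp_apply, cvL_apply,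
      cv_single] at this
    exact this.symm
  have e4 : (fderiv ℂ G (cv x) (Pi.single l 1)).im = 0 := by
    have := congrArg (fun L : (Fin 4 → ℝ) →L[ℝ] ℝ => L (Pi.single l 1)) e2
    simp only [_root_.zero_apply, ContinuousLinearMap.comp_apply, cvL_apply,
      cv_single] at this
    exact this
  have e5 : fderiv ℂ G (cv x) (Pi.single l 1) = 0 := Complex.ext e3 e4
  have h5 : HasFDerivAt G (fderiv ℂ G (cv x)) (cv x + (0 : ℂ) • (Pi.single l 1 : Fin 4 → ℂ)) := by
    rw [zero_smul, add_zero]; exact hGd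
  have h6 : HasDerivAt (fun s : ℂ => cv x + s • (Pi.single l 1 : Fin 4 → ℂ)) (Pi.single l 1) 0 := by
    have h7 : HasDerivAt (fun s : ℂ => cv x + s • (Pi.single l 1 : Fin 4 → ℂ))
        (0 + (1 : ℂ) • (Pi.single l 1 : Fin 4 → ℂ)) 0 :=
      (hasDerivAt_const _ _).add ((hasDerivAt_id _).smul_const _)
    simpa using h7
  have h8 := h5.comp_hasDerivAt (0 : ℂ) h6
  rw [e5] at h8
  exact h8

lemma analytic_eval (a : MvPolynomial (Fin 4) ℂ) (U : Set (Fin 4 → ℂ)) :
    AnalyticOnNhd ℂ (fun z => eval z a) U :=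
  (AnalyticOnNhd.eval_mvPolynomial a).mono (Set.subset_univ _)

theorem many_of_frequently (f : MvPolynomial (Fin 4) ℝ) (hf : f.IsHomogeneous 4)
    (hns : ∀ z : Fin 4 → ℂ, (∀ l, eval z (cx (pderiv l f)) = 0) → z = 0)
    (μ : ℕ) (U : Set (Fin 4 → ℂ)) (hU : IsOpen U) (h0 : (0 : Fin 4 → ℂ) ∈ U)
    (F : ℝ → (Fin 4 → ℂ) → ℂ) (L : Filter ℝ)
    (hF : ∀ᶠ t in L, AnalyticOnNhd ℂ (F t) U)
    (hreal : ∀ᶠ t in L, ∀ x : Fin 4 → ℝ, cv x ∈ U → (F t (cv x)).im = 0)
    (hlim : TendstoLocallyUniformlyOn F (fun z => eval z (cx f)) L U)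
    (K : Set (Fin 4 → ℝ)) (hK : IsCompact K) (hKU : ∀ x ∈ K, cv x ∈ U)
    (hfreq : ∃ᶠ t in L, (μ : ℕ∞) ≤
      {x ∈ K | fderiv ℝ (fun y : Fin 4 → ℝ => (F t (cv y)).re) x = 0}.encard) :
    ManyCrit f μ := by
  classical
  intro η hη
  -- radii
  obtain ⟨R₀, hR₀, hball⟩ : ∃ R₀ > 0, closedBall (0 : Fin 4 → ℂ) R₀ ⊆ U :=
    nhds_basis_closedBall.mem_iff.mp (hU.mem_nhds h0)
  have hKC : IsCompact (cv '' K) := hK.image continuous_cv
  have hKCU : cv '' K ⊆ U := by
    rintro _ ⟨x, hx, rfl⟩; exact hKU x hx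
  obtain ⟨r, hr, hcth⟩ := hKC.exists_cthickening_subset_open hU hKCU
  have hcthc : IsCompact (cthickening r (cv '' K)) := hKC.cthickening
  have hhom : ∀ l, (cx (pderiv l f)).IsHomogeneous 3 := fun l =>
    (hf.pderiv : (pderiv l f).IsHomogeneous 3).map _
  obtain ⟨c₀, hc₀, hgr⟩ := growth (fun l => cx (pderiv l f)) hhom hns
  set lam : ℝ := R₀ / 9 with hlam
  have hlam0 : 0 < lam := by positivity
  have hlamC : (lam : ℂ) ≠ 0 := by exact_mod_cast hlam0.ne'
  set E : ℝ := η / 8 with hE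
  have hE0 : 0 < E := by positivity
  have hunif := (tendstoLocallyUniformlyOn_iff_forall_isCompact hU).mp hlim
  have ev1 := Metric.tendstoUniformlyOn_iff.mp
    (hunif (closedBall 0 R₀) hball (isCompact_closedBall _ _)) (lam ^ 4 * E) (by positivity)
  set e2 : ℝ := r * (c₀ * (lam / 4) ^ 3 / 4) with he2
  have he20 : 0 < e2 := by positivity
  have ev2 := Metric.tendstoUniformlyOn_iff.mp (hunif _ hcth hcthc) e2 he20
  obtain ⟨t, ht1, ht2, ht3, ht4, ht5⟩ := (hfreq.and_eventually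
    (hF.and (hreal.and (ev1.and ev2)))).exists
  -- derivative of `f` along a line
  have hdf : ∀ (z : Fin 4 → ℂ) (l : Fin 4),
      HasDerivAt (fun s : ℂ => eval (z + s • (Pi.single l 1 : Fin 4 → ℂ)) (cx f))
        (eval z (cx (pderiv l f))) 0 := by
    intro z l
    have := hasDerivAt_eval (cx f) z l 0
    rw [zero_smul, add_zero] at this
    have h2 : pderiv l (cx f) = cx (pderiv l f) := pderiv_map
    rw [h2] at this
    exact this
  -- critical points are small
  have hsmall : ∀ x ∈ K, fderiv ℝ (fun y : Fin 4 → ℝ => (F t (cv y)).re) x = 0 →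
      ‖x‖ ≤ lam / 4 := by
    intro x hx hxc
    by_contra hcon
    push Not at hcon
    have h1 := hgr (cv x)
    rw [cv_norm] at h1
    have h2 : ∀ l ∈ Finset.univ, ‖eval (cv x) (cx (pderiv l f))‖ ≤ e2 / r := by
      intro l _
      have h3 := crit_complex (F t) U hU ht2 ht3 x (hKU x hx) hxc l
      have h4 := ((hdf (cv x) l).sub h3).deriv
      rw [sub_zero] at h4
      rw [← h4]
      have hmem : ∀ s : ℂ, ‖s‖ ≤ r → cv x + s • (Pi.single l 1 : Fin 4 → ℂ) ∈
          cthickening r (cv '' K) := by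
        intro s hs
        apply mem_cthickening_of_dist_le _ (cv x) r _ (Set.mem_image_of_mem cv hx)
        rw [dist_eq_norm, add_sub_cancel_left, norm_smul]
        have h5 : ‖(Pi.single l 1 : Fin 4 → ℂ)‖ ≤ 1 := by
          rw [pi_norm_le_iff_of_nonneg zero_le_one]
          intro i
          by_cases h : i = l
          · subst h; simp
          · simp [h]
        nlinarith [norm_nonneg s, norm_nonneg (Pi.single l 1 : Fin 4 → ℂ)]
      apply Complex.norm_deriv_le_of_forall_mem_sphere_norm_le hr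
      · apply DifferentiableOn.diffContOnCl_ball (U := closedBall 0 r) _ le_rfl
        intro s hs
        rw [mem_closedBall_zero_iff] at hs
        apply DifferentiableAt.differentiableWithinAt
        apply DifferentiableAt.sub
        · exact (hasDerivAt_eval (cx f) (cv x) l s).differentiableAt
        · exact DifferentiableAt.comp (g := F t) s
            (ht2 _ (hcth (hmem s hs))).differentiableAt (by fun_prop)
      · intro s hs
        rw [mem_sphere_zero_iff_norm] at hs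
        have h6 := ht5 _ (hmem s hs.le)
        rw [dist_eq_norm] at h6
        exact h6.le
    have h3 := h1.trans (Finset.sum_le_sum h2)
    simp only [Finset.sum_const, Finset.card_univ, Fintype.card_fin, nsmul_eq_mul] at h3
    push_cast at h3
    have h4 : e2 / r = c₀ * (lam / 4) ^ 3 / 4 := by
      rw [he2]; field_simp
    rw [h4] at h3
    have h5 : (lam / 4) ^ 3 < ‖x‖ ^ 3 := pow_lt_pow_left₀ hcon (by positivity) (by norm_num)
    nlinarith
  -- choose `μ` critical points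
  obtain ⟨Z₁, hZ₁sub, hZ₁card⟩ := Set.exists_subset_encard_eq ht1
  have hZ₁fin : Z₁.Finite := Set.finite_of_encard_eq_coe hZ₁card
  set Z₀ : Finset (Fin 4 → ℝ) := hZ₁fin.toFinset with hZ₀
  have hZ₀card : Z₀.card = μ := by
    have h1 : Z₁.encard = (Z₀.card : ℕ∞) := by
      rw [hZ₀, hZ₁fin.encard_eq_coe_toFinset_card]
    rw [h1] at hZ₁card
    exact_mod_cast hZ₁card
  have hZ₀mem : ∀ x ∈ Z₀, x ∈ K ∧ fderiv ℝ (fun y : Fin 4 → ℝ => (F t (cv y)).re) x = 0 := by
    intro x hx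
    rw [hZ₀, Set.Finite.mem_toFinset] at hx
    exact hZ₁sub hx
  set Z : Finset (Fin 4 → ℝ) := Z₀.image (fun x => lam⁻¹ • x) with hZ
  have hinj : Function.Injective (fun x : Fin 4 → ℝ => lam⁻¹ • x) := by
    intro x y h
    exact smul_right_injective _ (inv_ne_zero hlam0.ne') h
  have hZcard : Z.card = μ := by
    rw [hZ, Finset.card_image_of_injective _ hinj, hZ₀card]
  -- the rescaled perturbation
  set D : (Fin 4 → ℂ) → ℂ := fun z =>
    ((lam : ℂ) ^ 4)⁻¹ * (F t ((lam : ℂ) • z) - eval ((lam : ℂ) • z) (cx f)) with hD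
  have hmaps : ∀ z ∈ ball (0 : Fin 4 → ℂ) 9, (lam : ℂ) • z ∈ closedBall (0 : Fin 4 → ℂ) R₀ := by
    intro z hz
    rw [mem_ball_zero_iff] at hz
    rw [mem_closedBall_zero_iff, norm_smul, Complex.norm_real, Real.norm_eq_abs, abs_of_pos hlam0]
    calc lam * ‖z‖ ≤ lam * 9 := mul_le_mul_of_nonneg_left hz.le hlam0.le
      _ = R₀ := by rw [hlam]; ring
  have hDan : AnalyticOnNhd ℂ D (ball 0 9) := by
    intro z hz
    have h1 : AnalyticAt ℂ (fun z : Fin 4 → ℂ => (lam : ℂ) • z) z := by fun_prop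
    have h2 : AnalyticAt ℂ (fun z => F t ((lam : ℂ) • z)) z :=
      AnalyticAt.fun_comp (ht2 _ (hball (hmaps z hz))) h1
    have h3 : AnalyticAt ℂ (fun z => eval ((lam : ℂ) • z) (cx f)) z :=
      AnalyticAt.fun_comp (g := fun z : Fin 4 → ℂ => eval z (cx f))
        (analytic_eval (cx f) Set.univ _ trivial) h1
    exact analyticAt_const.mul (h2.sub h3)
  have hDE : ∀ z ∈ ball (0 : Fin 4 → ℂ) 9, ‖D z‖ ≤ E := by
    intro z hz
    have h1 := ht4 _ (hmaps z hz)
    rw [dist_comm, dist_eq_norm] at h1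
    simp only [hD]
    rw [norm_mul, norm_inv, norm_pow, Complex.norm_real, Real.norm_eq_abs, abs_of_pos hlam0,
      inv_mul_le_iff₀ (by positivity)]
    exact h1.le
  have hZ4 : ∀ q ∈ Z, ‖q‖ ≤ 1 / 4 := by
    intro q hq
    rw [hZ, Finset.mem_image] at hq
    obtain ⟨x, hx, rfl⟩ := hq
    have h1 := hsmall x (hZ₀mem x hx).1 (hZ₀mem x hx).2
    rw [norm_smul, norm_inv, Real.norm_eq_abs, abs_of_pos hlam0, inv_mul_le_iff₀ hlam0]
    linarith
  have hcrit : ∀ q ∈ Z, ∀ l,
      (deriv (fun s : ℂ => D (cv q + s • (Pi.single l 1 : Fin 4 → ℂ))) 0).re +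
      eval q (pderiv l f) = 0 := by
    intro q hq l
    rw [hZ, Finset.mem_image] at hq
    obtain ⟨x, hx, rfl⟩ := hq
    obtain ⟨hxK, hxc⟩ := hZ₀mem x hx
    have h3 := crit_complex (F t) U hU ht2 ht3 x (hKU x hxK) hxc l
    have h4 := h3.sub (hdf (cv x) l)
    -- compose with `s ↦ lam * s`
    have h5 : HasDerivAt (fun s : ℂ => (lam : ℂ) * s) (lam : ℂ) 0 := by
      simpa using (hasDerivAt_id (0 : ℂ)).const_mul (lam : ℂ)
    have h6 : HasDerivAt ((fun s : ℂ => F t (cv x + s • (Pi.single l 1 : Fin 4 → ℂ))) -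
        fun s : ℂ => eval (cv x + s • (Pi.single l 1 : Fin 4 → ℂ)) (cx f))
        (0 - eval (cv x) (cx (pderiv l f))) ((lam : ℂ) * 0) := by
      rw [mul_zero]; exact h4
    have h7 := (h6.comp (0 : ℂ) h5).const_mul (((lam : ℂ) ^ 4)⁻¹)
    have h8 : (fun s : ℂ => D (cv (lam⁻¹ • x) + s • (Pi.single l 1 : Fin 4 → ℂ))) =
        fun s : ℂ => ((lam : ℂ) ^ 4)⁻¹ *
          (((fun s : ℂ => F t (cv x + s • (Pi.single l 1 : Fin 4 → ℂ))) -
          fun s : ℂ => eval (cv x + s • (Pi.single l 1 : Fin 4 → ℂ)) (cx f)) ∘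
          fun s : ℂ => (lam : ℂ) * s) s := by
      funext s
      have h9 : (lam : ℂ) • (cv (lam⁻¹ • x) + s • (Pi.single l 1 : Fin 4 → ℂ)) =
          cv x + ((lam : ℂ) * s) • (Pi.single l 1 : Fin 4 → ℂ) := by
        rw [smul_add, smul_smul]
        congr 1
        ext i
        simp only [Pi.smul_apply, cv, smul_eq_mul, Complex.ofReal_mul, Complex.ofReal_inv]
        field_simp
      simp only [hD, h9, Function.comp, Pi.sub_apply]
    rw [h8, h7.deriv]
    have h10 : eval (cv x) (cx (pderiv l f)) = ((eval x (pderiv l f) : ℝ) : ℂ) := eval_cx x _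
    have h11 : eval (lam⁻¹ • x) (pderiv l f) = lam⁻¹ ^ 3 * eval x (pderiv l f) :=
      eval_smul_of_homog (hf.pderiv : (pderiv l f).IsHomogeneous 3) _ _
    rw [h10, h11]
    have h12 : ((lam : ℂ) ^ 4)⁻¹ * ((0 - ((eval x (pderiv l f) : ℝ) : ℂ)) * (lam : ℂ)) =
        ((-(lam⁻¹ ^ 3 * eval x (pderiv l f)) : ℝ) : ℂ) := by
      push_cast
      field_simp
      ring
    rw [h12, Complex.ofReal_re]
    ring
  obtain ⟨H, hH1, hH2⟩ := approx f D hDan E hDE Z hZ4 hcrit η (by rw [hE]; linarith)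
  exact ⟨H, hH1, Z, hZcard, hZ4, hH2⟩

end

end Helper22.Mor
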